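import Pool.Agent.H35.P4J.Def
import Pool.Agent.H37.AF.Def

/-!
# P4J: the pieces of the cell side over affine frames, statements

`PthStmt`, `GoodS`, `FrP`, `TMStmt`, `err` are those of P4. `gt` are the true slopes, `gam` the kinds.
-/

set_option autoImplicit false

namespace Pool.P4J

open Finset Real MvPolynomial
open Pool.Agent.H49.Ent Pool.Agent.H32.Dense Pool.STK Pool.STAT Pool.MIC.Frm Pool.MIC7 Pool.FRM
open Pool.GSD
open Pool.BFL (Pb)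
open Pool.P4 (t0 rt pp PthC FraC thd sl gr bb ze zt z0 be nn Dep LLC cl1 dg dgp Ry Rg cb nuv yv bev
  Sv vv tv tq qh GoodS FrP err)

/-! ### The kinds -/

/-- The kinds `gam` for the true slopes `gt` and the threshold `th`. -/
structure Kd (n : ℕ) (gt gam : ℕ → ℝ) (th : ℝ) : Prop where
  th1 : 1 ≤ th
  gt0 : ∀ l, 0 ≤ gt l
  gam0 : ∀ l, 0 ≤ gam l
  gn0 : 0 < gam n
  gn : gam n < 1 + thd gam n
  sl_lt : ∀ l, sl gam n l → gt l < 1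
  gr_ge : ∀ l, gr gam n l → th ≤ gt l
  gp_lt : ∀ l, gp gam n l → gt l < 1 + th
  ab_ge : ∀ l, ab gam n l → 1 + th ≤ gt l

/-! ### Geometry -/

/-- The arithmetic of a place. -/
structure Plc (n : ℕ) (gt gam : ℕ → ℝ) (y r r' r'' a M i j : ℕ) : Prop where
  stp : Stp n gt gam y r r' r'' a
  y1 : 1 ≤ y
  a1 : a ≤ i
  i1 : r'' ≤ i
  i2 : i + r'' < M
  j1 : r ≤ j
  j2 : j + r < M

open Classical in
/-- **(LIN)** The lines over an affine closed frame, deterministic. -/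
def LinStmt : Prop :=
  ∀ (n K K' : ℕ) (lam gt gam : ℕ → ℝ) (C₁ C : ℝ), 1 ≤ n → 1 ≤ C₁ → 0 ≤ C →
    (∀ l, 1 ≤ l → l ≤ n → lam l = 1) → gam n < 1 + thd gam n →
    ∃ C' : ℝ, 1 ≤ C' ∧
    ∀ (y r r' r'' a M : ℕ), ∃ z₀ : ℕ, ∀ (J a₀ w₀ z i j : ℕ) (D : NDat2) (q : D.Ω → ℝ) (κ : ℝ),
      z₀ ≤ z → Plc n gt gam y r r' r'' a M i j → D.Ok2 n K J a₀ w₀ z M lam gt κ C₁ q → D.Strt →
      ∀ (P : ℕ → PN) (ω : D.Ω), 0 < q ω → GoodS D n K' w₀ z M C ω → FraC D n 1 M z C ω →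
      FrP D n K' z i j r C P ω → (∀ l, (P l).totalDegree ≤ 1) →
      (∀ l, 1 ≤ l → l ≤ n → |ze D i j r (fun _ => P) ω l| ≤ exp (C' * z)) ∧
      (∀ w, w₀ + j * z ≤ w → w ≤ w₀ + (j + 1) * z →
        (∀ l, 1 ≤ l → l ≤ n → |z0 D J w i j r (fun _ => P) ω l| ≤ exp (C' * z) ∧
          |be D J w i j r (fun _ => P) ω l| ≤ exp (C' * z)) ∧
        (∀ l, sl gam n l → |ze D i j r (fun _ => P) ω l - z0 D J w i j r (fun _ => P) ω l| ≤
          exp (C' * z) / 2 ^ (y * z)) ∧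
        (∀ l, gp gam n l → |ze D i j r (fun _ => P) ω l - (z0 D J w i j r (fun _ => P) ω l +
          rt D J w ω * be D J w i j r (fun _ => P) ω l)| ≤ exp (C' * z) / 2 ^ (y * z)) ∧
        ∀ ω', 0 < q ω' → GoodS D n K' w₀ z M C ω' → bb D i j r ω = bb D i j r ω' →
          D.T ω / 2 ^ (J - w) = D.T ω' / 2 ^ (J - w) →
          (D.c (i + r') (j - r) ω = D.c (i + r') (j - r) ω' →
            (∀ l, sl gam n l → |z0 D J w i j r (fun _ => P) ω l -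
              z0 D J w i j r (fun _ => P) ω' l| ≤ exp (C' * z) / 2 ^ (y * z)) ∧
            ∀ l, gp gam n l → |be D J w i j r (fun _ => P) ω l -
              be D J w i j r (fun _ => P) ω' l| ≤ exp (C' * z) / 2 ^ (y * z)) ∧
          (D.c (i + (r + r')) (j - r) ω = D.c (i + (r + r')) (j - r) ω' →
            ∀ l, 1 ≤ l → l ≤ n → ¬ ab gam n l →
              |z0 D J w i j r (fun _ => P) ω l - z0 D J w i j r (fun _ => P) ω' l| ≤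
                exp (C' * z) / 2 ^ (y * z) ∧
              |be D J w i j r (fun _ => P) ω l - be D J w i j r (fun _ => P) ω' l| ≤
                exp (C' * z) / 2 ^ (y * z)) ∧
          (D.c (i + r'') (j - r) ω = D.c (i + r'') (j - r) ω' →
            ∀ l, 1 ≤ l → l ≤ n →
              |z0 D J w i j r (fun _ => P) ω l - z0 D J w i j r (fun _ => P) ω' l| ≤
                exp (C' * z) / 2 ^ (y * z) ∧
              |be D J w i j r (fun _ => P) ω l - be D J w i j r (fun _ => P) ω' l| ≤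
                exp (C' * z) / 2 ^ (y * z)))

open Classical in
/-- **(OWN)** The own sheets over a closed frame, deterministic. -/
def OwnStmt : Prop :=
  ∀ (n K K' : ℕ) (lam gt gam : ℕ → ℝ) (C₁ C : ℝ), 1 ≤ n → 1 ≤ C₁ → 0 ≤ C →
    (∀ l, 1 ≤ l → l ≤ n → lam l = 1) → ∃ C' : ℝ, 1 ≤ C' ∧
    ∀ (y r r' r'' a M : ℕ), ∃ z₀ : ℕ, ∀ (J a₀ w₀ z i j : ℕ) (D : NDat2) (q : D.Ω → ℝ) (κ : ℝ),
      z₀ ≤ z → Plc n gt gam y r r' r'' a M i j → D.Ok2 n K J a₀ w₀ z M lam gt κ C₁ q →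
      ∀ (P : D.Γ × D.Γ → ℕ → PN) (E : D.Ω → Prop),
      (∀ ω, E ω → 0 < q ω ∧ GoodS D n K' w₀ z M C ω ∧ FrP D n K' z i j r C (P (bb D i j r ω)) ω) →
      ∃ S : D.Ω → ℕ → ℕ → ℝ, (∀ ω u k, |S ω u k| ≤ exp (C' * z)) ∧
      (∀ ω u k, u ≤ k → S ω u k = 0) ∧
      (∀ ω, E ω → ∀ Bx : ℝ, 1 ≤ Bx → ∀ b : ℕ → ℝ, b 0 = D.X ω 0 →
        (∀ k, sl gam n k → |nat (D.g i j) (P (bb D i j r ω)) b k| ≤ exp (Bx * z)) →
        (∀ u, gr gam n u → b u = eval b (D.Ψ (i - r') (j + r) ω u)) →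
        ∀ u, gr gam n u → |nat (D.g i j) (P (bb D i j r ω)) b u - (nn D n i j r gam P S ω u +
          ∑ k ∈ (range n).filter (sl gam n),
            S ω u k * nat (D.g i j) (P (bb D i j r ω)) b k)| ≤
              exp (C' * Bx * z) / 2 ^ (y * z)) ∧
      ∀ ω ω', E ω → E ω' → bb D i j r ω = bb D i j r ω' → D.T ω = D.T ω' →
        (D.s (i - r') (j + r) ω = D.s (i - r') (j + r) ω' → ∀ u, gr gam n u →
          |nn D n i j r gam P S ω u - nn D n i j r gam P S ω' u| ≤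
            exp (C' * z) / 2 ^ (y * z) ∧
          ∀ k, sl gam n k → |S ω u k - S ω' u k| ≤ exp (C' * z) / 2 ^ (y * z)) ∧
        (D.s (i - r'') (j + r) ω = D.s (i - r'') (j + r) ω' → ∀ u, gr gam n u →
          ∀ k, sl gam n k → |S ω u k - S ω' u k| ≤ exp (C' * z) / 2 ^ (y * z))

/-- **(ABL)** The own sheets of the coordinates above, deterministic. -/
def AblStmt : Prop :=
  ∀ (n K K' : ℕ) (lam gt gam : ℕ → ℝ) (C₁ C : ℝ), 1 ≤ n → 1 ≤ C₁ → 0 ≤ C →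
    (∀ l, 1 ≤ l → l ≤ n → lam l = 1) → gam n < 1 + thd gam n →
    ∃ C' : ℝ, 1 ≤ C' ∧
    ∀ (y r r' r'' a M : ℕ), ∃ z₀ : ℕ, ∀ (J a₀ w₀ z i j : ℕ) (D : NDat2) (q : D.Ω → ℝ) (κ : ℝ),
      z₀ ≤ z → Plc n gt gam y r r' r'' a M i j → D.Ok2 n K J a₀ w₀ z M lam gt κ C₁ q →
      ∀ (P : D.Γ × D.Γ → ℕ → PN) (E : D.Ω → Prop),
      (∀ ω, E ω → 0 < q ω ∧ GoodS D n K' w₀ z M C ω ∧ FrP D n K' z i j r C (P (bb D i j r ω)) ω) →
      ∀ ω ω', E ω → E ω' → bb D i j r ω = bb D i j r ω' → D.T ω = D.T ω' →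
        D.s (i - (r + r')) (j + r) ω = D.s (i - (r + r')) (j + r) ω' → ∀ δ : ℝ, 0 ≤ δ →
        (∀ k, 1 ≤ k → k < n → ¬ ab gam n k → |ze D i j r P ω k - ze D i j r P ω' k| ≤ δ) →
        ∀ u, ab gam n u → |ze D i j r P ω u - ze D i j r P ω' u| ≤
          exp (C' * z) * (δ + exp (C' * z) / 2 ^ (y * z))

/-- **(DEP)** Deeper contexts, deterministic. -/
def DepStmt : Prop :=
  ∀ (n K K' : ℕ) (lam gt gam : ℕ → ℝ) (C₁ C : ℝ), 1 ≤ n → 1 ≤ C₁ → 0 ≤ C →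
    (∀ l, 1 ≤ l → l ≤ n → lam l = 1) → ∃ C' : ℝ, 1 ≤ C' ∧
    ∀ (y r r' r'' a M : ℕ), ∃ z₀ : ℕ, ∀ (J a₀ w₀ z i j : ℕ) (D : NDat2) (q : D.Ω → ℝ) (κ : ℝ),
      z₀ ≤ z → Plc n gt gam y r r' r'' a M i j → D.Ok2 n K J a₀ w₀ z M lam gt κ C₁ q →
      ∀ (P : D.Γ × D.Γ → ℕ → PN) (E : D.Ω → Prop),
      (∀ ω, E ω → 0 < q ω ∧ GoodS D n K' w₀ z M C ω ∧ FrP D n K' z i j r C (P (bb D i j r ω)) ω) →
      Dep D n J w₀ z M i j r C' q E P

/-- **(GEO)** The geometry over affine frames, deterministic, over a given event. -/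
def GeoStmt : Prop :=
  ∀ (n K K' : ℕ) (lam gt gam : ℕ → ℝ) (C₁ C₀ : ℝ), 1 ≤ n → 1 ≤ K' → 1 ≤ C₁ → 0 ≤ C₀ →
    (∀ l, 1 ≤ l → l ≤ n → lam l = 1) → gam n < 1 + thd gam n → ∃ C : ℝ, 1 ≤ C ∧
    ∀ (y r r' r'' a M : ℕ), ∃ z₀ : ℕ,
    ∀ (J a₀ w₀ z i j : ℕ) (D : NDat2) (q : D.Ω → ℝ) (κ : ℝ) (E : D.Ω → Prop), z₀ ≤ z →
      Plc n gt gam y r r' r'' a M i j → D.Ok2 n K J a₀ w₀ z M lam gt κ C₁ q → D.Strt →
      (∀ ω, E ω → 0 < q ω ∧ GoodS D n K' w₀ z M C₀ ω ∧ FraC D n 1 M z C₀ ω) →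
      ∃ (P : D.Γ × D.Γ → ℕ → PN) (S : D.Ω → ℕ → ℕ → ℝ),
        (∀ ω, E ω → 0 < q ω ∧ GoodS D n K' w₀ z M C ω ∧
          FrP D n K' z i j r C (P (bb D i j r ω)) ω) ∧
        (∀ ω, E ω → FraC D n 1 M z C ω) ∧ (∀ x l, (P x l).totalDegree ≤ 1) ∧
        Geo D n K' J w₀ z i j r r' r'' gam C (exp (C * z) / 2 ^ (y * z)) q E P S ∧
        Dep D n J w₀ z M i j r C q E P

/-! ### Entropies: everything which is used, and the errors -/

/-- The hypotheses of the entropic pieces. -/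
structure Hyp (D : NDat2) (n K K' J a₀ w₀ z M w i j r r' r'' y X : ℕ) (lam gt gam : ℕ → ℝ)
    (κ C₁ C : ℝ) (q : D.Ω → ℝ) (E : D.Ω → Prop) (P : D.Γ × D.Γ → ℕ → PN)
    (S : D.Ω → ℕ → ℕ → ℝ) {c k : ℕ} (ys : Fin k → ℕ) (gs : Fin c → ℕ) : Prop where
  ok : D.Ok2 n K J a₀ w₀ z M lam gt κ C₁ q
  dma : D.DMA z M κ q
  llc : LLC D n z M C q
  tmu : D.TmU J w₀ z κ q
  n1 : 1 ≤ n
  C1 : 1 ≤ C₁
  Cg : 1 ≤ C
  κ0 : 0 ≤ κ
  z1 : 1 ≤ z
  lam1 : ∀ l, 1 ≤ l → l ≤ n → lam l = 1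
  gam0 : ∀ l, 0 ≤ gam l
  gamn : gam n < 1 + thd gam n
  i0 : 1 ≤ i
  i1 : r'' ≤ i
  i2 : i + r'' < M
  j1 : r ≤ j
  j2 : j + r < M
  r1 : r' ≤ r''
  r2 : r + r' ≤ r''
  w1 : w₀ + j * z ≤ w
  w2 : w ≤ w₀ + (j + 1) * z
  pE : 1 / 2 ≤ Pb q E
  geo : Geo D n K' J w₀ z i j r r' r'' gam C (exp (C * z) / 2 ^ (y * z)) q E P S
  gd : ∀ ω, E ω → 0 < q ω ∧ GoodS D n K' w₀ z M C ω ∧ FrP D n K' z i j r C (P (bb D i j r ω)) ω
  dep : Dep D n J w₀ z M i j r C q E P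
  strt : D.Strt
  aff : ∀ ω, E ω → FraC D n 1 M z C ω
  deg1 : ∀ x l, (P x l).totalDegree ≤ 1
  yX : exp (C * z) * 2 ^ X ≤ 2 ^ (y * z)
  Xz : ∃ x, X = x * z ∧ i + x + r'' < M
  Xr : ∀ x, X = x * z → j + x * r < M
  ys_sl : ∀ a, sl gam n (ys a)
  ys_in : Function.Injective ys
  ys_on : ∀ l, sl gam n l → ∃ a, ys a = l
  gs_gp : ∀ u, gp gam n (gs u)
  gs_in : StrictMono gs
  gs_on : ∀ l, gp gam n l → ∃ u, gs u = l

/-- The common form of the entropic pieces: the constant `A` depends on `n, K, K', C₁, C, c, k`. -/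
def EntOf (F : ∀ (D : NDat2) (n J a₀ w₀ z M w i j r X : ℕ) (gam : ℕ → ℝ) (q : D.Ω → ℝ) (C : ℝ)
    (P : D.Γ × D.Γ → ℕ → PN) (S : D.Ω → ℕ → ℕ → ℝ) (c k : ℕ) (ys : Fin k → ℕ) (gs : Fin c → ℕ)
    (d : ℝ), Prop) : Prop :=
  ∀ (n K K' c k : ℕ) (C₁ C : ℝ), ∃ A : ℝ, 0 ≤ A ∧
    ∀ (D : NDat2) (J a₀ w₀ z M w i j r r' r'' y X : ℕ) (lam gt gam : ℕ → ℝ) (κ : ℝ) (q : D.Ω → ℝ)
      (E : D.Ω → Prop) (P : D.Γ × D.Γ → ℕ → PN) (S : D.Ω → ℕ → ℕ → ℝ) (ys : Fin k → ℕ)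
      (gs : Fin c → ℕ),
      Hyp D n K K' J a₀ w₀ z M w i j r r' r'' y X lam gt gam κ C₁ C q E P S ys gs →
      F D n J a₀ w₀ z M w i j r X gam q C P S c k ys gs
        (err A κ z X (Pb q (fun ω => ¬ E ω)))

/-- **(H0)** The abstract time is almost independent of the line. -/
def H0Stmt : Prop := EntOf fun D _ J _ _ z _ w i j r X _ q C P S c k ys gs d =>
  CH q (qh (c := c) (k := k) D J w z i j r X C P S ys gs q).th
      (qh (c := c) (k := k) D J w z i j r X C P S ys gs q).b ≤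
    CH q (qh (c := c) (k := k) D J w z i j r X C P S ys gs q).th
      (qh (c := c) (k := k) D J w z i j r X C P S ys gs q).line + d

/-- **(H2)** The height over the own sheet is almost independent of the data of the line. -/
def H2Stmt : Prop := EntOf fun D _ J _ _ z _ w i j r X _ q C P S c k ys gs d =>
  let H := qh (c := c) (k := k) D J w z i j r X C P S ys gs q
  CH q H.hgt (fun ω => (H.th ω, H.b ω)) ≤
    CH q H.hgt (fun ω => (H.v ω, (H.th ω, H.b ω))) + d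

/-- **(YF)** The slow coordinates are full. -/
def YFStmt : Prop := EntOf fun D _ J _ _ z _ w i j r X _ q C P _ _ k ys _ d =>
  k * X * Real.log 2 ≤ CH q (yv (k := k) D J w z i j r X C P ys) (cb D J w i j r) + d

/-- **(TF)** The time is full. -/
def TFStmt : Prop := EntOf fun D _ J _ _ _ _ w i j r X _ q _ _ _ _ _ _ _ d =>
  X * Real.log 2 ≤ CH q (fun ω => tq J w X (D.T ω)) (cb D J w i j r) + d

/-- **(NF)** The target is not full, given everything. -/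
def NFStmt : Prop :=
  ∀ (n K K' c k B : ℕ) (C₁ C : ℝ), 1 ≤ B → ∃ A : ℝ, 0 ≤ A ∧
    ∀ (D : NDat2) (J a₀ w₀ z M w i j r r' r'' y U : ℕ) (lam gt gam : ℕ → ℝ) (κ h ϖ : ℝ)
      (q : D.Ω → ℝ) (E : D.Ω → Prop) (P : D.Γ × D.Γ → ℕ → PN) (S : D.Ω → ℕ → ℕ → ℝ)
      (ys : Fin k → ℕ) (gs : Fin c → ℕ) (n₀ : Fin c),
      Hyp D n K K' J a₀ w₀ z M w i j r r' r'' y (B * U * z) lam gt gam κ C₁ C q E P S ys gs →
      D.NF n z M B gt h C₁ ϖ q → 0 < h → h ≤ 1 → ϖ ≤ 1 → gs n₀ = n → i + U ≤ M →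
      (U : ℝ) ≤ gt n * (M - j) →
      CH q (fun ω => nuv D J w z i j r (B * U * z) C P gs ω n₀)
        (fun ω => ((fun u : {u : Fin c // u ≠ n₀} => nuv D J w z i j r (B * U * z) C P gs ω u),
          (vv D J w z i j r (B * U * z) C P ys gs ω,
            (tv D J w z i j r (B * U * z) C S ys gs ω, cb D J w i j r ω)))) ≤
        (1 - h / B) * (B * U * z : ℕ) * Real.log 2 +
          err A κ z (B * U * z) (Pb q (fun ω => ¬ E ω))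

/-- **(HS)** The group without the target is full below every depth, given everything. -/
def HsStmt : Prop := EntOf fun D n J _ _ z _ w i j r X _ q C P S c k ys gs d =>
  ∀ n₀ : Fin c, gs n₀ = n → ∀ x ≤ X,
    ((c : ℝ) - 1) * (((X : ℝ) - x) * Real.log 2) - d ≤
      CH q (fun ω (u : {u : Fin c // u ≠ n₀}) => nuv D J w z i j r X C P gs ω u)
        (fun ω => ((fun u => nuv D J w z i j r X C P gs ω u / 2 ^ (X - x)),
          (vv D J w z i j r X C P ys gs ω, (tv D J w z i j r X C S ys gs ω, cb D J w i j r ω))))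

end Pool.P4J
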