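import Pool.Agent.H35.P4J.Stm
import Pool.Agent.H38.P4.Mk

/-!
# P4I: the own sheets of the coordinates above

`levelsG`, `mk_celG`: the close systems of a place (helper38's `levels`, `mk_cel`) for any set `Sl`
of slow coordinates and the first `m₀` coordinates. `abl_stmt`: **(ABL)**, for `Sl` = the
coordinates which are not above, in the step `r + r'`.
-/

set_option autoImplicit false

namespace Pool.P4J

open Finset Real MvPolynomial
open Pool.Agent.H49.Ent Pool.Agent.H32.Dense Pool.STK Pool.STAT Pool.MIC.Frm Pool.MIC7 Pool.FRM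
open Pool.GSD Pool.P4O
open Pool.P4 (t0 rt pp PthC FraC thd sl gr bb ze zt z0 be nn GoodS FrP)

/-- The numbers of a place for a set of slow coordinates. -/
structure StG (M : ℕ) (gam : ℕ → ℝ) (y r r' r'' i j m₀ : ℕ) (Sl : ℕ → Prop) : Prop where
  s1 : ∀ l, 1 ≤ l → l ≤ m₀ → Sl l → gam l * r + y ≤ r'
  s2 : ∀ l, 1 ≤ l → l ≤ m₀ → ¬ Sl l → (r' : ℝ) + y ≤ gam l * r
  s5 : r' ≤ r''
  yi : y ≤ i
  i1 : r'' ≤ i
  i2 : i + r'' < M
  j1 : r ≤ j
  j2 : j + r < M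

/-- The levels of a place. -/
theorem levelsG {D : NDat2} {n K J a₀ w₀ z M : ℕ} {lam gam : ℕ → ℝ} {κ C₁ : ℝ} {q : D.Ω → ℝ}
    {y r r' r'' i j c m₀ : ℕ} {Sl : ℕ → Prop} (hC₁ : 1 ≤ C₁) (hc : 4 * C₁ ≤ c)
    (hlam : ∀ l, 1 ≤ l → l ≤ n → lam l = 1) (hpl : StG M gam y r r' r'' i j m₀ Sl)
    (hm₀ : m₀ ≤ n) (hO : D.Ok2 n K J a₀ w₀ z M lam gam κ C₁ q) :
    Lv m₀ (D.g i j) (D.g 0 j) (2 ^ (i * z)) (exp z ^ c) ∧
    (∀ l, 1 ≤ l → l ≤ m₀ → Sl l →
      (2 : ℝ) ^ D.g (i - r') (j + r) l ≤ exp z ^ c * 2 ^ D.g i j l) ∧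
    (∀ l, 1 ≤ l → l ≤ m₀ → ¬ Sl l →
      (2 : ℝ) ^ (y * z) * 2 ^ D.g i j l ≤ exp z ^ c * 2 ^ D.g (i - r') (j + r) l) ∧
    ∀ u m, 1 ≤ u → u ≤ m₀ → ¬ Sl u → 1 ≤ m → m ≤ m₀ → Sl m →
      (2 : ℝ) ^ D.g i j u / 2 ^ D.g (i - r'') (j + r) u *
        (2 ^ D.g (i - r'') (j + r) m / 2 ^ D.g i j m) ≤ exp z ^ c / 2 ^ (y * z) := by
  have z0 : (0 : ℝ) ≤ z := Nat.cast_nonneg z
  have i1 := hpl.i1
  have i2 := hpl.i2
  have j1 := hpl.j1
  have j2 := hpl.j2
  have s5 := hpl.s5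
  have hg : ∀ i' ≤ M, ∀ j' ≤ M, ∀ l, 1 ≤ l → l ≤ n →
      |(D.g i' j' l : ℝ) - D.g 0 0 l - ((i' : ℝ) + gam l * j') * z| ≤ C₁ * z := by
    intro i' hi' j' hj' l hl1 hln
    have := hO.hom i' hi' j' hj' l hl1 hln
    rw [hlam l hl1 hln, one_mul] at this
    exact this
  have ce : ∀ x : ℝ, x ≤ 4 * C₁ * z → exp x ≤ exp z ^ c := fun x hx =>
    (Real.exp_le_exp.2 hx).trans (exp_pow z hc)
  have hb : 2 * C₁ * z ≤ 4 * C₁ * z := by nlinarith
  refine ⟨fun m hm1 hmn => ⟨?_, ?_⟩, fun l hl1 hln hs => ?_, fun l hl1 hln hs => ?_,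
    fun u m hu1 hun hSu hm1 hmn hSm => ?_⟩
  · have e1 := hg i (by omega) j (by omega) m hm1 (hmn.trans hm₀)
    have e2 := hg 0 (by omega) j (by omega) m hm1 (hmn.trans hm₀)
    rw [abs_le] at e1 e2
    push_cast at e2
    have e3 := lev_le (p := D.g i j m) (q := D.g 0 j m + i * z) (s := 2 * C₁ * z)
      (by push_cast; nlinarith [e1.2, e2.1]) (by positivity)
    refine e3.trans ?_
    rw [pow_add]
    calc exp (2 * C₁ * z) * (2 ^ D.g 0 j m * 2 ^ (i * z))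
        ≤ exp z ^ c * (2 ^ D.g 0 j m * 2 ^ (i * z)) :=
          mul_le_mul_of_nonneg_right (ce _ hb) (by positivity)
      _ = _ := by ring
  · have e1 := hg i (by omega) j (by omega) m hm1 (hmn.trans hm₀)
    have e2 := hg 0 (by omega) j (by omega) m hm1 (hmn.trans hm₀)
    rw [abs_le] at e1 e2
    push_cast at e2
    have e3 := lev_le (p := i * z + D.g 0 j m) (q := D.g i j m) (s := 2 * C₁ * z)
      (by push_cast; nlinarith [e1.1, e2.2]) (by positivity)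
    rw [pow_add] at e3
    exact e3.trans (mul_le_mul_of_nonneg_right (ce _ hb) (by positivity))
  · have e1 := hg i (by omega) j (by omega) l hl1 (hln.trans hm₀)
    have e2 := hg (i - r') (by omega) (j + r) (by omega) l hl1 (hln.trans hm₀)
    rw [abs_le] at e1 e2
    have h1 := hpl.s1 l hl1 hln hs
    have c1 : ((i - r' : ℕ) : ℝ) = (i : ℝ) - r' := by
      rw [Nat.cast_sub (by omega)]
    have c2 : ((j + r : ℕ) : ℝ) = (j : ℝ) + r := by push_cast; ring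
    rw [c1, c2] at e2
    have y0 : (0 : ℝ) ≤ y := Nat.cast_nonneg y
    have e4 : (gam l * r - r') * z ≤ 0 := mul_nonpos_of_nonpos_of_nonneg (by linarith) z0
    have e3 := lev_le (p := D.g (i - r') (j + r) l) (q := D.g i j l) (s := 2 * C₁ * z)
      (by nlinarith [e1.1, e2.2]) (by positivity)
    exact e3.trans (mul_le_mul_of_nonneg_right (ce _ hb) (by positivity))
  · have e1 := hg i (by omega) j (by omega) l hl1 (hln.trans hm₀)
    have e2 := hg (i - r') (by omega) (j + r) (by omega) l hl1 (hln.trans hm₀)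
    rw [abs_le] at e1 e2
    have h1 := hpl.s2 l hl1 hln hs
    have c1 : ((i - r' : ℕ) : ℝ) = (i : ℝ) - r' := by
      rw [Nat.cast_sub (by omega)]
    have c2 : ((j + r : ℕ) : ℝ) = (j : ℝ) + r := by push_cast; ring
    rw [c1, c2] at e2
    have e4 : (r' + y) * (z : ℝ) ≤ (gam l * r) * z := mul_le_mul_of_nonneg_right h1 z0
    have e3 := lev_le (p := y * z + D.g i j l) (q := D.g (i - r') (j + r) l) (s := 2 * C₁ * z)
      (by push_cast; nlinarith [e1.2, e2.1]) (by positivity)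
    rw [pow_add] at e3
    exact e3.trans (mul_le_mul_of_nonneg_right (ce _ hb) (by positivity))
  · have e1 := hg i (by omega) j (by omega) u hu1 (hun.trans hm₀)
    have e2 := hg (i - r'') (by omega) (j + r) (by omega) u hu1 (hun.trans hm₀)
    have e3 := hg i (by omega) j (by omega) m hm1 (hmn.trans hm₀)
    have e4 := hg (i - r'') (by omega) (j + r) (by omega) m hm1 (hmn.trans hm₀)
    rw [abs_le] at e1 e2 e3 e4
    have h1 := hpl.s2 u hu1 hun hSu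
    have h2 := hpl.s1 m hm1 hmn hSm
    have c1 : ((i - r'' : ℕ) : ℝ) = (i : ℝ) - r'' := by
      rw [Nat.cast_sub (by omega)]
    have c2 : ((j + r : ℕ) : ℝ) = (j : ℝ) + r := by push_cast; ring
    rw [c1, c2] at e2 e4
    have f1 : (r' + y) * (z : ℝ) ≤ (gam u * r) * z := mul_le_mul_of_nonneg_right h1 z0
    have f2 : (gam m * r + y) * (z : ℝ) ≤ r' * z := mul_le_mul_of_nonneg_right h2 z0
    have f3 : (0 : ℝ) ≤ y * z := by positivity
    have e5 := lev_le (p := y * z + D.g i j u + D.g (i - r'') (j + r) m)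
      (q := D.g (i - r'') (j + r) u + D.g i j m) (s := 4 * C₁ * z)
      (by push_cast; nlinarith [e1.2, e2.1, e3.1, e4.2]) (by positivity)
    rw [pow_add, pow_add, pow_add] at e5
    rw [le_div_iff₀ (by positivity), div_mul_div_comm, div_mul_eq_mul_div,
      div_le_iff₀ (by positivity)]
    calc (2 : ℝ) ^ D.g i j u * 2 ^ D.g (i - r'') (j + r) m * 2 ^ (y * z)
        = 2 ^ (y * z) * 2 ^ D.g i j u * 2 ^ D.g (i - r'') (j + r) m := by ring
      _ ≤ exp (4 * C₁ * z) * (2 ^ D.g (i - r'') (j + r) u * 2 ^ D.g i j m) := e5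
      _ ≤ exp z ^ c * (2 ^ D.g (i - r'') (j + r) u * 2 ^ D.g i j m) :=
          mul_le_mul_of_nonneg_right (ce _ le_rfl) (by positivity)

/-- **The close systems of a place.** -/
theorem mk_celG (n K K' : ℕ) (C₁ C : ℝ) (hC₁ : 1 ≤ C₁) (hC : 0 ≤ C) : ∃ (a : ℕ) (c₀ : ℝ), 1 ≤ a ∧
    ∀ (lam gam : ℕ → ℝ) (y r r' r'' M J a₀ w₀ z i j m₀ : ℕ) (Sl : ℕ → Prop) (D : NDat2)
      (q : D.Ω → ℝ) (κ : ℝ)
      (P V : ℕ → PN) (ω : D.Ω), (∀ l, 1 ≤ l → l ≤ n → lam l = 1) → c₀ ≤ exp z →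
      StG M gam y r r' r'' i j m₀ Sl → m₀ ≤ n → (∀ l, Sl l → 1 ≤ l ∧ l < m₀) →
      D.Ok2 n K J a₀ w₀ z M lam gam κ C₁ q → 0 < q ω →
      (TriN V ∧ (∀ l, (V l).totalDegree ≤ K') ∧ (∀ l ≤ n, eval (D.X ω) (V l) = D.X ω l) ∧
        ∀ i < M, ∀ j < M, ∀ l ≤ n, nrm (D.g i j) (1 / 2) (chr V (fr D (i, j) ω l - V l)) ≤
          exp (C * z) / 2 ^ D.g i j l) →
      FrP D n K' z i j r C P ω →
      Cel m₀ (max K K') a (exp z) (D.X ω 0) (2 ^ (i * z)) (2 ^ (y * z)) (D.g i j) (D.g 0 j)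
        (D.g (i - r') (j + r)) (D.g (i - r'') (j + r)) Sl (fz (D.X ω 0) P)
        (fz (D.X ω 0) V) (fr D (i - r', j + r) ω) (fr D (i - r'', j + r) ω) (D.X ω) := by
  obtain ⟨KK, hKK⟩ : ∃ KK : ℕ, KK = max K K' := ⟨_, rfl⟩
  have hK1 : K ≤ KK := by rw [hKK]; exact le_max_left _ _
  have hK2 : K' ≤ KK := by rw [hKK]; exact le_max_right _ _
  obtain ⟨c, hc⟩ := exists_nat_ge C
  obtain ⟨c4, hc4⟩ := exists_nat_ge (4 * C₁)
  obtain ⟨aP, cP, h1⟩ := cls_P n KK c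
  obtain ⟨aV, h2⟩ := cls_V n KK c
  obtain ⟨aS, cS, h3⟩ := cls_sym n KK aP
  obtain ⟨aT, cT, h4⟩ := cls_trans n KK aS
  obtain ⟨aW, cW, h5⟩ := cls_sym n KK aV
  obtain ⟨aN, cN, h6⟩ := cls_nbr n KK (aT + aW)
  refine ⟨aN + aV + c4 + aS + 1, max (max (max cP cS) (max cT cW)) (max cN 2), by omega, ?_⟩
  intro lam gam y r r' r'' M J a₀ w₀ z i j m₀ Sl D q κ P V ω hlam hc₀ hpl hm₀ hSl hO hω hV hP
  rw [← hKK]
  obtain ⟨hcA, hcB⟩ := max_le_iff.1 hc₀
  obtain ⟨hcA1, hcA2⟩ := max_le_iff.1 hcA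
  obtain ⟨hcP, hcS⟩ := max_le_iff.1 hcA1
  obtain ⟨hcT, hcW⟩ := max_le_iff.1 hcA2
  obtain ⟨hcN, hc2⟩ := max_le_iff.1 hcB
  have hE : 1 ≤ exp (z : ℝ) := Real.one_le_exp (Nat.cast_nonneg z)
  have i1 := hpl.i1
  have i2 := hpl.i2
  have j1 := hpl.j1
  have j2 := hpl.j2
  have s5 := hpl.s5
  have yi := hpl.yi
  obtain ⟨tV, dV, xV, nV⟩ := hV
  obtain ⟨tP, dP, nP⟩ := hP
  obtain ⟨t, ht⟩ : ∃ t : ℝ, t = D.X ω 0 := ⟨_, rfl⟩
  have syP : Sy KK (D.X ω 0) (fz (D.X ω 0) P) := sy_fz tP (fun l => (dP l).trans hK2) _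
  have syV : Sy KK (D.X ω 0) (fz (D.X ω 0) V) := sy_fz tV (fun l => (dV l).trans hK2) _
  have syR : ∀ i' j', Sy KK (D.X ω 0) (fr D (i', j') ω) := fun i' j' =>
    sy_fz (hO.G_tri i' j' _) (fun l => (hO.G_deg i' j' _ l).trans hK1) _
  have syF : ∀ i' j', Sy KK (D.X ω 0) (fz (D.X ω 0) (D.Φ i' j' ω)) := fun i' j' =>
    sy_fz (hO.P_tri i' j' _) (fun l => (hO.P_deg i' j' _ l).trans hK1) _
  have m : ∀ {b : ℕ}, b ≤ aN + aV + c4 + aS + 1 → exp (z : ℝ) ^ b ≤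
      exp z ^ (aN + aV + c4 + aS + 1) := fun h => pw hE h
  -- the own frame
  have hVR : ∀ i' < M, ∀ j' < M,
      Cls n (D.g i' j') (exp z ^ aV) (fz (D.X ω 0) V) (fr D (i', j') ω) :=
    h2 D M z C ω V hc (fun i j x l => (hO.G_deg i j x l).trans hK1) hO.G_tri tV
      (fun l => (dV l).trans hK2) xV nV
  -- the closed frame
  have hPF : ∀ i' ≤ i, Cls n (D.g i' j) (exp z ^ aP) (fz (D.X ω 0) P)
      (fz (D.X ω 0) (D.Φ i' j ω)) := fun i' hi' =>
    h1 D K J a₀ w₀ z M lam gam κ C₁ C q ω P i' j hK1 hcP hc hC hO hω (by omega) (by omega)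
      tP (fun l => (dP l).trans hK2) (fun l hl => (nP i' hi' l hl).1)
  have hFP : ∀ i' ≤ i, Cls n (D.g i' j) (exp z ^ aS) (fz (D.X ω 0) (D.Φ i' j ω))
      (fz (D.X ω 0) P) := fun i' hi' =>
    h3 _ _ _ _ _ hE hcS syP (syF i' j) (hPF i' hi')
  have hRP : ∀ i' ≤ i, Cls n (D.g i' j) (exp z ^ aT) (fr D (i', j) ω) (fz (D.X ω 0) P) :=
    fun i' hi' => h4 _ _ _ _ _ _ hE hcT (syR i' j) (syF i' j) syP
      ((cls_fr hO (by omega) (by omega) hω).mono (pw1 hE aS)) (hFP i' hi')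
  have hRV : ∀ i' ≤ i, Cls n (D.g i' j) (exp z ^ aW) (fr D (i', j) ω) (fz (D.X ω 0) V) :=
    fun i' hi' => h5 _ _ _ _ _ hE hcW syV (syR i' j) (hVR i' (by omega) j (by omega))
  have hPV : ∀ i' ≤ i, Cls n (D.g i' j) (exp z ^ aN) (fz (D.X ω 0) P) (fz (D.X ω 0) V) :=
    fun i' hi' => h6 _ _ _ _ _ _ hE hcN (syR i' j) syP syV
      ((hRP i' hi').mono (pw hE (by omega))) ((hRV i' hi').mono (pw hE (by omega)))
  -- levels
  obtain ⟨l1, l2, l3, l4⟩ := levelsG (c := c4) hC₁ hc4 hlam hpl hm₀ hO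
  have cn : ∀ {g : ℕ → ℕ} {W : ℝ} {A B : ℕ → PN}, Cls n g W A B → Cls m₀ g W A B :=
    fun h l h1 h2 => h l h1 (h2.trans hm₀)
  refine ⟨syP, syV, syR _ _, syR _ _, cn ((hPV i le_rfl).mono (m (by omega))),
    cn ((hPV 0 (Nat.zero_le _)).mono (m (by omega))), cn ((hVR _ (by omega) _ (by omega)).mono
    (m (by omega))), cn ((hVR _ (by omega) _ (by omega)).mono (m (by omega))),
    l1.mono (by positivity) (m (by omega)), one_le_pow₀ (by norm_num),
    pow_le_pow_right₀ (by norm_num) (Nat.mul_le_mul_right _ (by omega)),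
    fun l h7 h8 h9 => (l2 l h7 h8 h9).trans (mul_le_mul_of_nonneg_right (m (by omega))
      (by positivity)), fun l h7 h8 h9 => (l3 l h7 h8 h9).trans
      (mul_le_mul_of_nonneg_right (m (by omega)) (by positivity)),
    fun u k h7 h8 h9 h10 h11 h12 => (l4 u k h7 h8 h9 h10 h11 h12).trans
      (div_le_div_of_nonneg_right (m (by omega)) (by positivity)), rfl, fun l hl1 hln' => ?_,
    fun l hl1 hln' => ?_, hSl⟩
  · -- the own point over the closed frame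
    have hln : l ≤ n := hln'.trans hm₀
    have hbx : ∀ k < l, |nat (D.g i j) (fz (D.X ω 0) (D.Φ i j ω)) (D.X ω) k| ≤ 1 := by
      intro k hk
      rcases Nat.eq_zero_or_pos k with h7 | h7
      · rw [h7, nat_fz_zero, sub_self, mul_zero, abs_zero]
        exact zero_le_one
      · rw [nat_fz' _ _ rfl h7]
        have h8 := hO.hgt i (by omega) j (by omega) ω hω k (by omega)
        unfold NDat2.rh at h8
        unfold nat
        rw [abs_mul, abs_of_pos (by positivity)]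
        rwa [le_div_iff₀ (by positivity), mul_comm] at h8
    have e1 := hFP i le_rfl l hl1 hln (D.X ω) hbx
    have e2 := hO.hgt i (by omega) j (by omega) ω hω l hln
    unfold NDat2.rh at e2
    rw [← eval_fz' (D.Φ i j ω) rfl hl1] at e2
    have pg : (0 : ℝ) < 2 ^ D.g i j l := by positivity
    unfold nat
    rw [abs_mul, abs_of_pos pg]
    have e3 : D.X ω l - eval (D.X ω) (fz (D.X ω 0) P l) =
        (D.X ω l - eval (D.X ω) (fz (D.X ω 0) (D.Φ i j ω) l)) +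
        (eval (D.X ω) (fz (D.X ω 0) (D.Φ i j ω) l) - eval (D.X ω) (fz (D.X ω 0) P l)) := by ring
    have e4 := (abs_add_le _ _).trans (add_le_add e2 e1)
    rw [← e3, ← add_div, le_div_iff₀ pg] at e4
    have e5 : (1 : ℝ) ≤ exp z ^ aS := pw1 hE aS
    calc 2 ^ D.g i j l * |D.X ω l - eval (D.X ω) (fz (D.X ω 0) P l)|
        ≤ 1 + exp z ^ aS := by linarith
      _ ≤ exp z ^ aS * exp z := by nlinarith
      _ = exp z ^ (aS + 1) := (pow_succ _ _).symm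
      _ ≤ _ := m (by omega)
  · rw [eval_fz' V rfl hl1, xV l (hln'.trans hm₀)]


open Classical in
/-- **(ABL)** -/
theorem abl_stmt : AblStmt := by
  intro n K K' lam gt gam C₁ C hn hC₁ hC hlam hgn
  obtain ⟨a, c₀, ha, h0⟩ := mk_celG n K K' C₁ C hC₁ hC
  choose aC cC hCC using fun m => cel_c m (max K K') a
  choose aS cS hS using fun m => sS_le m (max K K') a
  obtain ⟨N, hN⟩ : ∃ N : ℕ, N = a + (∑ m ∈ range (n + 1), (aC m + aS m)) + 1 := ⟨_, rfl⟩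
  refine ⟨N, by rw [hN]; push_cast; have : (0 : ℝ) ≤ a + ∑ m ∈ range (n + 1),
    ((aC m : ℝ) + aS m) := by positivity
                linarith, ?_⟩
  intro y r r' r'' aa M
  obtain ⟨z₀, hz₀⟩ := exists_nat_ge (max (max c₀ (n + 1)) (∑ m ∈ range (n + 1), (|cC m| + |cS m|)))
  refine ⟨z₀, ?_⟩
  intro J a₀ w₀ z i j D q κ hz hpl hO P E hE ω ω' hω hω' hbb hT hs δ hδ hd u hu
  have hzE : (z : ℝ) + 1 ≤ exp z := Real.add_one_le_exp _
  have hzz : (z₀ : ℝ) ≤ z := by exact_mod_cast hz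
  have hcE : max (max c₀ ((n : ℝ) + 1)) (∑ m ∈ range (n + 1), (|cC m| + |cS m|)) ≤ exp (z : ℝ) := by
    linarith
  obtain ⟨hA1, hA2⟩ := max_le_iff.1 hcE
  obtain ⟨hc0, hcn⟩ := max_le_iff.1 hA1
  have z0 : (0 : ℝ) ≤ z := Nat.cast_nonneg z
  have hE1 : 1 ≤ exp (z : ℝ) := Real.one_le_exp z0
  have hu1 := hu.1
  have hun := hu.2.1
  have humem : u ∈ range (n + 1) := Finset.mem_range.2 (by omega)
  have hcu : |cC u| + |cS u| ≤ exp (z : ℝ) :=
    (Finset.single_le_sum (f := fun m => |cC m| + |cS m|) (fun m _ => by positivity) humem).trans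
      hA2
  have hcC : cC u ≤ exp (z : ℝ) := by
    have := le_abs_self (cC u)
    have := abs_nonneg (cS u)
    linarith
  have hcS : cS u ≤ exp (z : ℝ) := by
    have := le_abs_self (cS u)
    have := abs_nonneg (cC u)
    linarith
  have haN : a + (aC u + aS u) + 1 ≤ N := by
    rw [hN]
    have := Finset.single_le_sum (f := fun m => aC m + aS m) (fun m _ => Nat.zero_le _) humem
    omega
  -- the numbers
  obtain ⟨Sl, hSl⟩ : ∃ Sl : ℕ → Prop, Sl = fun l => 1 ≤ l ∧ l < u ∧ ¬ ab gam n l := ⟨_, rfl⟩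
  have hst := hpl.stp
  have hG : StG M gt y r (r + r') r'' i j u Sl := by
    refine ⟨fun l h1 h2 h3 => ?_, fun l h1 h2 h3 => ?_, hst.s7, hst.s6.trans hpl.a1, hpl.i1,
      hpl.i2, hpl.j1, hpl.j2⟩
    · rw [hSl] at h3
      exact hst.t1 h1 (by omega) hgn h3.2.2
    · have h4 : ab gam n l := by
        rcases h2.eq_or_lt with h5 | h5
        · rw [h5]
          exact hu
        · by_contra h6
          apply h3
          rw [hSl]
          exact ⟨h1, h5, h6⟩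
      exact hst.t2 l h4
  have hSl' : ∀ l, Sl l → 1 ≤ l ∧ l < u := by
    intro l hl
    rw [hSl] at hl
    exact ⟨hl.1, hl.2.1⟩
  have hSu : ¬ Sl u := fun h => absurd (hSl' u h).2 (lt_irrefl u)
  -- the own frames
  obtain ⟨V, hV⟩ := (hE ω hω).2.1.fv
  obtain ⟨V', hV'⟩ := (hE ω' hω').2.1.fv
  have ht : D.X ω' 0 = D.X ω 0 := by rw [hO.X_zero, hO.X_zero, hT]
  have hA : fr D (i - (r + r'), j + r) ω' = fr D (i - (r + r'), j + r) ω := by
    unfold fr NDat2.Ψ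
    rw [ht, hs]
  have c1 := h0 lam gt y r (r + r') r'' M J a₀ w₀ z i j u Sl D q κ (P (bb D i j r ω)) V ω hlam hc0
    hG hun.le hSl' hO (hE ω hω).1 hV (hE ω hω).2.2
  have c2 := h0 lam gt y r (r + r') r'' M J a₀ w₀ z i j u Sl D q κ (P (bb D i j r ω')) V' ω' hlam
    hc0 hG hun.le hSl' hO (hE ω' hω').1 hV' (hE ω' hω').2.2
  rw [hA, ← hbb, ht] at c2
  obtain ⟨e1, e2⟩ := hCC u _ _ _ _ _ _ _ _ _ _ _ _ _ _ _ _ _ hE1 hcC c1 c2 u hu1 le_rfl hSu
  have e3 := hS u _ _ _ _ _ _ _ _ _ _ _ _ _ _ hE1 hcS c2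
  -- the coordinates over the frame
  have hze : ∀ k, 1 ≤ k → ze D i j r P ω k = nat (D.g i j) (fz (D.X ω 0) (P (bb D i j r ω)))
      (D.X ω) k := fun k hk => by
    unfold ze
    rw [nat_fz' _ _ rfl hk]
  have hze' : ∀ k, 1 ≤ k → ze D i j r P ω' k = nat (D.g i j) (fz (D.X ω 0) (P (bb D i j r ω)))
      (D.X ω') k := fun k hk => by
    unfold ze
    rw [nat_fz' _ _ ht hk, ← hbb]
  obtain ⟨Q, hQ⟩ : ∃ Q : ℕ → PN, Q = fz (D.X ω 0) (P (bb D i j r ω)) := ⟨_, rfl⟩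
  rw [← hQ] at c1 c2 e1 e2 e3
  simp only [← hQ] at hze hze'
  rw [hze u hu1, hze' u hu1]
  have hd' : ∀ k ∈ (range u).filter Sl,
      |nat (D.g i j) Q (D.X ω) k - nat (D.g i j) Q (D.X ω') k| ≤ δ := by
    intro k hk
    have hk2 := (Finset.mem_filter.1 hk).2
    rw [hSl] at hk2
    rw [← hze k hk2.1, ← hze' k hk2.1]
    exact hd k hk2.1 (by omega) hk2.2.2
  unfold sN at e1
  obtain ⟨Y, hY⟩ : ∃ Y : ℝ, Y = 2 ^ (y * z) := ⟨_, rfl⟩
  have hY0 : 0 < Y := by rw [hY]; positivity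
  rw [← hY] at e1 e2 ⊢
  obtain ⟨W, hW⟩ : ∃ W : ℝ, W = exp z := ⟨_, rfl⟩
  rw [← hW] at c1 e1 e2 e3 hcn hE1
  have hcard : (((range u).filter Sl).card : ℝ) ≤ n := by
    have h1 := Finset.card_filter_le (range u) Sl
    rw [Finset.card_range] at h1
    exact_mod_cast h1.trans hun.le
  -- the sums
  have key : nat (D.g i j) Q (D.X ω) u - nat (D.g i j) Q (D.X ω') u =
      ((nat (D.g i j) Q (D.X ω) u - ∑ k ∈ (range u).filter Sl, sS u Sl (D.g i j) Q (fz (D.X ω 0) V)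
        u k * nat (D.g i j) Q (D.X ω) k) -
      (nat (D.g i j) Q (D.X ω') u - ∑ k ∈ (range u).filter Sl, sS u Sl (D.g i j) Q
        (fz (D.X ω 0) V') u k * nat (D.g i j) Q (D.X ω') k)) +
      (∑ k ∈ (range u).filter Sl, ((sS u Sl (D.g i j) Q (fz (D.X ω 0) V) u k -
        sS u Sl (D.g i j) Q (fz (D.X ω 0) V') u k) * nat (D.g i j) Q (D.X ω) k) +
      ∑ k ∈ (range u).filter Sl, (sS u Sl (D.g i j) Q (fz (D.X ω 0) V') u k *
        (nat (D.g i j) Q (D.X ω) k - nat (D.g i j) Q (D.X ω') k))) := by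
    rw [← Finset.sum_add_distrib]
    have : ∑ k ∈ (range u).filter Sl, ((sS u Sl (D.g i j) Q (fz (D.X ω 0) V) u k -
        sS u Sl (D.g i j) Q (fz (D.X ω 0) V') u k) * nat (D.g i j) Q (D.X ω) k +
        sS u Sl (D.g i j) Q (fz (D.X ω 0) V') u k *
        (nat (D.g i j) Q (D.X ω) k - nat (D.g i j) Q (D.X ω') k)) =
        ∑ k ∈ (range u).filter Sl, sS u Sl (D.g i j) Q (fz (D.X ω 0) V) u k *
          nat (D.g i j) Q (D.X ω) k - ∑ k ∈ (range u).filter Sl, sS u Sl (D.g i j) Q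
        (fz (D.X ω 0) V') u k * nat (D.g i j) Q (D.X ω') k := by
      rw [← Finset.sum_sub_distrib]
      exact Finset.sum_congr rfl fun k _ => by ring
    rw [this]
    ring
  have b1 : |∑ k ∈ (range u).filter Sl, ((sS u Sl (D.g i j) Q (fz (D.X ω 0) V) u k -
      sS u Sl (D.g i j) Q (fz (D.X ω 0) V') u k) * nat (D.g i j) Q (D.X ω) k)| ≤
      n * (W ^ aC u / Y * W ^ a) := by
    refine (Finset.abs_sum_le_sum_abs _ _).trans ?_
    refine (Finset.sum_le_card_nsmul _ _ (W ^ aC u / Y * W ^ a) fun k hk => ?_).trans ?_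
    · have hk2 := (Finset.mem_filter.1 hk).2
      rw [abs_mul]
      exact mul_le_mul (e2 k hk2) (c1.xP k (hSl' k hk2).1 (hSl' k hk2).2.le) (abs_nonneg _)
        (by positivity)
    · rw [nsmul_eq_mul]
      exact mul_le_mul_of_nonneg_right hcard (by positivity)
  have b2 : |∑ k ∈ (range u).filter Sl, (sS u Sl (D.g i j) Q (fz (D.X ω 0) V') u k *
      (nat (D.g i j) Q (D.X ω) k - nat (D.g i j) Q (D.X ω') k))| ≤ n * (W ^ aS u * δ) := by
    refine (Finset.abs_sum_le_sum_abs _ _).trans ?_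
    refine (Finset.sum_le_card_nsmul _ _ (W ^ aS u * δ) fun k hk => ?_).trans ?_
    · rw [abs_mul]
      exact mul_le_mul (e3 u k) (hd' k hk) (abs_nonneg _) (by positivity)
    · rw [nsmul_eq_mul]
      exact mul_le_mul_of_nonneg_right hcard (by positivity)
  rw [key]
  refine (abs_add_le _ _).trans ((add_le_add e1 ((abs_add_le _ _).trans (add_le_add b1 b2))).trans ?_)
  have hexp : exp ((N : ℝ) * z) = W ^ N := by rw [hW, ← Real.exp_nat_mul]
  rw [hexp]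
  have hWn : (n : ℝ) + 1 ≤ W := hcn
  have hW0 : 0 < W := by linarith
  have p1 : (n + 1) * W ^ (aC u + a) ≤ W ^ N := by
    calc (n + 1) * W ^ (aC u + a) ≤ W * W ^ (aC u + a) :=
          mul_le_mul_of_nonneg_right hWn (by positivity)
      _ = W ^ (aC u + a + 1) := by rw [pow_succ]; ring
      _ ≤ W ^ N := pow_le_pow_right₀ hE1 (by omega)
  have p2 : (n + 1) * W ^ aS u ≤ W ^ N := by
    calc (n + 1) * W ^ aS u ≤ W * W ^ aS u := mul_le_mul_of_nonneg_right hWn (by positivity)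
      _ = W ^ (aS u + 1) := by rw [pow_succ]; ring
      _ ≤ W ^ N := pow_le_pow_right₀ hE1 (by omega)
  have p3 : (1 : ℝ) ≤ W ^ N := one_le_pow₀ hE1
  have p4 : W ^ aC u ≤ W ^ (aC u + a) := pow_le_pow_right₀ hE1 (by omega)
  have q1 : W ^ aC u / Y + n * (W ^ aC u / Y * W ^ a) ≤ W ^ N / Y := by
    rw [div_mul_eq_mul_div, ← pow_add, mul_div_assoc', ← add_div]
    refine div_le_div_of_nonneg_right ?_ hY0.le
    nlinarith
  have q2 : n * (W ^ aS u * δ) ≤ W ^ N * δ := by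
    have : (n : ℝ) * W ^ aS u ≤ W ^ N := by
      have : (0 : ℝ) ≤ W ^ aS u := by positivity
      linarith
    nlinarith
  have q3 : W ^ N / Y ≤ W ^ N * (W ^ N / Y) :=
    le_mul_of_one_le_left (by positivity) p3
  have q4 : W ^ N * (δ + W ^ N / Y) = W ^ N * δ + W ^ N * (W ^ N / Y) := by ring
  rw [q4]
  linarith

end Pool.P4J
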