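import Pool.Agent.H35.P4J.Stm
import Pool.Agent.H69.P4.Geo

/-!
# P4J: the geometry of a cell over affine frames, from the pieces

`geo_of`: lines over an affine closed frame (`LinStmt`), own sheets (`OwnStmt`, `AblStmt`) and deeper
contexts (`DepStmt`) give the geometry (`GeoStmt`).
-/

set_option autoImplicit false

namespace Pool.P4J

open Finset Real MvPolynomial
open Pool.Agent.H49.Ent Pool.Agent.H32.Dense Pool.STK Pool.STAT Pool.MIC.Frm Pool.MIC7 Pool.FRM
open Pool.GSD
open Pool.BFL (Pb)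
open Pool.P4 (t0 rt pp PthC FraC thd sl gr bb ze zt z0 be nn Dep LLC GoodS FrP err PthStmt CfrStmt
  pb_cover ok2_mono tmu_mono det_c)

/-- **The geometry of a cell.** -/
theorem geo_of (h3 : LinStmt) (h4 : OwnStmt) (h5 : DepStmt) (h6 : AblStmt) : GeoStmt := by
  classical
  intro n K K' lam gt gam C₁ C hn hK' hC₁ hC0 hlam hgn
  obtain ⟨C', hC', hlin⟩ := h3 n K K' lam gt gam C₁ C hn hC₁ hC0 hlam hgn
  obtain ⟨C'', hC'', hown⟩ := h4 n K K' lam gt gam C₁ C hn hC₁ hC0 hlam
  obtain ⟨Cd, hCd, hdep⟩ := h5 n K K' lam gt gam C₁ C hn hC₁ hC0 hlam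
  obtain ⟨Ca, hCa, habl⟩ := h6 n K K' lam gt gam C₁ C hn hC₁ hC0 hlam hgn
  obtain ⟨Cg, hCg⟩ : ∃ Cg, Cg = max (max (max C Cd) (max C' C'')) Ca := ⟨_, rfl⟩
  have hg1 : C ≤ Cg := by
    rw [hCg]; exact (le_max_left _ _).trans ((le_max_left _ _).trans (le_max_left _ _))
  have hg2 : C' ≤ Cg := by
    rw [hCg]; exact (le_max_left _ _).trans ((le_max_right _ _).trans (le_max_left _ _))
  have hg3 : C'' ≤ Cg := by
    rw [hCg]; exact (le_max_right _ _).trans ((le_max_right _ _).trans (le_max_left _ _))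
  have hg4 : Cd ≤ Cg := by
    rw [hCg]; exact (le_max_right _ _).trans ((le_max_left _ _).trans (le_max_left _ _))
  have hg5 : Ca ≤ Cg := by rw [hCg]; exact le_max_right _ _
  refine ⟨Cg, hC'.trans hg2, ?_⟩
  intro y r r' r'' a M
  obtain ⟨z₄, hlin⟩ := hlin y r r' r'' a M
  obtain ⟨z₅, hown⟩ := hown y r r' r'' a M
  obtain ⟨z₆, hdep⟩ := hdep y r r' r'' a M
  obtain ⟨z₇, habl⟩ := habl y r r' r'' a M
  refine ⟨max z₇ (max z₄ (max z₅ z₆)), ?_⟩
  intro J a₀ w₀ z i j D q κ E hz hP hO hSt hEd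
  have hi : i ≤ M := by have := hP.i2; omega
  have hi' : i < M := by have := hP.i2; omega
  have hj : j < M := by have := hP.j2; omega
  -- the frames
  have hex : ∀ v : D.Γ × D.Γ, ∃ P : ℕ → PN, TriN P ∧ (∀ l, (P l).totalDegree ≤ 1) ∧
      ∀ ω, E ω → bb D i j r ω = v → FrP D n K' z i j r C P ω := by
    intro v
    by_cases hv : ∃ ω, E ω ∧ bb D i j r ω = v
    · obtain ⟨ω₀, hω₀, hb₀⟩ := hv
      obtain ⟨P, p1, p2, _, p4⟩ := (hEd ω₀ hω₀).2.2
      refine ⟨P, p1, p2, fun ω hω hb => ⟨p1, fun l => (p2 l).trans hK', fun i₁ hi₁ l hl => ?_⟩⟩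
      have hbb : bb D i j r ω = bb D i j r ω₀ := hb.trans hb₀.symm
      have e1 : D.c i j ω = D.c i j ω₀ := congrArg Prod.fst hbb
      have e2 : D.c (i - 1) (j - r) ω = D.c (i - 1) (j - r) ω₀ := congrArg Prod.snd hbb
      have e3 := det_c hO hi hj.le hi₁ ω ω₀ (hEd ω hω).1 (hEd ω₀ hω₀).1 e1
      have e4 := det_c hO (by omega : i - 1 ≤ M) (by omega : j - r ≤ M)
        (Nat.sub_le_sub_right hi₁ 1) ω ω₀ (hEd ω hω).1 (hEd ω₀ hω₀).1 e2
      have e5 : D.Φ i₁ j ω = D.Φ i₁ j ω₀ := by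
        unfold NDat2.Φ
        rw [e3]
      have e6 : D.Φ (i₁ - 1) (j - r) ω = D.Φ (i₁ - 1) (j - r) ω₀ := by
        unfold NDat2.Φ
        rw [e4]
      rw [e5, e6]
      exact ⟨p4 i₁ (by omega) j hj l hl, p4 (i₁ - 1) (by omega) (j - r) (by omega) l hl⟩
    · refine ⟨fun _ => 0, fun i => ?_, fun l => ?_, fun ω hω hb => absurd ⟨ω, hω, hb⟩ hv⟩
      · rw [vars_0]
        exact Finset.empty_subset _
      · rw [totalDegree_zero]
        exact Nat.zero_le _
  choose P hPt hPd hPf using hex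
  have hFr : ∀ ω, E ω → FrP D n K' z i j r C (P (bb D i j r ω)) ω := fun ω hω =>
    hPf _ ω hω rfl
  obtain ⟨S, hS, hS0, hsh, hpair⟩ := hown J a₀ w₀ z i j D q κ (by omega) hP hO P E
    (fun ω hω => ⟨(hEd ω hω).1, (hEd ω hω).2.1, hFr ω hω⟩)
  have hdep := hdep J a₀ w₀ z i j D q κ (by omega) hP hO P E
    (fun ω hω => ⟨(hEd ω hω).1, (hEd ω hω).2.1, hFr ω hω⟩)
  have habl := habl J a₀ w₀ z i j D q κ (by omega) hP hO P E
    (fun ω hω => ⟨(hEd ω hω).1, (hEd ω hω).2.1, hFr ω hω⟩)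
  have hlin : ∀ ω, E ω → _ := fun ω hω =>
    hlin J a₀ w₀ z i j D q κ (by omega) hP hO hSt (P (bb D i j r ω)) ω (hEd ω hω).1
      (hEd ω hω).2.1 (hEd ω hω).2.2 (hFr ω hω) (hPd _)
  -- constants
  have hz0 : (0 : ℝ) ≤ z := Nat.cast_nonneg z
  have x0 : exp (C * z) ≤ exp (Cg * z) := exp_le_exp.2 (mul_le_mul_of_nonneg_right hg1 hz0)
  have x1 : exp (C' * z) ≤ exp (Cg * z) := exp_le_exp.2 (mul_le_mul_of_nonneg_right hg2 hz0)
  have x2 : exp (C'' * z) ≤ exp (Cg * z) := exp_le_exp.2 (mul_le_mul_of_nonneg_right hg3 hz0)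
  have y1 : exp (C' * z) / 2 ^ (y * z) ≤ exp (Cg * z) / 2 ^ (y * z) :=
    div_le_div_of_nonneg_right x1 (by positivity)
  have y2 : exp (C'' * z) / 2 ^ (y * z) ≤ exp (Cg * z) / 2 ^ (y * z) :=
    div_le_div_of_nonneg_right x2 (by positivity)
  have x4 : exp (Cd * z) ≤ exp (Cg * z) := exp_le_exp.2 (mul_le_mul_of_nonneg_right hg4 hz0)
  have x5 : exp (Ca * z) ≤ exp (Cg * z) := exp_le_exp.2 (mul_le_mul_of_nonneg_right hg5 hz0)
  have hCg0 : 0 ≤ Cg := hC0.trans hg1
  refine ⟨P, S, fun ω hω => ⟨(hEd ω hω).1, (hEd ω hω).2.1.mono hg1, (hFr ω hω).mono hg1⟩,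
    fun ω hω => (hEd ω hω).2.2.monoK le_rfl hg1, hPd, ?_, hdep.mono hg4⟩
  · exact
      { tri := hPt
        deg := fun v l => (hPd v l).trans hK'
        near := fun ω _ hω i₁ hi₁ l hl => by
          have := (hFr ω hω).near i₁ hi₁ l hl
          exact ⟨this.1.trans (div_le_div_of_nonneg_right x0 (by positivity)),
            this.2.trans (div_le_div_of_nonneg_right x0 (by positivity))⟩
        bz := fun ω _ hω l h1 hl => ((hlin ω hω).1 l h1 hl).trans x1
        bt := fun ω _ hω l h1 hl w hw1 hw2 => by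
          have := ((hlin ω hω).2 w hw1 hw2).1 l h1 hl
          exact ⟨this.1.trans x1, this.2.trans x1⟩
        bS := fun ω _ _ u k => (hS ω u k).trans x2
        tS := fun ω _ _ u k h => hS0 ω u k h
        slow := fun ω _ hω l hl w hw1 hw2 =>
          (((hlin ω hω).2 w hw1 hw2).2.1 l hl).trans y1
        grp := fun ω _ hω l hl w hw1 hw2 =>
          (((hlin ω hω).2 w hw1 hw2).2.2.1 l hl).trans y1
        left := fun ω ω' _ hq' hω hω' hbb hc w hw1 hw2 hT => by
          have h5 := (((hlin ω hω).2 w hw1 hw2).2.2.2 ω' hq' (hEd ω' hω').2.1 hbb hT).1 hc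
          have h6 : z0 D J w i j r P ω' = z0 D J w i j r (fun _ => P (bb D i j r ω)) ω' := by
            funext l
            unfold z0 zt
            rw [hbb]
          have h7 : be D J w i j r P ω' = be D J w i j r (fun _ => P (bb D i j r ω)) ω' := by
            funext l
            unfold be z0 zt
            rw [hbb]
          rw [h6, h7]
          exact ⟨fun l hl => (h5.1 l hl).trans y1, fun l hl => (h5.2 l hl).trans y1⟩
        left2 := fun ω ω' _ hq' hω hω' hbb hc w hw1 hw2 hT l hl1 hl => by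
          have h5 := (((hlin ω hω).2 w hw1 hw2).2.2.2 ω' hq' (hEd ω' hω').2.1 hbb hT).2.2 hc l hl1 hl
          have h6 : z0 D J w i j r P ω' = z0 D J w i j r (fun _ => P (bb D i j r ω)) ω' := by
            funext l
            unfold z0 zt
            rw [hbb]
          have h7 : be D J w i j r P ω' = be D J w i j r (fun _ => P (bb D i j r ω)) ω' := by
            funext l
            unfold be z0 zt
            rw [hbb]
          rw [h6, h7]
          exact ⟨h5.1.trans y1, h5.2.trans y1⟩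
        left3 := fun ω ω' _ hq' hω hω' hbb hc w hw1 hw2 hT l hl1 hl hab => by
          have h5 := (((hlin ω hω).2 w hw1 hw2).2.2.2 ω' hq' (hEd ω' hω').2.1 hbb hT).2.1 hc l hl1 hl hab
          have h6 : z0 D J w i j r P ω' = z0 D J w i j r (fun _ => P (bb D i j r ω)) ω' := by
            funext l
            unfold z0 zt
            rw [hbb]
          have h7 : be D J w i j r P ω' = be D J w i j r (fun _ => P (bb D i j r ω)) ω' := by
            funext l
            unfold be z0 zt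
            rw [hbb]
          rw [h6, h7]
          exact ⟨h5.1.trans y1, h5.2.trans y1⟩
        right := fun ω ω' _ _ hω hω' hbb hT hs u hu => by
          have h5 := (hpair ω ω' hω hω' hbb hT).1 hs u hu
          exact ⟨h5.1.trans y2, fun k hk => (h5.2 k hk).trans y2⟩
        right2 := fun ω ω' _ _ hω hω' hbb hT hs u hu k hk =>
          ((hpair ω ω' hω hω' hbb hT).2 hs u hu k hk).trans y2
        right3 := fun ω ω' _ _ hω hω' hbb hT hs δ hδ hd u hu => by
          refine (habl ω ω' hω hω' hbb hT hs δ hδ hd u hu).trans ?_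
          refine mul_le_mul x5 ?_ (by positivity) (exp_pos _).le
          exact add_le_add le_rfl (div_le_div_of_nonneg_right x5 (by positivity))
        sheet := fun ω _ hω Bx hBx b hb0 hb hbu u hu => by
          refine (hsh ω hω Bx hBx b hb0 hb hbu u hu).trans ?_
          have e1 : exp (C'' * Bx * z) ≤ exp (Cg * Bx * z) := exp_le_exp.2
            (mul_le_mul_of_nonneg_right (mul_le_mul_of_nonneg_right hg3 (by linarith)) hz0)
          have e2 : (1 : ℝ) ≤ exp (Cg * z) := one_le_exp (by positivity)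
          rw [← mul_div_assoc]
          refine div_le_div_of_nonneg_right (e1.trans ?_) (by positivity)
          exact le_mul_of_one_le_right (exp_pos _).le e2
        toV := fun ω ω' q1 q2 hω hω' hbb hT l hl1 hl δ hδ h =>
          (hdep.toV i le_rfl hi' ω ω' q1 q2 hω hω' hbb (congrArg Prod.fst hbb) hT l hl1 hl δ hδ
            h).trans (mul_le_mul_of_nonneg_right x4 hδ)
        ofV := fun ω ω' q1 q2 hω hω' hbb hT l hl1 hl δ hδ h =>
          (hdep.ofV i le_rfl hi' ω ω' q1 q2 hω hω' hbb (congrArg Prod.fst hbb) hT l hl1 hl δ hδ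
            h).trans (mul_le_mul_of_nonneg_right x4 hδ) }

end Pool.P4J
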