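import Pool.Agent.H35.P4J.Stm
import Pool.Agent.H35.P4.Tm

/-!
# P4I: the time is full
-/

set_option autoImplicit false

namespace Pool.P4J

open Finset Real
open Pool.Agent.H49.Ent Pool.Agent.H32.Dense Pool.STK Pool.KAF Pool.STAT Pool.TMU
open Pool.P4T
open Pool.BFL (Pb P2)
open Pool.OCG (nr)

/-- **(TF)** The time is full. -/
theorem tf_stmt : TFStmt := by
  intro n K K' c k C₁ C
  refine ⟨1, zero_le_one, ?_⟩
  intro D J a₀ w₀ z M w i j r r' r'' y X lam gt gam κ q E P S ys gs H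
  have hO := H.ok
  have hq := hO.isLaw
  have hend := end_le hO
  obtain ⟨x, hx, hix⟩ := H.Xz
  have i2 := H.i2
  have j2 := H.j2
  have w1 := H.w1
  have w2 := H.w2
  have h1 : (j + 1) * z ≤ (M + 1) * z := Nat.mul_le_mul_right z (by omega)
  have h2 : x * z ≤ (M + 1) * z := Nat.mul_le_mul_right z (by omega)
  have hwX : w + X ≤ J := by omega
  have hU := H.tmu
  unfold NDat2.TmU at hU
  have hww : w₀ ≤ w := by omega
  have g1 := CH_low hq D.T D.ln hww (by omega) hO.ln_w hU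
  have g2 := CH_le_add hq.nonneg D.T (fun ω => Pool.P4.tq J w X (D.T ω))
    (fun ω => (D.ln ω, D.T ω / 2 ^ (J - w)))
  have g3 : CH q D.T (fun ω => (Pool.P4.tq J w X (D.T ω), (D.ln ω, D.T ω / 2 ^ (J - w)))) ≤
      ((J - (w + X) : ℕ) : ℝ) * Real.log 2 := by
    refine CH_win' hq D.T _ hwX ?_
    intro ω ω' _ _ e
    simp only [Prod.mk.injEq] at e
    obtain ⟨e3, _, e2⟩ := e
    change D.T ω / 2 ^ (J - (w + X)) = D.T ω' / 2 ^ (J - (w + X))
    rw [tq_eq hwX, tq_eq hwX, e3, e2]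
  have g4 : CH q (fun ω => Pool.P4.tq J w X (D.T ω))
      (fun ω => (D.ln ω, D.T ω / 2 ^ (J - w))) ≤
      CH q (fun ω => Pool.P4.tq J w X (D.T ω)) (Pool.P4.cb D J w i j r) :=
    CH_mono_cond hq.nonneg (det_cb hO (by omega) (by omega) w1 (by omega))
  have g5 : ((J - w : ℕ) : ℝ) = ((J - (w + X) : ℕ) : ℝ) + X := by
    rw [← Nat.cast_add]
    congr 1
    omega
  rw [g5, add_mul] at g1
  unfold Pool.P4.err
  have hb : 0 ≤ (X : ℝ) * Pb q (fun ω => ¬ E ω) := by
    refine mul_nonneg (Nat.cast_nonneg _) ?_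
    unfold Pb
    refine Finset.sum_nonneg fun ω _ => ?_
    split_ifs
    · exact hq.nonneg ω
    · exact le_rfl
  have hz0 : (0 : ℝ) ≤ z := Nat.cast_nonneg z
  rw [one_mul]
  linarith

end Pool.P4J
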