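import Pool.Agent.H35.P4J.CellF
import Pool.Agent.H35.P4J.Geo
import Pool.Agent.H35.P4J.Own
import Pool.Agent.H35.P4J.Dep
import Pool.Agent.H35.P4J.Abl
import Pool.Agent.H35.P4J.H0
import Pool.Agent.H35.P4J.H2f
import Pool.Agent.H35.P4J.YF
import Pool.Agent.H35.P4J.Hs
import Pool.Agent.H35.P4J.Tf
import Pool.Agent.H35.P4J.NF
import Pool.Agent.H25.P4J.Lin

/-!
# P4J: the cell side
-/

set_option autoImplicit false

namespace Pool.P4J

/-- **(GEO)** -/
theorem geo_thm : GeoStmt :=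
  geo_of Pool.P4JL.lin_stmt own_stmt dep_stmt abl_stmt

/-- **(CELLF)** -/
theorem cellF_thm : CellFStmt :=
  cellF_of geo_thm E.h0_stmt h2 yf_stmt tf_stmt N.nf_stmt hs Pool.P4T.tm_stmt

end Pool.P4J
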