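import Pool.Agent.H35.P4J.VCell
import Pool.Agent.H35.P4J.CellT
import Pool.Agent.H37.AF.All
import Pool.Agent.H65.NFC.Red

/-!
# P4J: the cell with its visible chart, over affine frames

`vcellS_thm`: in every cell with straight lines and without slabs there is a place with a visible
chart (`VCellS`), the samples of the event have affine frames (`Pool.AF37.affEv`).
-/

set_option autoImplicit false

namespace Pool.P4J

open Finset Real MvPolynomial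
open Pool.Agent.H49.Ent Pool.Agent.H32.Dense Pool.STK Pool.STAT Pool.MIC.Frm Pool.MIC7 Pool.FRM
open Pool.GSD
open Pool.BFL (Pb)
open Pool.P4 (thd sl gr LLC NFc vc_ok2)

/-- Two closed contexts in a smaller room. -/
theorem nfc_M {D : NDat2} {n z M M' B : ℕ} {gt : ℕ → ℝ} {h C₁ : ℝ} {q : D.Ω → ℝ}
    (H : NFc D n z M B gt h C₁ q) (hM : M' ≤ M) (hg : 0 ≤ gt n) :
    NFc D n z M' B gt h C₁ q := by
  intro i hi1 hi j hj s hs U hU hUg
  refine H i hi1 (hi.trans hM) j (hj.trans hM) s hs U (hU.trans hM) (hUg.trans ?_)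
  have h1 : (M' : ℝ) ≤ M := by exact_mod_cast hM
  exact mul_le_mul_of_nonneg_left (by linarith) hg

/-- **The cell with its visible chart**, two rooms. -/
theorem vcellS_of (hF : CellFStmt) (hA : Pool.AF37.AffEv) : VCellS := by
  intro n K B gt gam th C₁ Cs CL h c k ys gs n₀ n1 B1 kd C1 hh0 hh1 y1 y2 y3 g1 g2 g3 g4 F
  obtain ⟨K', Cf, -, hK1, hCf, HA⟩ := hA n K (fun _ => 1) gt C₁ Cs n1 C1 (fun _ _ _ => rfl)
  obtain ⟨C₀, C, hC₀, hCC, hFC, H⟩ := vcellE_of hF n K K' B gt gam th C₁ CL Cf h c k ys gs n₀ n1 B1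
    hK1 kd C1 hCf hh0 hh1 y1 y2 y3 g1 g2 g3 g4 (F K')
  refine ⟨K', C₀, C, hC₀, hCC, hFC, fun η hη => ?_⟩
  obtain ⟨s, hs, H⟩ := H η hη
  refine ⟨s, hs, fun B' U₀ y₀ io δ b1 b2 b3 b4 b5 => ?_⟩
  obtain ⟨e₀, he₀, U, y, r, r', r'', a, i, j, u1, u2, u3, H⟩ := H B' U₀ y₀ io δ b1 b2 b3 b4 b5
  refine ⟨U, y, r, r', r'', a, i, j, u1, u2, u3, fun M₀ => ?_⟩
  obtain ⟨M, hM, κ₁, z₁, k1, H⟩ := H (max M₀ 2)
  refine ⟨M, (le_max_left _ _).trans hM, fun e he => ?_⟩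
  obtain ⟨M₂, κ₂, z₂, m2, k2, HA⟩ := HA M (min e e₀) ((le_max_right _ _).trans hM)
    (lt_min he he₀)
  refine ⟨M₂, min κ₁ κ₂, max z₁ z₂, m2, lt_min k1 k2, ?_⟩
  intro lam J a₀ w₀ z D q ϖ lam1 hz hϖ hO hDM hLLC hTm hSt hSl hNo hNF hNFc
  have hTmono : ∀ κ' : ℝ, min κ₁ κ₂ ≤ κ' → D.TmU J w₀ z κ' q := by
    intro κ' h'
    unfold NDat2.TmU at hTm ⊢
    have : min κ₁ κ₂ * z ≤ κ' * z := mul_le_mul_of_nonneg_right h' (Nat.cast_nonneg z)
    linarith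
  obtain ⟨E, hE, hEd⟩ := HA J a₀ w₀ z D q ((le_max_right _ _).trans hz)
    (vc_ok2 (hO.mono_κ (min_le_right _ _)) lam1) (hTmono _ (min_le_right _ _)) hSt hSl
    (hNo.mono le_rfl le_rfl (min_le_right _ _))
  have hO1 := hO.subM m2
  have hD1 := Pool.NFC65.DMA_M hDM m2
  obtain ⟨w, P, S, hV⟩ := H lam J a₀ w₀ z D q ϖ E lam1 ((le_max_left _ _).trans hz) hϖ
    (hO1.mono_κ (min_le_left _ _)) (hD1.mono (min_le_left _ _)) (Pool.NFC65.LLC_M hLLC m2)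
    (hTmono _ (min_le_left _ _)) (hNF.subM (kd.gt0 n) m2) (nfc_M hNFc m2 (kd.gt0 n)) hSt hEd
    (hE.trans (min_le_right _ _))
  exact ⟨w, E, P, S, hE.trans (min_le_left _ _),
    { hV with
      hyp := { hV.hyp with
        ok := hO1
        dma := hD1
        tmu := hTm
        κ0 := (lt_min k1 k2).le } }⟩

/-- **(VCELL)** -/
theorem vcellS_thm : VCellS := vcellS_of cellF_thm Pool.AF37.affEv

end Pool.P4J
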