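import Pool.Agent.H35.P4J.H0
import Pool.Agent.H35.P4J.NFa

/-!
# P4I: the coordinates above are almost independent of the target

`zab`: the digits of the coordinates above, at the exact time. `above`: given the picture, the target
is almost independent of them.
-/

set_option autoImplicit false

namespace Pool.P4J

open Pool.P4

open Finset Real
open Pool.Agent.H49.Ent Pool.Agent.H32.Dense Pool.STK Pool.MIC Pool.STAT
open Pool.BFL (Pb)
open Pool.P4E (use_gen)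
open Pool.P4J.E (fb fb1_le fb_le few_X nuv_few bev_few yv_few Sv_few mi_cb lft_cls rgt_cls c_rad
  rgt_one)
open Pool.P4J.N (zab ze_near)

section hyp

variable {D : NDat2} {n K K' J a₀ w₀ z M w i j r r' r'' y X : ℕ} {lam gt gam : ℕ → ℝ}
  {κ C₁ C : ℝ} {q : D.Ω → ℝ} {E : D.Ω → Prop} {P : D.Γ × D.Γ → ℕ → PN}
  {S : D.Ω → ℕ → ℕ → ℝ} {c k : ℕ} {ys : Fin k → ℕ} {gs : Fin c → ℕ}

/-- The line without the coordinates above, given the left side. -/
theorem line_few3 (H : Hyp D n K K' J a₀ w₀ z M w i j r r' r'' y X lam gt gam κ C₁ C q E P S ys gs)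
    {t : ℝ} (ht : t = Pb q fun ω => ¬ E ω) :
    CH q (fun ω => (nuv D J w z i j r X C P gs ω, (yv D J w z i j r X C P ys ω,
        bev D J w z i j r X C P gs ω)))
      (fun ω => (D.lft i j (r + r') r 1 ω, (D.T ω, cb D J w i j r ω))) ≤
      (3 + 7 * (2 * c + k)) * (1 + X * t) := by
  have hl := H.ok.isLaw
  have hq := hl.nonneg
  have t0 : 0 ≤ t := by rw [ht]; exact Pb_nonneg hq _
  have t1 : t ≤ 1 := by rw [ht]; exact Pool.P4J.E.Pb_le_one hl _
  have b1 : CH q (nuv D J w z i j r X C P gs)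
      (fun ω => (D.lft i j (r + r') r 1 ω, (D.T ω, cb D J w i j r ω))) ≤
      (1 + 7 * c) * (1 + X * t) := by
    refine (nuv_few H _ fun ω ω' p p' hE hE' e l hl' => ?_).trans ?_
    · obtain ⟨e1, e2, e3⟩ := lft_cls e
      exact (H.geo.left3 ω ω' p p' hE hE' e1 e2 w H.w1 H.w2 e3 l hl'.1.1 hl'.1.2.1
        fun h => ab_gp h hl').1
    · rw [← ht]
      exact fb1_le c X t0 t1
  have b2 : CH q (yv D J w z i j r X C P ys)
      (fun ω => (D.lft i j (r + r') r 1 ω, (D.T ω, cb D J w i j r ω))) ≤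
      (1 + 7 * k) * (1 + X * t) := by
    refine (yv_few H _ fun ω ω' p p' hE hE' e l hl' => ?_).trans ?_
    · obtain ⟨e1, e2, e3⟩ := lft_cls e
      exact (H.geo.left3 ω ω' p p' hE hE' e1 e2 w H.w1 H.w2 e3 l hl'.1 hl'.2.1.le
        (sl_ab hl')).1
    · rw [← ht]
      exact fb1_le k X t0 t1
  have b3 : CH q (bev D J w z i j r X C P gs)
      (fun ω => (D.lft i j (r + r') r 1 ω, (D.T ω, cb D J w i j r ω))) ≤
      (1 + 7 * c) * (1 + X * t) := by
    refine (bev_few H _ fun ω ω' p p' hE hE' e l hl' => ?_).trans ?_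
    · obtain ⟨e1, e2, e3⟩ := lft_cls e
      exact (H.geo.left3 ω ω' p p' hE hE' e1 e2 w H.w1 H.w2 e3 l hl'.1.1 hl'.1.2.1
        fun h => ab_gp h hl').2
    · rw [← ht]
      exact fb1_le c X t0 t1
  have c2 := CH_subadd hq (nuv D J w z i j r X C P gs) (fun ω => (yv D J w z i j r X C P ys ω,
    bev D J w z i j r X C P gs ω))
    (fun ω => (D.lft i j (r + r') r 1 ω, (D.T ω, cb D J w i j r ω)))
  have c3 := CH_subadd hq (yv D J w z i j r X C P ys) (bev D J w z i j r X C P gs)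
    (fun ω => (D.lft i j (r + r') r 1 ω, (D.T ω, cb D J w i j r ω)))
  have c4 : (3 + 7 * (2 * (c : ℝ) + k)) * (1 + X * t) = (1 + 7 * c) * (1 + X * t) +
      ((1 + 7 * k) * (1 + X * t) + (1 + 7 * c) * (1 + X * t)) := by ring
  linarith

/-- The right contexts: the deeper one. -/
theorem rgt_deep (H : Hyp D n K K' J a₀ w₀ z M w i j r r' r'' y X lam gt gam κ C₁ C q E P S ys gs)
    {ω ω' : D.Ω} (a : 0 < q ω) (b : 0 < q ω')
    (h : D.rgt i j (r + r') r 1 ω = D.rgt i j (r + r') r 1 ω') (hT : D.T ω = D.T ω') :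
    D.s (i - r'') (j + r) ω = D.s (i - r'') (j + r) ω' := by
  have e3 := congrFun h (1 : Fin 2)
  have e5 : D.c (i - ((1 : Fin 2) : ℕ) * (r + r')) (j + ((1 : Fin 2) : ℕ) * r) ω =
    D.c (i - ((1 : Fin 2) : ℕ) * (r + r')) (j + ((1 : Fin 2) : ℕ) * r) ω' := e3
  have e6 : D.c (i - (r + r')) (j + r) ω = D.c (i - (r + r')) (j + r) ω' := by simpa using e5
  have h4 := H.j2
  have h5 := H.i2
  have h6 := H.r2
  have h7 := H.i1
  have e7 := c_rad H (i' := i - r'') (j' := j + r) (s := i - (r + r') - (i - r'')) (by omega)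
    (by omega)
  rw [show i - r'' + (i - (r + r') - (i - r'')) = i - (r + r') by omega] at e7
  exact H.ok.s_c (i - r'') (by omega) (j + r) (by omega) ω ω' a b
    (Prod.ext (e7 ω ω' a b e6) hT)

/-- **The target and the right side.** -/
theorem tgt_rgt (H : Hyp D n K K' J a₀ w₀ z M w i j r r' r'' y X lam gt gam κ C₁ C q E P S ys gs)
    {t : ℝ} (ht : t = Pb q fun ω => ¬ E ω) (n₀ : Fin c) {TW : Type} (W : D.Ω → TW)
    (hW : ∀ ω ω', W ω = W ω' → (fun u : {u : Fin c // u ≠ n₀} =>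
      nuv D J w z i j r X C P gs ω u) = (fun u : {u : Fin c // u ≠ n₀} =>
      nuv D J w z i j r X C P gs ω' u) ∧ yv D J w z i j r X C P ys ω =
        yv D J w z i j r X C P ys ω' ∧ bev D J w z i j r X C P gs ω =
        bev D J w z i j r X C P gs ω' ∧ D.T ω = D.T ω' ∧ cb D J w i j r ω = cb D J w i j r ω')
    (hW' : ∀ ω ω', (fun u : {u : Fin c // u ≠ n₀} =>
      nuv D J w z i j r X C P gs ω u) = (fun u : {u : Fin c // u ≠ n₀} =>
      nuv D J w z i j r X C P gs ω' u) → yv D J w z i j r X C P ys ω =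
        yv D J w z i j r X C P ys ω' → bev D J w z i j r X C P gs ω =
        bev D J w z i j r X C P gs ω' → Sv D z X C S ys gs ω = Sv D z X C S ys gs ω' →
        D.T ω = D.T ω' → cb D J w i j r ω = cb D J w i j r ω' → W ω = W ω') :
    CH q (fun ω => nuv D J w z i j r X C P gs ω n₀) W ≤
      CH q (fun ω => nuv D J w z i j r X C P gs ω n₀)
        (fun ω => (D.rgt i j (r + r') r 1 ω, W ω)) +
        (κ * z + (3 + 7 * (2 * c + k)) * (1 + X * t) + (1 + 7 * ((c * k : ℕ) : ℝ)) *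
          (1 + X * t)) := by
  have hl := H.ok.isLaw
  have hq := hl.nonneg
  have t0 : 0 ≤ t := by rw [ht]; exact Pb_nonneg hq _
  have t1 : t ≤ 1 := by rw [ht]; exact Pool.P4J.E.Pb_le_one hl _
  have hr2 := H.r2
  have hi1 := H.i1
  have hi2 := H.i2
  have a1 := mi_cb H (r₁ := r + r') (by omega) (by omega)
  obtain ⟨W0, hW0⟩ : ∃ W0 : D.Ω → ℕ × ((D.Γ × D.Γ) × ℕ), W0 = fun ω =>
    (D.T ω, cb D J w i j r ω) := ⟨_, rfl⟩
  obtain ⟨R, hR⟩ : ∃ R, R = D.rgt i j (r + r') r 1 := ⟨_, rfl⟩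
  obtain ⟨L, hL⟩ : ∃ L, L = D.lft i j (r + r') r 1 := ⟨_, rfl⟩
  have a1' : CH q R W0 ≤ CH q R (fun ω => (L ω, W0 ω)) + κ * z := by
    rw [hR, hL, hW0]
    exact a1
  have a2 := NDat2.mi_symm hq R L W0
  have a3 : CH q L W0 ≤ CH q L (fun ω => (R ω, W0 ω)) + κ * z := by linarith
  have b4 := line_few3 H ht
  obtain ⟨X2, hX2⟩ : ∃ X2 : D.Ω → ({u : Fin c // u ≠ n₀} → ℤ) × ((Fin k → ℤ) × (Fin c → ℤ)),
    X2 = fun ω => ((fun u : {u : Fin c // u ≠ n₀} => nuv D J w z i j r X C P gs ω u),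
      (yv D J w z i j r X C P ys ω, bev D J w z i j r X C P gs ω)) := ⟨_, rfl⟩
  obtain ⟨N, hN⟩ : ∃ N : D.Ω → ℤ, N = fun ω => nuv D J w z i j r X C P gs ω n₀ := ⟨_, rfl⟩
  have hY : CH q (fun ω => (N ω, X2 ω)) (fun ω => (L ω, W0 ω)) ≤
      (3 + 7 * (2 * c + k)) * (1 + X * t) := by
    rw [hL, hW0]
    refine le_trans (CH_mono_left hq ?_) b4
    intro ω ω' _ _ e
    simp only [Prod.mk.injEq] at e
    obtain ⟨⟨e1, e2, e3⟩, -⟩ := e
    rw [hN, hX2]
    beta_reduce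
    rw [e1, e2, e3]
  obtain ⟨Q, hQ⟩ : ∃ Q : D.Ω → (Fin c → Fin k → ℤ) × (Fin (1 + 1) → D.Γ), Q = fun ω =>
    (Sv D z X C S ys gs ω, R ω) := ⟨_, rfl⟩
  have hX : CH q Q (fun ω => (R ω, W0 ω)) ≤ (1 + 7 * ((c * k : ℕ) : ℝ)) * (1 + X * t) := by
    have b5 : CH q (Sv D z X C S ys gs) (fun ω => (R ω, W0 ω)) ≤
        (1 + 7 * ((c * k : ℕ) : ℝ)) * (1 + X * t) := by
      rw [hR, hW0]
      refine (Sv_few H _ fun ω ω' p p' hE hE' e u hu l hl' => ?_).trans ?_
      · obtain ⟨e1, e2, -⟩ := rgt_cls H p p' e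
        exact H.geo.right2 ω ω' p p' hE hE' e1 e2
          (rgt_deep H p p' (Prod.ext_iff.1 e).1 e2) u hu l hl'
      · rw [← ht]
        exact fb1_le (c * k) X t0 t1
    refine le_trans (CH_mono_left hq ?_) b5
    intro ω ω' _ _ e
    simp only [Prod.mk.injEq] at e
    rw [hQ]
    exact Prod.ext e.1 e.2.1
  have a4 := use_gen hq (L := R) (R := L) (W := W0) (X := Q) (Y := fun ω => (N ω, X2 ω)) a3 hX hY
  -- chain
  have c1 := CH_chain hq N X2 W0
  have c2 := CH_chain hq N X2 (fun ω => (Q ω, W0 ω))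
  have c3 : CH q X2 (fun ω => (Q ω, W0 ω)) ≤ CH q X2 W0 :=
    CH_mono_cond hq fun ω ω' _ _ e => (Prod.ext_iff.1 e).2
  have c4 : CH q N W ≤ CH q N (fun ω => (X2 ω, W0 ω)) := by
    refine CH_mono_cond hq fun ω ω' _ _ e => ?_
    obtain ⟨e1, e2, e3, e4, e5⟩ := hW ω ω' e
    rw [hX2, hW0]
    exact Prod.ext (Prod.ext e1 (Prod.ext e2 e3)) (Prod.ext e4 e5)
  have c5 : CH q N (fun ω => (X2 ω, (Q ω, W0 ω))) ≤ CH q N (fun ω => (R ω, W ω)) := by
    refine CH_mono_cond hq fun ω ω' _ _ e => ?_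
    rw [hX2, hW0, hQ] at e
    simp only [Prod.mk.injEq] at e
    obtain ⟨⟨e1, e2, e3⟩, ⟨e4, e5⟩, e6, e7⟩ := e
    exact Prod.ext e5 (hW' ω ω' e1 e2 e3 e4 e6 e7)
  rw [hN, hR] at *
  linarith

/-- **The coordinates above, given the right side and everything else.** -/
theorem zab_few (H : Hyp D n K K' J a₀ w₀ z M w i j r r' r'' y X lam gt gam κ C₁ C q E P S ys gs)
    {t : ℝ} (ht : t = Pb q fun ω => ¬ E ω) {n₀ : Fin c} (hn : gs n₀ = n) {TW : Type}
    (W : D.Ω → TW)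
    (hW : ∀ ω ω', W ω = W ω' → (fun u : {u : Fin c // u ≠ n₀} =>
      nuv D J w z i j r X C P gs ω u) = (fun u : {u : Fin c // u ≠ n₀} =>
      nuv D J w z i j r X C P gs ω' u) ∧ yv D J w z i j r X C P ys ω =
        yv D J w z i j r X C P ys ω' ∧ bev D J w z i j r X C P gs ω =
        bev D J w z i j r X C P gs ω' ∧ D.T ω = D.T ω' ∧ cb D J w i j r ω = cb D J w i j r ω') :
    CH q (zab D n z i j r X C gam P) (fun ω => (D.rgt i j (r + r') r 1 ω, W ω)) ≤
      1 + n * ((5 + 3 * C) * z + (3 + X * t)) := by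
  have hl := H.ok.isLaw
  have hq := hl.nonneg
  have t0 : 0 ≤ t := by rw [ht]; exact Pb_nonneg hq _
  have t1 : t ≤ 1 := by rw [ht]; exact Pool.P4J.E.Pb_le_one hl _
  have hC0 : 0 ≤ C := by linarith [H.Cg]
  have hRy := Pool.P4J.N.Ry_one hC0 z
  have hRg := Pool.P4J.N.Rg_eq z C
  have hpX : (0 : ℝ) < 2 ^ X := by positivity
  have hi : (0 : ℝ) < ((2 : ℝ) ^ X)⁻¹ := by positivity
  have hRg1 : 2 * Ry z C ≤ Rg z C := by
    rw [hRg]
    nlinarith only [hRy]
  have hRg0 : 0 < Rg z C := by linarith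
  have hτ : exp (C * z) / 2 ^ (y * z) ≤ ((2 : ℝ) ^ X)⁻¹ := by
    rw [div_le_iff₀ (by positivity), inv_mul_eq_div, le_div_iff₀ hpX]
    exact H.yX
  have e1 := Pool.P4N.few_ev hl E (zab D n z i j r X C gam P)
    (fun ω => (D.rgt i j (r + r') r 1 ω, W ω)) (L := 9 * Ry z C + 1) (Q := 2 ^ X)
    (by positivity) hpX.le (by
      intro ω ω' g1 g2 hE hE' e l
      simp only [Prod.mk.injEq] at e
      obtain ⟨e1, e2⟩ := e
      obtain ⟨d1, d2, d3, d4, d5⟩ := hW ω ω' e2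
      have hbb : bb D i j r ω = bb D i j r ω' := (Prod.ext_iff.1 d5).1
      by_cases hla : ab gam n (l + 1)
      · have f1 := H.geo.right3 ω ω' g1 g2 hE hE' hbb d4 (rgt_one H g1 g2 e1 d4)
          (8 * Rg z C * ((2 : ℝ) ^ X)⁻¹) (by positivity)
          (fun k hk1 hkn hka => Pool.P4J.N.ze_near0 H g1 g2 hE hE' d4 d2 d3 n
            (fun u hu => congrFun d1 ⟨u, fun h => hu (by rw [h, hn])⟩) hk1 hkn.le
            (by omega) hka) (l + 1) hla
        have b1 := H.geo.bz ω g1 hE (l + 1) hla.1 hla.2.1.le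
        have b2 := H.geo.bz ω' g2 hE' (l + 1) hla.1 hla.2.1.le
        change |ze D i j r P ω (l + 1)| ≤ Ry z C at b1
        change |ze D i j r P ω' (l + 1)| ≤ Ry z C at b2
        change _ ≤ Ry z C * _ at f1
        have hdiv : ∀ x : ℝ, |x| ≤ Ry z C → |x / Rg z C| ≤ 1 := by
          intro x hx
          rw [abs_div, abs_of_pos hRg0, div_le_one hRg0]
          linarith
        have f2 := Pool.P4N.dg_sub (X := X) (hdiv _ b1) (hdiv _ b2)
        rw [← sub_div, abs_div, abs_of_pos hRg0] at f2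
        unfold zab
        rw [if_pos hla, if_pos hla]
        refine f2.trans ?_
        have f3 : (2 : ℝ) ^ X * (|ze D i j r P ω (l + 1) - ze D i j r P ω' (l + 1)| / Rg z C) ≤
            9 * Ry z C := by
          rw [← mul_div_assoc, div_le_iff₀ hRg0]
          have f4 := mul_le_mul_of_nonneg_left hτ (by linarith : (0 : ℝ) ≤ Ry z C)
          have f5 : (2 : ℝ) ^ X * (Ry z C * (8 * Rg z C * ((2 : ℝ) ^ X)⁻¹ +
              ((2 : ℝ) ^ X)⁻¹)) = 8 * Ry z C * Rg z C + Ry z C := by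
            field_simp
          have f6 : |ze D i j r P ω (l + 1) - ze D i j r P ω' (l + 1)| ≤
              Ry z C * (8 * Rg z C * ((2 : ℝ) ^ X)⁻¹ + ((2 : ℝ) ^ X)⁻¹) := by
            refine f1.trans ?_
            rw [mul_add, mul_add]
            linarith
          have f7 := mul_le_mul_of_nonneg_left f6 hpX.le
          rw [f5] at f7
          nlinarith only [f7, hRy, hRg1]
        linarith
      · unfold zab
        rw [if_neg hla, if_neg hla, sub_self, Int.cast_zero, abs_zero]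
        positivity) (by
      intro ω hω l
      unfold zab
      split_ifs
      · exact Pool.P4J.E.dg_abs X _
      · rw [Int.cast_zero, abs_zero]
        positivity)
  refine e1.trans ?_
  have e2 := Pool.P4N.log64 hC0 H.z1 (t := 2 * (9 * Ry z C + 1) + 1) (by positivity) (by
    have h5 : 1 ≤ Ry z C * Ry z C := by nlinarith only [hRy]
    have h6 : Ry z C ≤ Ry z C * (Ry z C * Ry z C) := by nlinarith only [h5, hRy]
    nlinarith only [h5, h6, hRy])
  have e3 := Pool.P4N.log_4X X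
  rw [← ht]
  have e4 : t * Real.log (4 * 2 ^ X + 1) ≤ 3 + X * t := by
    have := mul_le_mul_of_nonneg_left e3 t0
    nlinarith only [this, t1, t0]
  have e5 : 0 ≤ (5 + 3 * C) * z + (3 + X * t) := by positivity
  have hnn : ((n - 1 : ℕ) : ℝ) ≤ n := by exact_mod_cast Nat.sub_le n 1
  have e6 : ((n - 1 : ℕ) : ℝ) * (Real.log (2 * (9 * Ry z C + 1) + 1) +
      t * Real.log (4 * 2 ^ X + 1)) ≤ n * ((5 + 3 * C) * z + (3 + X * t)) :=
    (mul_le_mul_of_nonneg_left (by linarith) (Nat.cast_nonneg _)).trans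
      (mul_le_mul_of_nonneg_right hnn e5)
  have hl2 := Real.log_two_lt_d9
  linarith

/-- The constant of the next lemma. -/
noncomputable def aAb (n c k : ℕ) (C : ℝ) : ℝ :=
  6 + 14 * c + 7 * k + 7 * (c * k) + n * (8 + 3 * |C|)

theorem aAb_nonneg (n c k : ℕ) (C : ℝ) : 0 ≤ aAb n c k C := by
  unfold aAb
  positivity

/-- **Given the picture, the target is almost independent of the coordinates above.** -/
theorem above (H : Hyp D n K K' J a₀ w₀ z M w i j r r' r'' y X lam gt gam κ C₁ C q E P S ys gs)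
    {n₀ : Fin c} (hn : gs n₀ = n) {TW : Type} (W : D.Ω → TW)
    (hW : ∀ ω ω', W ω = W ω' → (fun u : {u : Fin c // u ≠ n₀} =>
      nuv D J w z i j r X C P gs ω u) = (fun u : {u : Fin c // u ≠ n₀} =>
      nuv D J w z i j r X C P gs ω' u) ∧ yv D J w z i j r X C P ys ω =
        yv D J w z i j r X C P ys ω' ∧ bev D J w z i j r X C P gs ω =
        bev D J w z i j r X C P gs ω' ∧ D.T ω = D.T ω' ∧ cb D J w i j r ω = cb D J w i j r ω')
    (hW' : ∀ ω ω', (fun u : {u : Fin c // u ≠ n₀} =>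
      nuv D J w z i j r X C P gs ω u) = (fun u : {u : Fin c // u ≠ n₀} =>
      nuv D J w z i j r X C P gs ω' u) → yv D J w z i j r X C P ys ω =
        yv D J w z i j r X C P ys ω' → bev D J w z i j r X C P gs ω =
        bev D J w z i j r X C P gs ω' → Sv D z X C S ys gs ω = Sv D z X C S ys gs ω' →
        D.T ω = D.T ω' → cb D J w i j r ω = cb D J w i j r ω' → W ω = W ω') :
    CH q (fun ω => nuv D J w z i j r X C P gs ω n₀) W ≤
      CH q (fun ω => nuv D J w z i j r X C P gs ω n₀)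
        (fun ω => (zab D n z i j r X C gam P ω, W ω)) +
        err (aAb n c k C) κ z X (Pb q fun ω => ¬ E ω) := by
  have hl := H.ok.isLaw
  have hq := hl.nonneg
  obtain ⟨t, ht⟩ : ∃ t, t = Pb q fun ω => ¬ E ω := ⟨_, rfl⟩
  have t0 : 0 ≤ t := by rw [ht]; exact Pb_nonneg hq _
  have a1 := tgt_rgt H ht n₀ W hW hW'
  have a2 := zab_few H ht hn W hW
  obtain ⟨N, hN⟩ : ∃ N : D.Ω → ℤ, N = fun ω => nuv D J w z i j r X C P gs ω n₀ := ⟨_, rfl⟩
  rw [← hN] at a1 ⊢
  have a3 := CH_le_add hq N (zab D n z i j r X C gam P)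
    (fun ω => (D.rgt i j (r + r') r 1 ω, W ω))
  have a4 : CH q N (fun ω => (zab D n z i j r X C gam P ω, (D.rgt i j (r + r') r 1 ω, W ω))) ≤
      CH q N (fun ω => (zab D n z i j r X C gam P ω, W ω)) := by
    refine CH_mono_cond hq fun ω ω' _ _ e => ?_
    simp only [Prod.mk.injEq] at e
    exact Prod.ext e.1 e.2.2
  have hz1 : (1 : ℝ) ≤ z := by exact_mod_cast H.z1
  have hC0 : 0 ≤ C := by linarith [H.Cg]
  have hκ := H.κ0
  rw [← ht]
  unfold err aAb
  rw [abs_of_nonneg hC0]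
  push_cast at a1
  have hXt : 0 ≤ (X : ℝ) * t := mul_nonneg (Nat.cast_nonneg X) t0
  have hκz : 0 ≤ κ * z := by positivity
  have hc : (0 : ℝ) ≤ c := Nat.cast_nonneg c
  have hk : (0 : ℝ) ≤ k := Nat.cast_nonneg k
  have hck : 0 ≤ (c : ℝ) * k := mul_nonneg hc hk
  have hn0 : (0 : ℝ) ≤ n := Nat.cast_nonneg n
  obtain ⟨s, hs⟩ : ∃ s : ℝ, s = (1 + κ) * z + X * t := ⟨_, rfl⟩
  rw [← hs]
  have s1 : 1 + (X : ℝ) * t ≤ s := by
    rw [hs]
    linarith
  have s2 : κ * z + 1 ≤ s := by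
    rw [hs]
    linarith
  have s3 : (5 + 3 * C) * z + (3 + X * t) ≤ (8 + 3 * C) * s := by
    have f1 : (z : ℝ) ≤ s := by
      rw [hs]
      linarith
    have f2 : (z : ℝ) + X * t ≤ s := by
      rw [hs]
      linarith
    have f3 : C * z ≤ C * s := mul_le_mul_of_nonneg_left f1 hC0
    nlinarith only [f1, f2, f3, hz1, hXt]
  have s0 : 0 ≤ s := by linarith
  have m1 : (3 + 7 * (2 * (c : ℝ) + k)) * (1 + X * t) ≤ (3 + 7 * (2 * (c : ℝ) + k)) * s :=
    mul_le_mul_of_nonneg_left s1 (by positivity)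
  have m2 : (1 + 7 * ((c : ℝ) * k)) * (1 + X * t) ≤ (1 + 7 * ((c : ℝ) * k)) * s :=
    mul_le_mul_of_nonneg_left s1 (by positivity)
  have m3 : (n : ℝ) * ((5 + 3 * C) * z + (3 + X * t)) ≤ n * ((8 + 3 * C) * s) :=
    mul_le_mul_of_nonneg_left s3 hn0
  nlinarith only [a1, a2, a3, a4, m1, m2, m3, s2, s0]

end hyp

end Pool.P4J
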