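import Pool.Agent.H14.P4.Stm

/-!
# P4J: the cell side over affine frames, definitions

As P4I (`Pool.Agent.H35.P4I.Def`), with two slope functions: `gt` are the true slopes, `gam` are the
kinds. For a threshold `th`, `gam l = gt l` for the slow coordinates (`gt l < 1`) and
`gam l = gt l - (th - 1)` for the others (`th ≤ gt l`): then `thd gam n = 1`. `sl`: slow coordinates,
`gr`: all the others. `gp`: the proper group, `gt l < 1 + th`, affine on the line, it contains the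
target. `ab`: the coordinates above: they are in the frames and in the labels, but in no data of the
line and in no group. The closed frames are affine.

The places `L = (i + r', j - r)`, `R = (i - r', j + r)` as before. `L₃ = (i + (r + r'), j - r)` knows
all the coordinates which are not above, `R₃ = (i - (r + r'), j + r)` knows the own sheets of the
coordinates above.
-/

set_option autoImplicit false

namespace Pool.P4J

open Finset Real MvPolynomial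
open Pool.Agent.H49.Ent Pool.Agent.H32.Dense Pool.STK Pool.STAT Pool.MIC.Frm Pool.MIC7 Pool.FRM
open Pool.GSD
open Pool.BFL (Pb)
open Pool.P4 (t0 rt pp PthC FraC thd sl gr bb ze zt z0 be nn)

/-! ### The kinds of the coordinates and the steps -/

/-- The proper group. -/
def gp (gam : ℕ → ℝ) (n l : ℕ) : Prop := gr gam n l ∧ gam l < 1 + thd gam n

/-- The coordinates above. -/
def ab (gam : ℕ → ℝ) (n l : ℕ) : Prop := 1 ≤ l ∧ l < n ∧ 1 + thd gam n ≤ gam l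

/-- The steps: `y` is the margin, `gt` the true slopes, `gam` the kinds. -/
structure Stp (n : ℕ) (gt gam : ℕ → ℝ) (y r r' r'' a : ℕ) : Prop where
  s1 : ∀ l, sl gam n l → gt l * r + y ≤ r'
  s1' : ∀ l, sl gam n l → gt l * r + y ≤ r
  s2 : ∀ l, gr gam n l → r' + y ≤ gt l * r
  s3 : ∀ l, gp gam n l → (gt l - 1) * r + y ≤ r'
  s4 : ∀ l, 1 ≤ l → l ≤ n → 2 * gt l * r + y ≤ r''
  s5 : r' ≤ r''
  s6 : y ≤ a
  s7 : r + r' ≤ r''
  s8 : y ≤ r
  t2 : ∀ l, ab gam n l → ((r + r' : ℕ) : ℝ) + y ≤ gt l * r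

section Kinds

variable {gam : ℕ → ℝ} {n l : ℕ}

theorem gp_n (hn : 1 ≤ n) (h : gam n < 1 + thd gam n) : gp gam n n :=
  ⟨⟨hn, le_rfl, min_le_left _ _⟩, h⟩

theorem ab_gr (h : ab gam n l) : gr gam n l := by
  refine ⟨h.1, h.2.1.le, ?_⟩
  have := h.2.2
  linarith

theorem ab_gp (h : ab gam n l) : ¬ gp gam n l := fun h1 => absurd h1.2 (not_lt.2 h.2.2)

theorem sl_gr (h : sl gam n l) : ¬ gr gam n l := fun h1 => absurd h1.2.2 (not_le.2 h.2.2)

theorem sl_ab (h : sl gam n l) : ¬ ab gam n l := fun h1 => sl_gr h (ab_gr h1)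

/-- The group: proper or above. -/
theorem gr_cases (h : gam n < 1 + thd gam n) (hl : gr gam n l) : gp gam n l ∨ ab gam n l := by
  by_cases h1 : gam l < 1 + thd gam n
  · exact Or.inl ⟨hl, h1⟩
  · refine Or.inr ⟨hl.1, lt_of_le_of_ne hl.2.1 ?_, not_lt.1 h1⟩
    rintro rfl
    exact h1 h

/-- The three kinds. -/
theorem kinds (h : gam n < 1 + thd gam n) (h1 : 1 ≤ l) (h2 : l ≤ n) :
    sl gam n l ∨ gp gam n l ∨ ab gam n l := by
  by_cases h3 : gr gam n l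
  · exact Or.inr (gr_cases h h3)
  · refine Or.inl ⟨h1, lt_of_le_of_ne h2 ?_, ?_⟩
    · rintro rfl
      exact h3 ⟨h1, le_rfl, min_le_left _ _⟩
    · by_contra h4
      exact h3 ⟨h1, h2, not_lt.1 h4⟩

end Kinds

namespace Stp

variable {n : ℕ} {gt gam : ℕ → ℝ} {y r r' r'' a : ℕ}

/-- The coordinates which are not above at `L₃`. -/
theorem t1 (h : Stp n gt gam y r r' r'' a) {l : ℕ} (h1 : 1 ≤ l) (h2 : l ≤ n)
    (hn : gam n < 1 + thd gam n) (hl : ¬ ab gam n l) : gt l * r + y ≤ (r + r' : ℕ) := by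
  push_cast
  have hr : (0 : ℝ) ≤ r := Nat.cast_nonneg r
  rcases kinds hn h1 h2 with h3 | h3 | h3
  · have := h.s1 l h3
    linarith
  · have := h.s3 l h3
    nlinarith
  · exact absurd h3 hl

end Stp

open Classical in
/-- **The geometry of a cell** in a context `bb`, on the event `E`. `S` are the own slopes. All
the windows of length `2 ^ (-w)`, `w₀ + j z ≤ w ≤ w₀ + (j + 1) z`. -/
structure Geo (D : NDat2) (n K' J w₀ z i j r r' r'' : ℕ) (gam : ℕ → ℝ) (C τ : ℝ) (q : D.Ω → ℝ)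
    (E : D.Ω → Prop) (P : D.Γ × D.Γ → ℕ → PN) (S : D.Ω → ℕ → ℕ → ℝ) : Prop where
  -- the frame
  tri : ∀ v, TriN (P v)
  deg : ∀ v l, (P v l).totalDegree ≤ K'
  near : ∀ ω, 0 < q ω → E ω → ∀ i' ≤ i, ∀ l ≤ n,
    nrm (D.g i' j) (1 / 2) (chr (P (bb D i j r ω)) (D.Φ i' j ω l - P (bb D i j r ω) l)) ≤
      exp (C * z) / 2 ^ D.g i' j l ∧
    nrm (D.g (i' - 1) (j - r)) (1 / 2)
      (chr (P (bb D i j r ω)) (D.Φ (i' - 1) (j - r) ω l - P (bb D i j r ω) l)) ≤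
      exp (C * z) / 2 ^ D.g (i' - 1) (j - r) l
  -- bounds
  bz : ∀ ω, 0 < q ω → E ω → ∀ l, 1 ≤ l → l ≤ n → |ze D i j r P ω l| ≤ exp (C * z)
  bt : ∀ ω, 0 < q ω → E ω → ∀ l, 1 ≤ l → l ≤ n → ∀ w, w₀ + j * z ≤ w → w ≤ w₀ + (j + 1) * z →
    |z0 D J w i j r P ω l| ≤ exp (C * z) ∧ |be D J w i j r P ω l| ≤ exp (C * z)
  bS : ∀ ω, 0 < q ω → E ω → ∀ u k, |S ω u k| ≤ exp (C * z)
  tS : ∀ ω, 0 < q ω → E ω → ∀ u k, u ≤ k → S ω u k = 0
  -- the line: slow coordinates are constant, the proper group is affine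
  slow : ∀ ω, 0 < q ω → E ω → ∀ l, sl gam n l → ∀ w, w₀ + j * z ≤ w → w ≤ w₀ + (j + 1) * z →
    |ze D i j r P ω l - z0 D J w i j r P ω l| ≤ τ
  grp : ∀ ω, 0 < q ω → E ω → ∀ l, gp gam n l → ∀ w, w₀ + j * z ≤ w → w ≤ w₀ + (j + 1) * z →
    |ze D i j r P ω l - (z0 D J w i j r P ω l + rt D J w ω * be D J w i j r P ω l)| ≤ τ
  -- the context at `L` knows the slow coordinates and the velocities of the proper group
  left : ∀ ω ω', 0 < q ω → 0 < q ω' → E ω → E ω' → bb D i j r ω = bb D i j r ω' →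
    D.c (i + r') (j - r) ω = D.c (i + r') (j - r) ω' → ∀ w, w₀ + j * z ≤ w →
    w ≤ w₀ + (j + 1) * z → D.T ω / 2 ^ (J - w) = D.T ω' / 2 ^ (J - w) →
    (∀ l, sl gam n l → |z0 D J w i j r P ω l - z0 D J w i j r P ω' l| ≤ τ) ∧
    ∀ l, gp gam n l → |be D J w i j r P ω l - be D J w i j r P ω' l| ≤ τ
  -- the context at `L''` knows the line
  left2 : ∀ ω ω', 0 < q ω → 0 < q ω' → E ω → E ω' → bb D i j r ω = bb D i j r ω' →
    D.c (i + r'') (j - r) ω = D.c (i + r'') (j - r) ω' → ∀ w, w₀ + j * z ≤ w →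
    w ≤ w₀ + (j + 1) * z → D.T ω / 2 ^ (J - w) = D.T ω' / 2 ^ (J - w) →
    ∀ l, 1 ≤ l → l ≤ n → |z0 D J w i j r P ω l - z0 D J w i j r P ω' l| ≤ τ ∧
      |be D J w i j r P ω l - be D J w i j r P ω' l| ≤ τ
  -- the context at `L₃` knows the line, without the coordinates above
  left3 : ∀ ω ω', 0 < q ω → 0 < q ω' → E ω → E ω' → bb D i j r ω = bb D i j r ω' →
    D.c (i + (r + r')) (j - r) ω = D.c (i + (r + r')) (j - r) ω' → ∀ w, w₀ + j * z ≤ w →
    w ≤ w₀ + (j + 1) * z → D.T ω / 2 ^ (J - w) = D.T ω' / 2 ^ (J - w) →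
    ∀ l, 1 ≤ l → l ≤ n → ¬ ab gam n l → |z0 D J w i j r P ω l - z0 D J w i j r P ω' l| ≤ τ ∧
      |be D J w i j r P ω l - be D J w i j r P ω' l| ≤ τ
  -- the label at `R` knows the own sheet
  right : ∀ ω ω', 0 < q ω → 0 < q ω' → E ω → E ω' → bb D i j r ω = bb D i j r ω' →
    D.T ω = D.T ω' → D.s (i - r') (j + r) ω = D.s (i - r') (j + r) ω' →
    ∀ u, gr gam n u → |nn D n i j r gam P S ω u - nn D n i j r gam P S ω' u| ≤ τ ∧
      ∀ k, sl gam n k → |S ω u k - S ω' u k| ≤ τ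
  -- the label at `R''` knows the own slopes
  right2 : ∀ ω ω', 0 < q ω → 0 < q ω' → E ω → E ω' → bb D i j r ω = bb D i j r ω' →
    D.T ω = D.T ω' → D.s (i - r'') (j + r) ω = D.s (i - r'') (j + r) ω' →
    ∀ u, gr gam n u → ∀ k, sl gam n k → |S ω u k - S ω' u k| ≤ τ
  -- the label at `R₃` knows the own sheets of the coordinates above
  right3 : ∀ ω ω', 0 < q ω → 0 < q ω' → E ω → E ω' → bb D i j r ω = bb D i j r ω' →
    D.T ω = D.T ω' → D.s (i - (r + r')) (j + r) ω = D.s (i - (r + r')) (j + r) ω' → ∀ δ : ℝ,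
    0 ≤ δ → (∀ k, 1 ≤ k → k < n → ¬ ab gam n k → |ze D i j r P ω k - ze D i j r P ω' k| ≤ δ) →
    ∀ u, ab gam n u → |ze D i j r P ω u - ze D i j r P ω' u| ≤ exp (C * z) * (δ + τ)
  -- the own sheet at `R` is affine over the slow coordinates
  sheet : ∀ ω, 0 < q ω → E ω → ∀ Bx : ℝ, 1 ≤ Bx → ∀ b : ℕ → ℝ, b 0 = D.X ω 0 →
    (∀ k, sl gam n k → |nat (D.g i j) (P (bb D i j r ω)) b k| ≤ exp (Bx * z)) →
    (∀ u, gr gam n u → b u = eval b (D.Ψ (i - r') (j + r) ω u)) →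
    ∀ u, gr gam n u → |nat (D.g i j) (P (bb D i j r ω)) b u - (nn D n i j r gam P S ω u +
      ∑ k ∈ (range n).filter (sl gam n), S ω u k * nat (D.g i j) (P (bb D i j r ω)) b k)| ≤
      exp (C * Bx * z) * τ
  -- the coordinates over the frame and over the visible labels at `(i, j)`
  toV : ∀ ω ω', 0 < q ω → 0 < q ω' → E ω → E ω' → bb D i j r ω = bb D i j r ω' →
    D.T ω = D.T ω' → ∀ l, 1 ≤ l → l ≤ n → ∀ δ : ℝ, 0 ≤ δ →
    (∀ k, 1 ≤ k → k ≤ l → |ze D i j r P ω k - ze D i j r P ω' k| ≤ δ) →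
    |2 ^ D.g i j l * D.sh i j ω l - 2 ^ D.g i j l * D.sh i j ω' l| ≤ exp (C * z) * δ
  ofV : ∀ ω ω', 0 < q ω → 0 < q ω' → E ω → E ω' → bb D i j r ω = bb D i j r ω' →
    D.T ω = D.T ω' → ∀ l, 1 ≤ l → l ≤ n → ∀ δ : ℝ, 0 ≤ δ →
    (∀ k, 1 ≤ k → k ≤ l →
      |2 ^ D.g i j k * D.sh i j ω k - 2 ^ D.g i j k * D.sh i j ω' k| ≤ δ) →
    |ze D i j r P ω l - ze D i j r P ω' l| ≤ exp (C * z) * δ

end Pool.P4J
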