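import Pool.Agent.H35.P4J.Enum
import Pool.Agent.H35.P4J.Stm
import Pool.Agent.H21.P4.EndB

/-!
# P4J, the last assembly: the statement of the input

`VCellS`: in every cell there is a place with a visible chart. There are two sizes of the family: the
place and its geometry are below `M`, the laws of the cell below `M₂`.
-/

set_option autoImplicit false

namespace Pool.P4J

open Finset Real MvPolynomial Matrix
open Pool.Agent.H49.Ent Pool.Agent.H32.Dense Pool.STK Pool.STAT Pool.MIC.Frm Pool.MIC7 Pool.FRM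
open Pool.GSD
open Pool.BFL (Pb)
open Pool.POT (VCh)
open Pool.LBL (Ld covP)
open Pool.STAT.Glu (kN)
open Pool.P4 hiding Stp Plc Geo LinStmt OwnStmt DepStmt GeoStmt Hyp EntOf H0Stmt H2Stmt YFStmt
  TFStmt NFStmt HsStmt enum_ex VOutD VCellS GfS
  P4XT dig_cell p4x_of lab_cell

/-- The output of a cell. -/
structure VOutD (D : NDat2) (n K K' J a₀ w₀ z M w i j r r' r'' a y X : ℕ) (lam gt gam : ℕ → ℝ)
    (κ C₁ C₀ C : ℝ) (q : D.Ω → ℝ) (E : D.Ω → Prop) (P : D.Γ × D.Γ → ℕ → PN)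
    (S : D.Ω → ℕ → ℕ → ℝ) {c k : ℕ} (ys : Fin k → ℕ) (gs : Fin c → ℕ) (n₀ : Fin c) (B' : ℕ)
    (c0 io s η : ℝ) : Prop where
  hyp : Hyp D n K K' J a₀ w₀ z M w i j r r' r'' y X lam gt gam κ C₁ C q E P S ys gs
  plc : Plc n gt gam y r r' r'' a M i j
  geo : Geo D n K' J w₀ z i j r r' r'' gam C₀ (exp (C₀ * z) / 2 ^ (y * z)) q E P S
  gd : ∀ ω, E ω → 0 < q ω ∧ GoodS D n K' w₀ z M C₀ ω ∧
    FrP D n K' z i j r C₀ (P (bb D i j r ω)) ω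
  okn : ((qh (c := c) (k := k) D J w z i j r X C P S ys gs q).flag E).OkNS X (k + 4) (io * X)
  tm : ((qh (c := c) (k := k) D J w z i j r X C P S ys gs q).flag E).TM X s η
  vch : VCh ((qh (c := c) (k := k) D J w z i j r X C P S ys gs q).flag E) X B' n₀ c0 (io * X)
    (io * X) (2 ^ (io * X)) (fun ω => (E ω, rcd D i j r a ω))
    (yF E (yD z X C (zh D i j r a E P) ys))
    (nF E (nuD z X C (zh D i j r a E P) gs)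
      (qh (c := c) (k := k) D J w z i j r X C P S ys gs q).hgt)
    (MF i j r E (rcd D i j r a) (cMx D J a₀ z i j r a E P gs))

/-- **(VCELL)** In every cell there is a place with a visible chart. -/
def VCellS : Prop :=
  ∀ (n K B : ℕ) (gt gam : ℕ → ℝ) (th C₁ Cs CL h : ℝ) (c k : ℕ) (ys : Fin k → ℕ)
    (gs : Fin c → ℕ) (n₀ : Fin c), 1 ≤ n → 1 ≤ B → Kd n gt gam th → 1 ≤ C₁ → 0 < h → h ≤ 1 →
    (∀ a, sl gam n (ys a)) → Function.Injective ys → (∀ l, sl gam n l → ∃ a, ys a = l) →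
    (∀ u, gp gam n (gs u)) → StrictMono gs → (∀ l, gp gam n l → ∃ u, gs u = l) →
    gs n₀ = n → ∀ F : ℕ → ℝ → ℝ,
    ∃ (K' : ℕ) (C₀ C : ℝ), 1 ≤ C₀ ∧ C₀ ≤ C ∧ F K' C₀ ≤ C ∧ ∀ η : ℝ, 0 < η → ∃ s : ℝ, 0 < s ∧
    ∀ (B' U₀ y₀ : ℕ) (io δ : ℝ), 1 ≤ B' → 0 < io → 0 < δ → 4 * δ ≤ io → 8 * B * δ ≤ h →
    ∃ U y r r' r'' a i j : ℕ, 1 ≤ U ∧ U₀ ≤ U ∧ y₀ ≤ y ∧ ∀ M₀ : ℕ, ∃ M : ℕ, M₀ ≤ M ∧
    ∀ e : ℝ, 0 < e → ∃ (M₂ : ℕ) (κ : ℝ) (z₀ : ℕ), M ≤ M₂ ∧ 0 < κ ∧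
    ∀ (lam : ℕ → ℝ) (J a₀ w₀ z : ℕ) (D : NDat2) (q : D.Ω → ℝ) (ϖ : ℝ),
      (∀ l, 1 ≤ l → l ≤ n → lam l = 1) → z₀ ≤ z → ϖ ≤ 1 →
      D.Ok2 n K J a₀ w₀ z M₂ lam gt κ C₁ q → D.DMA z M₂ κ q → LLC D n z M₂ CL q →
      D.TmU J w₀ z κ q → D.Strt → D.Slp n J z M₂ q → D.NoSl n J w₀ z M₂ 1 Cs κ q →
      D.NF n z M₂ B gt h C₁ ϖ q → NFc D n z M₂ B gt (h + δ) C₁ q →
      ∃ (w : ℕ) (E : D.Ω → Prop) (P : D.Γ × D.Γ → ℕ → PN) (S : D.Ω → ℕ → ℕ → ℝ),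
        Pb q (fun ω => ¬ E ω) ≤ e ∧
        VOutD D n K K' J a₀ w₀ z M w i j r r' r'' a y (B * U * z) lam gt gam κ C₁ C₀ C q E P S
          ys gs n₀ B' (h / (4 * B)) io s η

end Pool.P4J
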