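import Pool.Agent.H35.P4J.Stm
import Pool.Agent.H14.P4J.Stm

/-!
# P4J: the local theorem with two closed contexts, statement
-/

set_option autoImplicit false

namespace Pool.P4J

open Finset Real MvPolynomial
open Pool.Agent.H49.Ent Pool.Agent.H32.Dense Pool.STK Pool.STAT
open Pool.BFL (Pb)
open Pool.P4 (thd sl gr GnL NBT NewLabT NFc NFc1 LLC)

/-- **The local theorem**, in a cell with the additional laws, two closed contexts. -/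
def X2J (n K A B : ℕ) (gt : ℕ → ℝ) (R : ℕ → Prop) (C₁ CL h δ : ℝ) : Prop :=
  ∃ (M Q K' : ℕ) (η' κ ϖ : ℝ) (z₀ : ℕ), 0 < η' ∧ 0 < κ ∧ 0 < ϖ ∧ ϖ ≤ 1 ∧
    ∀ (lam : ℕ → ℝ) (J a₀ w₀ z : ℕ) (D : NDat2) (q : D.Ω → ℝ) (U : GnL D),
      (∀ l, 1 ≤ l → l ≤ n → lam l = 1) → z₀ ≤ z →
      D.Ok2 n K J a₀ w₀ z M lam gt κ C₁ q → D.DMA z M κ q → LLC D n z M CL q →
      D.TmU J w₀ z κ q → D.Strt → D.Slp n J z M q → D.NoSl n J w₀ z M 1 C₁ κ q →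
      D.NF n z M B gt h C₁ ϖ q → NFc D n z M B gt (h + δ) C₁ q → U.Ok n K J a₀ w₀ z M Q R C₁ q →
      ∃ l, 1 ≤ l ∧ l ≤ n ∧ (l = n ∨ R l) ∧ ∃ i ≤ M, ∃ j ≤ M,
        NewLabT D U J a₀ w₀ z Q R i j l A K' η' q

/-- **The reduction to two closed contexts**, statement. -/
def RedJ : Prop :=
  ∀ (n K A B : ℕ) (gt : ℕ → ℝ) (R : ℕ → Prop) (C₁ h δ : ℝ), 1 ≤ n → 1 ≤ B → (∀ l, 0 ≤ gt l) →
    1 ≤ C₁ → (∀ C₂ : ℝ, C₁ ≤ C₂ → ∀ CL : ℝ, X2J n K A B gt R C₂ CL h δ) →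
    P4JT1 n K A B gt R C₁ h δ

/-- **P4J with two closed contexts.** -/
def P4JX : Prop :=
  ∀ (n B : ℕ) (h₀ : ℝ), 1 ≤ n → 1 ≤ B → 0 < h₀ → ∃ δ : ℝ, 0 < δ ∧
    ∀ (K A : ℕ) (gt : ℕ → ℝ) (th : ℝ) (R : ℕ → Prop) (C₁ CL h : ℝ), h₀ ≤ h → h ≤ 1 →
    (∀ l, 0 ≤ gt l) → 1 ≤ th → gt n - 1 < th → th ≤ gt n →
    (∀ l, 1 ≤ l → l < n → gt l < 1 ∨ th ≤ gt l) →
    (∀ l, 1 ≤ l → l < n → gt l < 1 + th → R l) → 1 ≤ C₁ → X2J n K A B gt R C₁ CL h δ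

theorem p4j_of (hr : RedJ) (H : P4JX) : P4JStmt1 := by
  intro n B h₀ hn hB hh₀
  obtain ⟨δ, hδ, H⟩ := H n B h₀ hn hB hh₀
  exact ⟨δ, hδ, fun K A gt th R C₁ h h1 h2 g0 t1 t2 t3 gs gR hC =>
    hr n K A B gt R C₁ h δ hn hB g0 hC fun C₂ hC₂ CL =>
      H K A gt th R C₂ CL h h1 h2 g0 t1 t2 t3 gs gR (hC.trans hC₂)⟩

end Pool.P4J
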