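import Pool.Agent.H35.P4J.Num
import Pool.Agent.H35.P4J.Thin
import Pool.Agent.H65.NFC.Red
import Pool.Agent.H35.P4J.EndS
import Pool.Agent.H35.P4J.H2
import Pool.Agent.H35.P4J.Glue

/-!
# P4J, the last assembly: the theorem

The numbers, events and digits are those of P4 (`Pool.P4`).
-/

set_option autoImplicit false

namespace Pool.P4J

open Finset Real MvPolynomial Matrix
open Pool.Agent.H49.Ent Pool.Agent.H32.Dense Pool.STK Pool.STAT Pool.MIC.Frm Pool.MIC7 Pool.FRM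
open Pool.GSD
open Pool.BFL (Pb)
open Pool.POT (VCh pw pw_pos pw_add pw_le pw_zero one_le_pw pw_inv ex_pw pb_mono)
open Pool.LBL (Ld covP)
open Pool.STAT.Glu (kN)
open Pool.P4 hiding Stp Plc Geo LinStmt OwnStmt DepStmt GeoStmt Hyp EntOf H0Stmt H2Stmt YFStmt
  TFStmt NFStmt HsStmt enum_ex VOutD VCellS GfS P4XT dig_cell p4x_of lab_cell

/-- The digits of the slopes and of the time. -/
theorem dig_cell {D : NDat2} {n K K' J a₀ w₀ z M w i j r r' r'' y X : ℕ} {lam gt gam : ℕ → ℝ}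
    {κ C₁ C : ℝ} {q : D.Ω → ℝ} {E : D.Ω → Prop} {P : D.Γ × D.Γ → ℕ → PN} {S : D.Ω → ℕ → ℕ → ℝ}
    {c k : ℕ} {ys : Fin k → ℕ} {gs : Fin c → ℕ}
    (H : Hyp D n K K' J a₀ w₀ z M w i j r r' r'' y X lam gt gam κ C₁ C q E P S ys gs) {ω : D.Ω}
    (hω : E ω) : (∀ u a, |(Sv D z X C S ys gs ω u a : ℝ) / 2 ^ X -
      exp (-(C * z)) * S ω (gs u) (ys a)| ≤ 1 / 2 ^ X) ∧
      |(tq J w X (D.T ω) : ℝ) - 2 ^ X * rt D J w ω| ≤ 1 :=
  ⟨fun u a => dig_E (H.geo.bS ω (H.gd ω hω).1 hω (gs u) (ys a)),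
    (rt_near (H.ok.X_zero ω) H.wX).2⟩

/-! ### The theorem -/

set_option maxHeartbeats 4000000 in
/-- **The end of P4J**, from the visible charts. -/
theorem p4jx_of (hV : VCellS) : P4JX := by
  intro n B h₀ hn hB hh₀
  classical
  have hBr : (1 : ℝ) ≤ B := by exact_mod_cast hB
  have hc0 : 0 < h₀ / (4 * B) := by positivity
  have HC := fun c k : ℕ => covP (c + 1) k (Fin.last c) (fun i => Fin.le_last i) (h₀ / (4 * B))
    (1 / 2) (1 / 4) 2 hc0 (by norm_num) (by norm_num) (by norm_num) (by norm_num)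
  choose fx2 fp2 fη fio hfx hfp hfη hfio HC using HC
  obtain ⟨δ, hδ, hδ'⟩ := min_pos n fio hfio
  obtain ⟨δ', hδd⟩ : ∃ δ' : ℝ, δ' = min (δ / 4) (h₀ / (8 * B)) := ⟨_, rfl⟩
  have hδ'0 : 0 < δ' := by rw [hδd]; exact lt_min (by positivity) (by positivity)
  have hδ'1 : δ' ≤ δ / 4 := by rw [hδd]; exact min_le_left _ _
  have hδ'2 : 8 * B * δ' ≤ h₀ := by
    have h1 : δ' ≤ h₀ / (8 * B) := by rw [hδd]; exact min_le_right _ _
    rw [le_div_iff₀ (by positivity)] at h1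
    linarith
  refine ⟨δ', hδ'0, ?_⟩
  intro K A gt th R C₁ CL h hh hh1 gt0 th1 t1 t2 hs' gR C1
  obtain ⟨gam, hgam⟩ : ∃ gam : ℕ → ℝ, gam = kf gt th := ⟨_, rfl⟩
  have hKd : Kd n gt gam th := by
    rw [hgam]
    exact kd_kf gt0 th1 t1 t2 hs'
  obtain ⟨c, k, ys, gs, hcn, hkn, y1, y2, y3, g1, g2, g3, g4⟩ := enum_ex n gam hn hKd.gn
  have hδc : δ ≤ fio c k := hδ' c (by omega) k hkn
  have HC := HC c k
  obtain ⟨x2, hx2⟩ : ∃ x2, x2 = fx2 c k := ⟨_, rfl⟩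
  obtain ⟨p2, hp2⟩ : ∃ p2, p2 = fp2 c k := ⟨_, rfl⟩
  obtain ⟨η0, hη0⟩ : ∃ η0, η0 = fη c k := ⟨_, rfl⟩
  obtain ⟨io, hio⟩ : ∃ io, io = fio c k := ⟨_, rfl⟩
  have x20 : 0 < x2 := hx2 ▸ hfx c k
  have p20 : 0 < p2 := hp2 ▸ hfp c k
  have η00 : 0 < η0 := hη0 ▸ hfη c k
  have io0 : 0 < io := hio ▸ hfio c k
  rw [← hx2, ← hp2, ← hη0, ← hio] at HC
  rw [← hio] at hδc
  obtain ⟨x, hx⟩ : ∃ x, x = min x2 (1 / 16) := ⟨_, rfl⟩
  have hx0 : 0 < x := by rw [hx]; exact lt_min x20 (by norm_num)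
  have hxa : x ≤ x2 := by rw [hx]; exact min_le_left _ _
  have hxb : x ≤ 1 / 16 := by rw [hx]; exact min_le_right _ _
  choose FL hFL0 HL using fun (K' : ℕ) (C₀ : ℝ) =>
    lab_cell n K K' (c + 1) k (max C₀ 0) C₁ (le_max_right _ _) (by linarith)
  obtain ⟨K', C₀, C, hC₀, hCC, hF, HV⟩ := hV n K B gt gam th C₁ C₁ CL h (c + 1) k ys gs
    (Fin.last c) hn hB hKd C1 (lt_of_lt_of_le hh₀ hh) hh1 y1 y2 y3 g1 g2 g3 g4 FL
  have e0 : max C₀ 0 = C₀ := max_eq_left (by linarith)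
  obtain ⟨C₂, hC₂'⟩ : ∃ C₂ : ℝ, C₂ = 1 := ⟨_, rfl⟩
  have hC₂ : 1 ≤ C₂ := hC₂'.ge
  obtain ⟨c', hc', HL⟩ := HL K' C₀ C C₂ gt gam hF (by linarith)
  rw [e0] at HL
  obtain ⟨s, hs, HV⟩ := HV η0 η00
  obtain ⟨X0, HC⟩ := HC (k + 4) (by
    have : (0 : ℝ) ≤ k := Nat.cast_nonneg k
    linarith) s hs
  obtain ⟨U1, hU1⟩ := ex_nat (c' + C₂ + A + 7) hx0
  obtain ⟨U2, hU2⟩ := ex_nat (C₂ + c + 6) (x := 1 / 4) (by norm_num)
  obtain ⟨U3, hU3⟩ := ex_nat C₂ io0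
  obtain ⟨U, y, r, r', r'', a, i, j, hUp, hU, -, HV⟩ := HV 2 (max U1 (max U2 U3)) 0 io δ'
    (by norm_num) io0 hδ'0 (by linarith) (hδ'2.trans hh)
  have hU1 := hU1 U ((le_max_left _ _).trans hU)
  have hU2 := hU2 U ((le_max_left _ _).trans ((le_max_right _ _).trans hU))
  have hU3 := hU3 U ((le_max_right _ _).trans ((le_max_right _ _).trans hU))
  obtain ⟨M, -, HV⟩ := HV 0
  obtain ⟨e, he⟩ : ∃ e, e = min η0 p2 / 4 := ⟨_, rfl⟩
  have hmin : 0 < min η0 p2 := lt_min η00 p20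
  have he0 : 0 < e := by rw [he]; positivity
  have he1 : 2 * e ≤ η0 := by
    rw [he]
    have := min_le_left η0 p2
    linarith
  have he2 : 4 * e ≤ p2 := by
    rw [he]
    have := min_le_right η0 p2
    linarith
  obtain ⟨M₂, κ₁, z₁, hMM, hκ₁, HV⟩ := HV e he0
  refine ⟨M₂, B * U, kN (max K K') 2, p2 / 2, κ₁, 1, max z₁ (max X0 1),
    by positivity, hκ₁, one_pos, le_rfl, ?_⟩
  intro lam J a₀ w₀ z D q Ug lam1 hz hO hDM hLLC hTm hSt hSl hNo hNF hNFc hUg₂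
  have hUg := Pool.NFC65.gnL_M hUg₂ hMM le_rfl
  have hz1 : z₁ ≤ z := (le_max_left _ _).trans hz
  have hz3 : X0 ≤ z := (le_max_left _ _).trans ((le_max_right _ _).trans hz)
  have hz4 : 1 ≤ z := (le_max_right _ _).trans ((le_max_right _ _).trans hz)
  have hq := hO.isLaw
  obtain ⟨w, E, P, S, hE, hO2⟩ := HV lam J a₀ w₀ z D q 1 lam1 hz1 le_rfl hO hDM hLLC hTm hSt hSl
    hNo hNF hNFc
  -- all coordinates of the proper group below the target can be gained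
  have hRg : ∀ l : Fin (c + 1), gs l = n ∨ R (gs l) := fun l => by
    have h1 := g1 l
    rcases eq_or_ne (gs l) n with h2 | h2
    · exact Or.inl h2
    · exact Or.inr (gR _ h1.1.1 (lt_of_le_of_ne h1.1.2.1 h2) (hKd.gp_lt _ h1))
  have hem : ∀ g : Fin (c + 1), g ∉ (∅ : Finset (Fin (c + 1))) := fun g => Finset.notMem_empty g
  -- numbers
  have hzr : (1 : ℝ) ≤ z := by exact_mod_cast hz4
  have hXX0 : X0 ≤ B * U * z := by
    have h1 : 1 * 1 * X0 ≤ B * U * z := Nat.mul_le_mul (Nat.mul_le_mul hB hUp) hz3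
    omega
  have hCz : exp (-(C * z)) ≤ 1 := by
    rw [Real.exp_le_one_iff]
    have : 0 ≤ C * z := mul_nonneg (by linarith) (by linarith)
    linarith
  have hyX : (2 : ℝ) ^ (B * U * z) ≤ 2 ^ (y * z) := by
    have h1 := hO2.hyp.yX
    have h2 : 1 ≤ exp (C * z) := Real.one_le_exp (mul_nonneg (by linarith) (by linarith))
    have h3 : (0 : ℝ) < 2 ^ (B * U * z) := by positivity
    nlinarith
  have hF0 : exp (C₂ * z) ≤ pw (B * U * z) io := exp_le_pw hB io0 hU3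
  have heps := eps_le (C₂ := C₂) hyX
  have h34 : (2 : ℝ) ^ (-((1 / 2 + 1 / 4) * ((B * U * z : ℕ) : ℝ))) =
      pw (B * U * z) (-(3 / 4)) := by
    unfold pw
    congr 1
    ring
  have h34' : (2 : ℝ) ^ ((1 / 2 + 1 / 4) * ((B * U * z : ℕ) : ℝ)) = pw (B * U * z) (3 / 4) := by
    unfold pw
    congr 1
    ring
  have hbig : (c + 4) * (exp (C₂ * z) * pw (B * U * z) (-1)) ≤ pw (B * U * z) (-(3 / 4)) := by
    have a1 : exp ((C₂ + c + 6) * z) ≤ pw (B * U * z) (1 / 4) :=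
      exp_le_pw hB (by norm_num) hU2
    have a2 : ((c : ℝ) + 4) * exp (C₂ * z) ≤ exp ((C₂ + c + 6) * z) := by
      have b1 : (c : ℝ) + 4 ≤ exp ((c + 6) * z) := by
        have b2 := Real.add_one_le_exp (((c : ℝ) + 6) * z)
        have b3 : (0 : ℝ) ≤ c := Nat.cast_nonneg c
        nlinarith
      calc ((c : ℝ) + 4) * exp (C₂ * z) ≤ exp ((c + 6) * z) * exp (C₂ * z) :=
            mul_le_mul_of_nonneg_right b1 (exp_pos _).le
        _ = exp ((C₂ + c + 6) * z) := by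
            rw [← exp_add]
            congr 1
            ring
    calc ((c : ℝ) + 4) * (exp (C₂ * z) * pw (B * U * z) (-1)) =
          ((c : ℝ) + 4) * exp (C₂ * z) * pw (B * U * z) (-1) := by ring
      _ ≤ pw (B * U * z) (1 / 4) * pw (B * U * z) (-1) :=
          mul_le_mul_of_nonneg_right (a2.trans a1) (pw_pos _ _).le
      _ = pw (B * U * z) (-(3 / 4)) := by
          rw [pw_add]
          norm_num
  have hcr : (0 : ℝ) ≤ c := Nat.cast_nonneg c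
  have hEp : 0 < exp (C₂ * z) * pw (B * U * z) (-1) := mul_pos (exp_pos _) (pw_pos _ _)
  -- the event
  have hEvP : Pb q (fun ω => ¬ E ω) ≤ 2 * e := by linarith
  have h2X : (0 : ℝ) < 2 ^ (B * U * z) := by positivity
  have hinv : (1 : ℝ) / 2 ^ (B * U * z) = pw (B * U * z) (-1) := by
    rw [← pw_inv, pw_one, one_div]
  -- the covector
  obtain ⟨l, nD, nL, e0', e1', hl, k1, k2, k3, k4⟩ := HC _ (B * U * z) hXX0 hO2.okn hO2.tm _ _ _ _
    (vch_c0 hO2.vch (by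
      rw [div_le_div_iff_of_pos_right (by positivity)]
      exact hh)) (Lt D J w i j r)
    (fun ω => (D.pt ω, nP D J w z i j r a (B * U * z) C E P S ys gs q ω))
    (det_line D J w z i j r (B * U * z) C P S ys gs q E)
    (fun ω ω' _ _ h => (Prod.ext_iff.1 h).2) ∅ (fun _ _ _ => 0) (fun _ _ _ => 0)
    (fun _ _ _ => 0) (fun _ _ _ => 0) E (hem _) (hEvP.trans he1)
    (fun ξ g hg => absurd hg (hem g)) (fun ω _ hω g hg => absurd hg (hem g))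
    (fun ω _ hω g hg => absurd hg (hem g)) (fun x g hg => absurd hg (hem g))
  -- the label
  have hlab := HL D Ug R J a₀ w₀ z M w i j r r' r'' y a (B * U * z) (B * U) A lam κ₁ q E P S ys gs
    hO2.hyp hO2.plc hO2.geo hO2.gd hUg ∅ l (pw (B * U * z) (3 / 4)) (pw (B * U * z) (-x2))
    (exp (C₂ * z) * (1 / 2 ^ (y * z) + 1 / 2 ^ (B * U * z))) (p2 / 2) nD nL e0' e1' (fun _ _ _ => 0)
    (fun _ _ _ => 0) (fun _ _ _ => 0)
    (fun ω => ((∃ rr : Fin (c + 1) → ℝ, (∀ g, |rr g| ≤ 2 ^ ((1 / 2 + 1 / 4) * ((B * U * z : ℕ) : ℝ))) ∧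
      ∀ v, |(nD (D.pt ω, nP D J w z i j r a (B * U * z) C E P S ys gs q ω) ᵥ*
        MF i j r E (rcd D i j r a) (cMx D J a₀ z i j r a E P gs) ω) v -
        nL (Lt D J w i j r ω) v + ∑ g ∈ (∅ : Finset (Fin (c + 1))), rr g * 0| ≤
          2 ^ (-(x2 * ((B * U * z : ℕ) : ℝ)))) ∧
      ∀ u, |∑ v, nL (Lt D J w i j r ω) v *
        ((Sv D z (B * U * z) C S ys gs ω v u : ℝ) / 2 ^ (B * U * z)) -
        e0' (Lt D J w i j r ω) u - e1' (Lt D J w i j r ω) u *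
          (tq J w (B * U * z) (D.T ω) : ℝ)| ≤ 2 ^ (-(x2 * ((B * U * z : ℕ) : ℝ)))) ∧ E ω)
  have hN : ∀ ξ : ℝ, ξ ≤ 2 ^ ((1 / 2 + 1 / 4) * ((B * U * z : ℕ) : ℝ)) →
      ξ ≤ pw (B * U * z) (3 / 4) := fun ξ h => by
    rw [h34'] at h
    exact h
  have hd : ∀ ξ : ℝ, ξ ≤ 2 ^ (-(x2 * ((B * U * z : ℕ) : ℝ))) →
      ξ ≤ pw (B * U * z) (-x2) := fun ξ h => by
    refine h.trans (le_of_eq ?_)
    unfold pw
    rw [neg_mul]
  have hres := hlab hl (one_le_pw (by norm_num)) (pw_pos _ _).le (by positivity)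
    (fun ξ => ⟨(k1 ξ).1, fun v => hN _ ((k1 ξ).2.2 v)⟩)
    (fun ξ => ⟨(k2 ξ).1, fun v => hN _ ((k2 ξ).2 v)⟩)
    (fun ξ u => ⟨hN _ (k3 ξ u).1, hN _ (k3 ξ u).2⟩)
    (fun x g hg => absurd hg (hem g)) (fun x g hg => absurd hg (hem g)) ?_
    (fun ω h => h.2)
    (fun ω h => by
      obtain ⟨rr, r1, r2⟩ := h.1.1
      exact ⟨rr, fun g => hN _ (r1 g), fun v => hd _ (r2 v)⟩)
    (fun ω h u => by
      rw [Int.cast_natCast]
      exact hd _ (h.1.2 u))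
    (fun ω h g hg => absurd hg (hem g)) (fun ω h g hg => absurd hg (hem g))
    (num_le hB hx0 hxb hxa hz4 hC₂ hyX hU1)
  · have hi := hO2.hyp.i2
    exact ⟨gs l, (g1 l).1.1, (g1 l).1.2.1, hRg l, i, by omega, j + 1, by omega, hres.2⟩
  · have h1 := pb_and hq.nonneg (fun ω => ((∃ rr : Fin (c + 1) → ℝ,
        (∀ g, |rr g| ≤ 2 ^ ((1 / 2 + 1 / 4) * ((B * U * z : ℕ) : ℝ))) ∧
        ∀ v, |(nD (D.pt ω, nP D J w z i j r a (B * U * z) C E P S ys gs q ω) ᵥ*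
          MF i j r E (rcd D i j r a) (cMx D J a₀ z i j r a E P gs) ω) v -
          nL (Lt D J w i j r ω) v + ∑ g ∈ (∅ : Finset (Fin (c + 1))), rr g * 0| ≤
            2 ^ (-(x2 * ((B * U * z : ℕ) : ℝ)))) ∧
        ∀ u, |∑ v, nL (Lt D J w i j r ω) v *
          ((Sv D z (B * U * z) C S ys gs ω v u : ℝ) / 2 ^ (B * U * z)) -
          e0' (Lt D J w i j r ω) u - e1' (Lt D J w i j r ω) u *
            (tq J w (B * U * z) (D.T ω) : ℝ)| ≤ 2 ^ (-(x2 * ((B * U * z : ℕ) : ℝ))))) E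
    have h2 : p2 ≤ Pb q (fun ω => ((∃ rr : Fin (c + 1) → ℝ,
        (∀ g, |rr g| ≤ 2 ^ ((1 / 2 + 1 / 4) * ((B * U * z : ℕ) : ℝ))) ∧
        ∀ v, |(nD (D.pt ω, nP D J w z i j r a (B * U * z) C E P S ys gs q ω) ᵥ*
          MF i j r E (rcd D i j r a) (cMx D J a₀ z i j r a E P gs) ω) v -
          nL (Lt D J w i j r ω) v + ∑ g ∈ (∅ : Finset (Fin (c + 1))), rr g * 0| ≤
            2 ^ (-(x2 * ((B * U * z : ℕ) : ℝ)))) ∧
        ∀ u, |∑ v, nL (Lt D J w i j r ω) v *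
          ((Sv D z (B * U * z) C S ys gs ω v u : ℝ) / 2 ^ (B * U * z)) -
          e0' (Lt D J w i j r ω) u - e1' (Lt D J w i j r ω) u *
            (tq J w (B * U * z) (D.T ω) : ℝ)| ≤ 2 ^ (-(x2 * ((B * U * z : ℕ) : ℝ))))) := k4
    linarith

end Pool.P4J
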