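import Pool.Agent.H35.P4J.H2
import Pool.Agent.H89.P4.Hs1

/-!
# P4I: the two directions at a deeper place `(i', j)`
-/

set_option autoImplicit false

namespace Pool.P4J

open Finset Real MvPolynomial
open Pool.Agent.H49.Ent Pool.Agent.H32.Dense Pool.STK Pool.STAT Pool.MIC.Frm Pool.MIC7 Pool.FRM
open Pool.GSD Pool.POT
open Pool.BFL (Pb)
open Pool.P4

section

variable {D : NDat2} {n K K' J a₀ w₀ z M w i j r r' r'' y X : ℕ} {lam gt gam : ℕ → ℝ}
  {κ C₁ C : ℝ} {q : D.Ω → ℝ} {E : D.Ω → Prop} {P : D.Γ × D.Γ → ℕ → PN}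
  {S : D.Ω → ℕ → ℕ → ℝ} {c k : ℕ} {ys : Fin k → ℕ} {gs : Fin c → ℕ}
  (H : Hyp D n K K' J a₀ w₀ z M w i j r r' r'' y X lam gt gam κ C₁ C q E P S ys gs)

include H

theorem Hyp.b0 : 0 ≤ Pb q (fun ω => ¬ E ω) := Pool.MIC.Pb_nonneg H.ok.isLaw.nonneg _

theorem Hyp.xb : 0 ≤ (z : ℝ) + X * Pb q (fun ω => ¬ E ω) := by
  have := H.b0
  positivity

/-- The closed contexts of a deeper radius. -/
theorem Hyp.up {i' : ℕ} (hi : i ≤ i') (hM : i' + r'' < M) {ω ω' : D.Ω} (hω : 0 < q ω)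
    (hω' : 0 < q ω') (e : (D.c (i - 1) (j - r) ω, (D.c i' j ω, D.T ω)) =
      (D.c (i - 1) (j - r) ω', (D.c i' j ω', D.T ω'))) :
    bb D i j r ω = bb D i j r ω' ∧ D.c i' j ω = D.c i' j ω' ∧ D.T ω = D.T ω' := by
  have h1 := (Prod.ext_iff.mp e).1
  have h2 := (Prod.ext_iff.mp e).2
  have h3 := (Prod.ext_iff.mp h2).1
  have h4 := (Prod.ext_iff.mp h2).2
  have j2 := H.j2
  have h5 : D.c i j ω = D.c i j ω' := by
    have := c_up H.ok (j := j) (by omega) i (i' - i) (by omega)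
    rw [show i + (i' - i) = i' by omega] at this
    exact this ω ω' hω hω' h3
  exact ⟨Prod.ext h5 h1, h3, h4⟩

/-- **The direction `(r', r)`.** -/
theorem Hyp.info1 {i' : ℕ} (hi : i ≤ i') (hM : i' + r'' < M) :
    MI q (fun ω => (Sv (c := c) (k := k) D z X C S ys gs ω,
        (qh (c := c) (k := k) D J w z i j r X C P S ys gs q).hgt ω))
      (fun ω => (yv (k := k) D J w z i j r X C P ys ω, bev (c := c) D J w z i j r X C P gs ω))
      (fun ω => (D.c (i - 1) (j - r) ω, (D.c i' j ω, D.T ω))) ≤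
    κ * z + (aC c (13 + 10 * k) (3 + 2 * k) + c * aC k 2 1 + aC k 2 1 + aC c 2 1) *
      (z + X * Pb q (fun ω => ¬ E ω)) := by
  have hq := H.ok.isLaw
  have h0 := hq.nonneg
  obtain ⟨b, hb⟩ : ∃ b, b = Pb q (fun ω => ¬ E ω) := ⟨_, rfl⟩
  rw [← hb]
  obtain ⟨hg, hhg⟩ : ∃ hg : D.Ω → Fin c → ℤ, hg =
    (qh (c := c) (k := k) D J w z i j r X C P S ys gs q).hgt := ⟨_, rfl⟩
  rw [← hhg]
  obtain ⟨W, hW⟩ : ∃ W : D.Ω → D.Γ × ℕ, W = fun ω => (D.c i' j ω, D.T ω) := ⟨_, rfl⟩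
  obtain ⟨β, hβ⟩ : ∃ β : D.Ω → D.Γ, β = D.c (i - 1) (j - r) := ⟨_, rfl⟩
  obtain ⟨L, hL⟩ : ∃ L, L = D.lft i' j r' r 1 := ⟨_, rfl⟩
  obtain ⟨R, hR⟩ : ∃ R, R = D.rgt i' j r' r 1 := ⟨_, rfl⟩
  obtain ⟨sv, hsv⟩ : ∃ sv, sv = Sv (c := c) (k := k) D z X C S ys gs := ⟨_, rfl⟩
  obtain ⟨yy, hyy⟩ : ∃ yy, yy = yv (k := k) D J w z i j r X C P ys := ⟨_, rfl⟩
  obtain ⟨bb', hbb⟩ : ∃ bb', bb' = bev (c := c) D J w z i j r X C P gs := ⟨_, rfl⟩
  rw [← hsv, ← hyy, ← hbb]
  have i1 := H.i1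
  have i2 := H.i2
  have j1 := H.j1
  have j2 := H.j2
  have r1 := H.r1
  -- the two sides
  have dL : Det q L β := by
    intro ω ω' hω hω' e
    rw [hL] at e
    have e1 := congrFun e (1 : Fin 2)
    simp only [NDat2.lft, Fin.val_one, one_mul] at e1
    rw [hβ]
    have := c_up H.ok (j := j - r) (by omega) (i - 1) (i' + r' - (i - 1)) (by omega)
    rw [show i - 1 + (i' + r' - (i - 1)) = i' + r' by omega] at this
    exact this ω ω' hω hω' e1
  have hMI : MI q L R W ≤ κ * z := by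
    have := H.dma.lr (i := i') (j := j) (a := r') (b := r) (s := 1) (s' := 1) (by omega)
      (by omega) (by omega) (by omega)
    unfold MI
    rw [hL, hR, hW]
    linarith
  -- equalities of contexts
  have eqZ : ∀ ω ω', 0 < q ω → 0 < q ω' → (β ω, W ω) = (β ω', W ω') →
      bb D i j r ω = bb D i j r ω' ∧ D.T ω = D.T ω' := by
    intro ω ω' hω hω' e
    rw [hβ, hW] at e
    obtain ⟨e1, e2, e3⟩ := H.up hi hM hω hω' e
    exact ⟨e1, e3⟩
  have eqR : ∀ ω ω', 0 < q ω → 0 < q ω' → (R ω, (β ω, W ω)) = (R ω', (β ω', W ω')) →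
      bb D i j r ω = bb D i j r ω' ∧ D.T ω = D.T ω' ∧
        D.s (i - r') (j + r) ω = D.s (i - r') (j + r) ω' := by
    intro ω ω' hω hω' e
    obtain ⟨e3, e2⟩ := eqZ ω ω' hω hω' (Prod.ext_iff.mp e).2
    have e0 := (Prod.ext_iff.mp e).1
    simp only at e0
    rw [hR] at e0
    have e5 := congrFun e0 (1 : Fin 2)
    simp only [NDat2.rgt, Fin.val_one, one_mul] at e5
    have e6 := c_up H.ok (j := j + r) (by omega) (i - r') (i' - i) (by omega)
    rw [show i - r' + (i' - i) = i' - r' by omega] at e6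
    refine ⟨e3, e2, ?_⟩
    exact H.ok.s_c (i - r') (by omega) (j + r) (by omega) ω ω' hω hω'
      (Prod.ext (e6 ω ω' hω hω' e5) e2)
  have eqL : ∀ ω ω', 0 < q ω → 0 < q ω' → (L ω, (β ω, W ω)) = (L ω', (β ω', W ω')) →
      bb D i j r ω = bb D i j r ω' ∧ D.T ω = D.T ω' ∧
        D.c (i + r') (j - r) ω = D.c (i + r') (j - r) ω' := by
    intro ω ω' hω hω' e
    obtain ⟨e3, e2⟩ := eqZ ω ω' hω hω' (Prod.ext_iff.mp e).2
    have e0 := (Prod.ext_iff.mp e).1
    simp only at e0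
    rw [hL] at e0
    have e5 := congrFun e0 (1 : Fin 2)
    simp only [NDat2.lft, Fin.val_one, one_mul] at e5
    have e6 := c_up H.ok (j := j - r) (by omega) (i + r') (i' - i) (by omega)
    rw [show i + r' + (i' - i) = i' + r' by omega] at e6
    exact ⟨e3, e2, e6 ω ω' hω hω' e5⟩
  -- few values
  have k1 : CH q hg (fun ω => (R ω, (β ω, W ω))) ≤
      aC c (13 + 10 * k) (3 + 2 * k) * (z + X * b) := by
    rw [hb]
    refine few_z hq hg _ E (13 + 10 * k) (3 + 2 * k) H.z1 ?_ ?_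
    · intro ω ω' hω hω' hE hE' e u
      obtain ⟨e1, e2, e3⟩ := eqR ω ω' hω hω' e
      rw [hhg]
      exact H.hgt_two hω hω' hE hE' e1 e2 e3 u
    · intro ω hω u
      have ht : |((tq J w X (D.T ω) : ℕ) : ℤ)| ≤ 2 ^ X := by
        rw [abs_of_nonneg (by positivity)]
        have h1 : tq J w X (D.T ω) < 2 ^ X := by
          unfold tq
          have h2 := H.wX
          rw [Nat.div_lt_iff_lt_mul (by positivity), ← pow_add,
            show X + (J - w - X) = J - w by omega]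
          exact Nat.mod_lt _ (by positivity)
        exact_mod_cast h1.le
      have := hgt_range (k := k) (X := X) (a := dg X (z0 D J w i j r P ω (gs u) / Rg z C))
        (b := dg X (be D J w i j r P ω (gs u) / Rg z C))
        (s := fun a => dg X (S ω (gs u) (ys a) * (2 * Ry z C) / Rg z C))
        (y := fun a => dgp X ((z0 D J w i j r P ω (ys a) + Ry z C) / (2 * Ry z C)))
        (tq := ((tq J w X (D.T ω) : ℕ) : ℤ)) (dg_abs _) (dg_abs _) (fun _ => dg_abs _)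
        (fun _ => dgp_abs _) ht
      rw [Int.cast_natCast] at this
      push_cast
      rw [hhg]
      exact this
  have k2 : CH q sv (fun ω => (R ω, (β ω, W ω))) ≤ c * (aC k 2 1 * (z + X * b)) := by
    refine Pool.RC21.CH_fin_le h0 (fun ω => (R ω, (β ω, W ω))) c (fun u ω => sv ω u) fun u => ?_
    rw [hb]
    refine few_z hq (fun ω => sv ω u) _ E 2 1 H.z1 ?_ ?_
    · intro ω ω' hω hω' hE hE' e a
      obtain ⟨e1, e2, e3⟩ := eqR ω ω' hω hω' e
      rw [hsv]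
      exact H.S_two hω hω' hE hE' e1 e2 e3 u a
    · intro ω hω a
      rw [hsv, Nat.cast_one, one_mul]
      exact dg_abs _
  have k3 : CH q yy (fun ω => (L ω, (β ω, W ω))) ≤ aC k 2 1 * (z + X * b) := by
    rw [hb]
    refine few_z hq yy _ E 2 1 H.z1 ?_ ?_
    · intro ω ω' hω hω' hE hE' e a
      obtain ⟨e1, e2, e3⟩ := eqL ω ω' hω hω' e
      rw [hyy]
      exact (H.v_two hω hω' hE hE' e1 e3 (by rw [e2])).1 a
    · intro ω hω a
      rw [hyy, Nat.cast_one, one_mul]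
      exact dgp_abs _
  have k4 : CH q bb' (fun ω => (L ω, (β ω, W ω))) ≤ aC c 2 1 * (z + X * b) := by
    rw [hb]
    refine few_z hq bb' _ E 2 1 H.z1 ?_ ?_
    · intro ω ω' hω hω' hE hE' e a
      obtain ⟨e1, e2, e3⟩ := eqL ω ω' hω hω' e
      rw [hbb]
      exact (H.v_two hω hω' hE hE' e1 e3 (by rw [e2])).2 a
    · intro ω hω a
      rw [hbb, Nat.cast_one, one_mul]
      exact dg_abs _
  have k5 := CH_subadd h0 sv hg (fun ω => (R ω, (β ω, W ω)))
  have k6 := CH_subadd h0 yy bb' (fun ω => (L ω, (β ω, W ω)))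
  have k7 := sides h0 (fun ω => (sv ω, hg ω)) (fun ω => (yy ω, bb' ω)) L R W β dL hMI
    (k5.trans (add_le_add k2 k1)) (k6.trans (add_le_add k3 k4))
  have e9 : (fun ω => (β ω, W ω)) = fun ω => (D.c (i - 1) (j - r) ω, (D.c i' j ω, D.T ω)) := by
    rw [hβ, hW]
  rw [e9] at k7
  refine k7.trans (le_of_eq ?_)
  ring

/-- The coordinates of the exact point, two samples with the same closed context at `L''`. -/
theorem Hyp.ze_line {ω ω' : D.Ω} (hω : 0 < q ω) (hω' : 0 < q ω') (hE : E ω) (hE' : E ω')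
    (hb : bb D i j r ω = bb D i j r ω')
    (hc : D.c (i + r'') (j - r) ω = D.c (i + r'') (j - r) ω')
    (hT : D.T ω = D.T ω') {l : ℕ} (h1 : 1 ≤ l) (h2 : l ≤ n) (h3 : ¬ ab gam n l) :
    2 ^ X * |ze D i j r P ω l - ze D i j r P ω' l| ≤ 4 := by
  obtain ⟨τ, hτ⟩ : ∃ τ, τ = exp (C * z) / 2 ^ (y * z) := ⟨_, rfl⟩
  have ht := H.tau
  have hg := H.geo
  have hl := hg.left2 ω ω' hω hω' hE hE' hb hc w H.w1 H.w2 (by rw [hT]) l h1 h2
  rw [← hτ] at ht hl hg
  have key : |ze D i j r P ω l - ze D i j r P ω' l| ≤ 4 * τ := by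
    rcases kinds H.gamn h1 h2 with hs | hs | hs
    · have a1 := hg.slow ω hω hE l hs w H.w1 H.w2
      have a2 := hg.slow ω' hω' hE' l hs w H.w1 H.w2
      have a3 := hl.1
      have a0 := (abs_nonneg _).trans a3
      rw [abs_le] at a1 a2 a3 ⊢
      constructor <;> linarith [a1.1, a1.2, a2.1, a2.2, a3.1, a3.2]
    · have a1 := hg.grp ω hω hE l hs w H.w1 H.w2
      have a2 := hg.grp ω' hω' hE' l hs w H.w1 H.w2
      have a3 := hl.1
      have a4 := hl.2
      have hr := (rt_near (D := D) (J := J) (w := w) (X := X) (ω := ω) (H.ok.X_zero ω) H.wX).1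
      have hrr : rt D J w ω' = rt D J w ω := by
        unfold rt t0
        rw [H.ok.X_zero, H.ok.X_zero, hT]
      rw [hrr] at a2
      have a5 : |rt D J w ω * be D J w i j r P ω l - rt D J w ω * be D J w i j r P ω' l| ≤ τ := by
        rw [← mul_sub, abs_mul]
        have a0 := (abs_nonneg _).trans a4
        calc _ ≤ 1 * τ := mul_le_mul hr a4 (abs_nonneg _) (by norm_num)
          _ = τ := one_mul _
      rw [abs_le] at a1 a2 a3 a5 ⊢
      constructor <;> linarith [a1.1, a1.2, a2.1, a2.2, a3.1, a3.2, a5.1, a5.2]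
    · exact absurd hs h3
  calc _ ≤ 2 ^ X * (4 * τ) := mul_le_mul_of_nonneg_left key (by positivity)
    _ = 4 * (2 ^ X * τ) := by ring
    _ ≤ 4 := by linarith

/-- The own slopes, two samples with the same visible label at `R''`. -/
theorem Hyp.S_two2 {ω ω' : D.Ω} (hω : 0 < q ω) (hω' : 0 < q ω') (hE : E ω) (hE' : E ω')
    (hb : bb D i j r ω = bb D i j r ω') (hT : D.T ω = D.T ω')
    (hs : D.s (i - r'') (j + r) ω = D.s (i - r'') (j + r) ω') (u : Fin c) (a : Fin k) :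
    |Sv (c := c) (k := k) D z X C S ys gs ω u a - Sv D z X C S ys gs ω' u a| ≤
      ((2 : ℕ) : ℤ) := by
  have h3 := H.geo.right2 ω ω' hω hω' hE hE' hb hT hs (gs u) (H.gs_gr u) (ys a) (H.ys_sl a)
  have h4 := H.tau
  have hR := Rg_pos z C
  have hRy := Ry_pos z C
  refine dg_lip ?_
  have e1 : S ω (gs u) (ys a) * (2 * Ry z C) / Rg z C - S ω' (gs u) (ys a) * (2 * Ry z C) / Rg z C =
      (S ω (gs u) (ys a) - S ω' (gs u) (ys a)) * (2 * Ry z C / Rg z C) := by ring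
  have e2 : 2 * Ry z C / Rg z C ≤ 1 := by
    rw [div_le_one hR, Rg_eq]
    unfold Ry
    have := H.e1
    nlinarith [Real.exp_pos (C * z)]
  rw [e1, abs_mul, abs_of_pos (by positivity : 0 < 2 * Ry z C / Rg z C)]
  calc 2 ^ X * (|S ω (gs u) (ys a) - S ω' (gs u) (ys a)| * (2 * Ry z C / Rg z C)) ≤
        2 ^ X * ((exp (C * z) / 2 ^ (y * z)) * 1) := by
        refine mul_le_mul_of_nonneg_left ?_ (by positivity)
        exact mul_le_mul h3 e2 (by positivity) (by positivity)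
    _ ≤ 1 := by rwa [mul_one]

/-- **The direction `(r'', r)`**: the own slopes against the exact point. -/
theorem Hyp.info2 {i' : ℕ} (hi : i ≤ i') (hM : i' + r'' < M) {ι : Type} [Fintype ι]
    (g : ι → ℕ) (hgn : ∀ u, 1 ≤ g u ∧ g u ≤ n ∧ ¬ ab gam n (g u)) :
    MI q (Sv (c := c) (k := k) D z X C S ys gs) (zg D z i j r X C P g)
      (fun ω => (D.c (i - 1) (j - r) ω, (D.c i' j ω, D.T ω))) ≤
    κ * z + (c * aC k 2 1 + aE (Fintype.card ι) 5) * (z + X * Pb q (fun ω => ¬ E ω)) := by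
  have hq := H.ok.isLaw
  have h0 := hq.nonneg
  obtain ⟨b, hb⟩ : ∃ b, b = Pb q (fun ω => ¬ E ω) := ⟨_, rfl⟩
  rw [← hb]
  obtain ⟨W, hW⟩ : ∃ W : D.Ω → D.Γ × ℕ, W = fun ω => (D.c i' j ω, D.T ω) := ⟨_, rfl⟩
  obtain ⟨β, hβ⟩ : ∃ β : D.Ω → D.Γ, β = D.c (i - 1) (j - r) := ⟨_, rfl⟩
  obtain ⟨L, hL⟩ : ∃ L, L = D.lft i' j r'' r 1 := ⟨_, rfl⟩
  obtain ⟨R, hR⟩ : ∃ R, R = D.rgt i' j r'' r 1 := ⟨_, rfl⟩
  obtain ⟨sv, hsv⟩ : ∃ sv, sv = Sv (c := c) (k := k) D z X C S ys gs := ⟨_, rfl⟩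
  rw [← hsv]
  have i1 := H.i1
  have i2 := H.i2
  have j1 := H.j1
  have j2 := H.j2
  have r1 := H.r1
  have dL : Det q L β := by
    intro ω ω' hω hω' e
    rw [hL] at e
    have e1 := congrFun e (1 : Fin 2)
    simp only [NDat2.lft, Fin.val_one, one_mul] at e1
    rw [hβ]
    have := c_up H.ok (j := j - r) (by omega) (i - 1) (i' + r'' - (i - 1)) (by omega)
    rw [show i - 1 + (i' + r'' - (i - 1)) = i' + r'' by omega] at this
    exact this ω ω' hω hω' e1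
  have hMI : MI q L R W ≤ κ * z := by
    have := H.dma.lr (i := i') (j := j) (a := r'') (b := r) (s := 1) (s' := 1) (by omega)
      (by omega) (by omega) (by omega)
    unfold MI
    rw [hL, hR, hW]
    linarith
  have eqZ : ∀ ω ω', 0 < q ω → 0 < q ω' → (β ω, W ω) = (β ω', W ω') →
      bb D i j r ω = bb D i j r ω' ∧ D.T ω = D.T ω' := by
    intro ω ω' hω hω' e
    rw [hβ, hW] at e
    obtain ⟨e1, e2, e3⟩ := H.up hi hM hω hω' e
    exact ⟨e1, e3⟩
  have k2 : CH q sv (fun ω => (R ω, (β ω, W ω))) ≤ c * (aC k 2 1 * (z + X * b)) := by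
    refine Pool.RC21.CH_fin_le h0 (fun ω => (R ω, (β ω, W ω))) c (fun u ω => sv ω u) fun u => ?_
    rw [hb]
    refine few_z hq (fun ω => sv ω u) _ E 2 1 H.z1 ?_ ?_
    · intro ω ω' hω hω' hE hE' e a
      obtain ⟨e3, e2⟩ := eqZ ω ω' hω hω' (Prod.ext_iff.mp e).2
      have e0 := (Prod.ext_iff.mp e).1
      simp only at e0
      rw [hR] at e0
      have e5 := congrFun e0 (1 : Fin 2)
      simp only [NDat2.rgt, Fin.val_one, one_mul] at e5
      have e6 := c_up H.ok (j := j + r) (by omega) (i - r'') (i' - i) (by omega)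
      rw [show i - r'' + (i' - i) = i' - r'' by omega] at e6
      rw [hsv]
      exact H.S_two2 hω hω' hE hE' e3 e2 (H.ok.s_c (i - r'') (by omega) (j + r) (by omega) ω ω'
        hω hω' (Prod.ext (e6 ω ω' hω hω' e5) e2)) u a
    · intro ω hω a
      rw [hsv, Nat.cast_one, one_mul]
      exact dg_abs _
  have k3 : CH q (zg D z i j r X C P g) (fun ω => (L ω, (β ω, W ω))) ≤
      aE (Fintype.card ι) 5 * (z + X * b) := by
    rw [hb]
    refine few_exp0 hq _ _ E (by norm_num) H.z1 ?_ ?_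
    · intro ω ω' hω hω' hE hE' e u
      obtain ⟨e3, e2⟩ := eqZ ω ω' hω hω' (Prod.ext_iff.mp e).2
      have e0 := (Prod.ext_iff.mp e).1
      simp only at e0
      rw [hL] at e0
      have e5 := congrFun e0 (1 : Fin 2)
      simp only [NDat2.lft, Fin.val_one, one_mul] at e5
      have e6 := c_up H.ok (j := j - r) (by omega) (i + r'') (i' - i) (by omega)
      rw [show i + r'' + (i' - i) = i' + r'' by omega] at e6
      have e7 := H.ze_line hω hω' hE hE' e3 (e6 ω ω' hω hω' e5) e2 (hgn u).1 (hgn u).2.1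
        (hgn u).2.2
      have hRg := Rg_pos z C
      have hR1 : 1 ≤ Rg z C := H.e1.trans H.exp_le_Rg
      have e8 : 2 ^ X * |ze D i j r P ω (g u) / Rg z C - ze D i j r P ω' (g u) / Rg z C| ≤ 4 := by
        rw [← sub_div, abs_div, abs_of_pos hRg, ← mul_div_assoc]
        rw [div_le_iff₀ hRg]
        linarith
      have e9 := dg_lipR (X := X) (ze D i j r P ω (g u) / Rg z C) (ze D i j r P ω' (g u) / Rg z C)
      have e10 : (5 : ℝ) ≤ exp (5 * z) := le_expz (by norm_num) H.z1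
      unfold zg
      linarith
    · intro ω hω u
      unfold zg
      refine (dg_absR _).trans ((Pool.P4.two_pow_exp X).trans (Real.exp_le_exp.mpr ?_))
      have x0 : (0 : ℝ) ≤ X := Nat.cast_nonneg X
      have z0 : (0 : ℝ) ≤ z := Nat.cast_nonneg z
      linarith
  have k7 := sides h0 sv (zg D z i j r X C P g) L R W β dL hMI k2 k3
  have e9 : (fun ω => (β ω, W ω)) = fun ω => (D.c (i - 1) (j - r) ω, (D.c i' j ω, D.T ω)) := by
    rw [hβ, hW]
  rw [e9] at k7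
  refine k7.trans (le_of_eq ?_)
  ring

end

end Pool.P4J
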