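import Pool.Agent.H35.P4J.NFvB
import Pool.Agent.H98.QW.NfbH

/-!
# P4I: the target is not full, over the visible chart (the field `nf` of `VCh`)

The heights of the coordinates above are not among the visible digits. The target does not know
them: the visible near point is almost independent of the closed context (`hf_vis`), and given the
closed context and the exact time the coordinates above are few bits given the label at `R₃` and
the others (`few_R`), the others and the target few bits given the closed context at `L₃`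
(`few_L`), and the two sides are almost independent.
-/

set_option autoImplicit false

namespace Pool.P4J.V

open Finset Real
open Pool.Agent.H49.Ent Pool.Agent.H32.Dense Pool.STK Pool.STAT Pool.MIC Pool.P4 Pool.P4N
open Pool.MIC.Frm
open Pool.POT
open Pool.BFL (Pb)

section

variable {D : NDat2} {n K K' J a₀ w₀ z M w i j r r' r'' y X : ℕ} {lam gt gam : ℕ → ℝ}
  {κ C₁ C : ℝ} {q : D.Ω → ℝ} {E : D.Ω → Prop} {P : D.Γ × D.Γ → ℕ → PN}
  {S : D.Ω → ℕ → ℕ → ℝ} {c k : ℕ} {ys : Fin k → ℕ} {gs : Fin c → ℕ}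
  {Sg σ : Type} {s : D.Ω → Sg} {zd : D.Ω → ℕ → ℝ} {Cd A₀ : ℝ}
  {N : D.Ω → Fin c → ℤ} {Y : D.Ω → Fin k → ℤ} {Sv : D.Ω → σ}
  {Mx : D.Γ × D.Γ → Sg → Matrix (Fin c) (Fin c) ℝ}
  (H : Hyp D n K K' J a₀ w₀ z M w i j r r' r'' y X lam gt gam κ C₁ C q E P S ys gs)
  (G : DchX D n z i j r X Cd q E P s zd) (T : Cht D z i j r X Cd E P s zd ys gs Mx)
  (V : VisD D z X Cd A₀ q E ys gs s zd N Y Sv) (hCd : 0 ≤ Cd)

include H G T V hCd

/-- **The proper group without the target is full below every depth, given the visible data.** -/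
theorem hs_vis (hA : 0 ≤ A₀) {n₀ : Fin c} (hn : gs n₀ = n) {x : ℕ} (hx : x ≤ X) :
    ((c : ℝ) - 1) * (((X : ℝ) - x) * Real.log 2) -
      (C * z + Real.log 2 + (aE c (5 + (C + 2 * C₁) + A₀) + aE k (3 + (C + 2 * C₁) + A₀) +
        aE (n - k - c) (3 + 2 * C₁) +
        aE (n - 1) (2 + 2 * C₁ + C + kA c C Cd)) * (z + X * Pb q (fun ω => ¬ E ω))) ≤
      CH q (fun ω (u : {u : Fin c // u ≠ n₀}) => N ω u)
        (fun ω => ((fun u => N ω u / 2 ^ (X - x)), (Y ω, Sv ω))) := by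
  classical
  have hq := H.ok.isLaw
  have h0 := hq.nonneg
  obtain ⟨ρ, hρ⟩ : ∃ ρ : ℝ, ρ = z + X * Pb q (fun ω => ¬ E ω) := ⟨_, rfl⟩
  rw [← hρ]
  -- the deeper place
  have z1 := H.z1
  obtain ⟨x₀, hX, hxM⟩ := H.Xz
  obtain ⟨v, hv⟩ : ∃ v, v = x / z := ⟨_, rfl⟩
  have hv1 : v * z ≤ x := by
    rw [hv]
    exact Nat.div_mul_le_self _ _
  have hv2 : x < v * z + z := by
    rw [hv]
    exact Nat.lt_div_mul_add (by omega)
  have hv3 : v ≤ x₀ := by
    have h1 : v * z ≤ x₀ * z := by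
      rw [← hX]
      omega
    exact Nat.le_of_mul_le_mul_right h1 (by omega)
  obtain ⟨U, hU⟩ : ∃ U, x₀ = v + U := ⟨x₀ - v, by omega⟩
  have hUX : (v + U) * z = X := by rw [hX, hU]
  have hUX' : X - v * z = U * z := by
    rw [← hUX, Nat.add_mul]
    omega
  have hM : i + v + r'' < M := by omega
  have j1 := H.j1
  have j2 := H.j2
  -- the variables
  obtain ⟨Z0, hZ0⟩ : ∃ Z0 : D.Ω → D.Γ × (D.Γ × ℕ), Z0 = fun ω =>
    (D.c (i - 1) (j - r) ω, (D.c (i + v) j ω, D.T ω)) := ⟨_, rfl⟩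
  obtain ⟨Z, hZ⟩ : ∃ Z : D.Ω → Prop × (D.Γ × (D.Γ × ℕ)), Z = fun ω =>
    (E ω, (D.c (i - 1) (j - r) ω, (D.c (i + v) j ω, D.T ω))) := ⟨_, rfl⟩
  obtain ⟨N', hN'⟩ : ∃ N' : D.Ω → {u : Fin c // u ≠ n₀} → ℤ, N' =
    fun ω (u : {u : Fin c // u ≠ n₀}) => N ω u := ⟨_, rfl⟩
  obtain ⟨F, hF⟩ : ∃ F : D.Ω → Fin c → ℤ, F = fun ω u => N ω u / 2 ^ (X - x) := ⟨_, rfl⟩
  obtain ⟨Za, hZa⟩ : ∃ Za, Za = zg D z i j r X C P (fun u : ↥(abF gam n) => (u : ℕ)) := ⟨_, rfl⟩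
  have hkc := count_kca H.gamn H.ys_sl H.ys_in H.ys_on H.gs_gp H.gs_in.injective H.gs_on
  have hcb : Fintype.card ↥(abF gam n) = n - k - c := by
    rw [Fintype.card_coe]
    omega
  have eZ : ∀ ω ω', 0 < q ω → 0 < q ω' → Z ω = Z ω' → Sv ω = Sv ω' := by
    intro ω ω' hω hω' e
    rw [hZ] at e
    obtain ⟨f1, f2, f3⟩ := H.up (i' := i + v) (by omega) hM hω hω' (Prod.ext_iff.mp e).2
    exact V.Sd ω ω' hω hω' (Prod.ext (Prod.ext_iff.mp e).1 (G.bs ω ω' hω hω' f1 f3))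
  have m1 : CH q N' (fun ω => (F ω, (Y ω, Z ω))) ≤ CH q N' (fun ω => (F ω, (Y ω, Sv ω))) := by
    refine CH_mono_cond h0 fun ω ω' hω hω' e => ?_
    have e1 := (Prod.ext_iff.mp e).1
    have e2 := (Prod.ext_iff.mp e).2
    exact Prod.ext e1 (Prod.ext (Prod.ext_iff.mp e2).1 (eZ ω ω' hω hω' (Prod.ext_iff.mp e2).2))
  have m2 := CH_le_add h0 N' F (fun ω => (Y ω, Z ω))
  have m3 : CH q F (fun ω => (Y ω, Z ω)) ≤ aE c (5 + (C + 2 * C₁) + A₀) * ρ := by
    have h1 := few1v H G V hCd hA hx hv1 hv2 hM (fun ω => (Y ω, E ω))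
    rw [← hF, ← hρ] at h1
    refine le_trans (CH_mono_cond h0 fun ω ω' hω hω' e => ?_) h1
    have e3 := (Prod.ext_iff.mp e).1
    have e4 := (Prod.ext_iff.mp e).2
    simp only at e4
    rw [hZ] at e4
    exact Prod.ext (Prod.ext e3 (Prod.ext_iff.mp e4).1) (Prod.ext_iff.mp e4).2
  have m4 := CH_chain h0 Y N' Z
  have m4' := CH_chain h0 N' Y Z
  have m5 : CH q Y Z ≤ k * (((U * z : ℕ) : ℝ) * Real.log 2) +
      aE k (3 + (C + 2 * C₁) + A₀) * ρ := by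
    have h1 := few8v H G V hCd hA (v := v) (hv1.trans hx) hM E
    rw [hUX', ← hρ, ← hZ] at h1
    exact h1
  have m6 := CH_le_add h0 (D.vd n (i + v) j (U * z)) (fun ω => ((Y ω, N' ω), Za ω)) Z
  have m6' := CH_subadd h0 (fun ω => (Y ω, N' ω)) Za Z
  have m7 : CH q (D.vd n (i + v) j (U * z)) (fun ω => (((Y ω, N' ω), Za ω), Z ω)) ≤
      aE (n - 1) (2 + 2 * C₁ + C + kA c C Cd) * ρ := by
    have h1 := few6v H G T V hCd hUX hM hn (g := fun u : ↥(abF gam n) => (u : ℕ))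
      (fun l hl => ⟨⟨l, mem_abF.2 hl⟩, rfl⟩) E
    rw [← hρ] at h1
    refine le_trans (CH_mono_cond h0 fun ω ω' hω hω' e => ?_) h1
    have e0 := (Prod.ext_iff.mp e).1
    have e1 := (Prod.ext_iff.mp e0).1
    have e4 : Za ω = Za ω' := (Prod.ext_iff.mp e0).2
    have e2 : Z ω = Z ω' := (Prod.ext_iff.mp e).2
    rw [hZ] at e2
    rw [hZa] at e4
    have e3 : N' ω = N' ω' := (Prod.ext_iff.mp e1).2
    rw [hN'] at e3
    exact Prod.ext (Prod.ext_iff.mp e1).1 (Prod.ext e3 (Prod.ext e4 e2))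
  have m8 : ((n - 1 : ℕ) : ℝ) * (U * z) * Real.log 2 - C * z ≤
      CH q (D.vd n (i + v) j (U * z))
        (fun ω => (D.c (i - 1) (j - r) ω, (D.c (i + v) j ω, D.T ω))) := by
    have i0 := H.i0
    have hUr : U * r ≤ x₀ * r := Nat.mul_le_mul_right r (by omega)
    have hXr := H.Xr x₀ hX
    have h1 := H.llc (i + v) j r U (by omega) j1 (by omega) (by omega)
    refine h1.trans (CH_mono_cond h0 fun ω ω' hω hω' e => ?_)
    have e1 := (Prod.ext_iff.mp e).1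
    have e2 := (Prod.ext_iff.mp e).2
    have h2 := c_up H.ok (j := j - r) (by omega) (i - 1) v (by omega)
    rw [show i - 1 + v = i + v - 1 by omega] at h2
    exact Prod.ext (h2 ω ω' hω hω' e1) e2
  have m9 := CH_le_add h0 (D.vd n (i + v) j (U * z)) E
    (fun ω => (D.c (i - 1) (j - r) ω, (D.c (i + v) j ω, D.T ω)))
  have m10 := CH_prop_le h0 hq.sum_one E
    (fun ω => (D.c (i - 1) (j - r) ω, (D.c (i + v) j ω, D.T ω)))
  have m11 : CH q (D.vd n (i + v) j (U * z))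
      (fun ω => (E ω, (D.c (i - 1) (j - r) ω, (D.c (i + v) j ω, D.T ω)))) =
      CH q (D.vd n (i + v) j (U * z)) Z := by rw [hZ]
  have m12 : CH q (fun ω => (Y ω, N' ω)) Z ≤ CH q (fun ω => (N' ω, Y ω)) Z := by
    refine CH_mono_left h0 ?_
    intro ω ω' _ _ e
    simp only [Prod.mk.injEq] at e ⊢
    exact ⟨e.1.2, e.1.1⟩
  have m13 : CH q Za Z ≤ ((n - k - c : ℕ) : ℝ) * (((U * z : ℕ) : ℝ) * Real.log 2) +
      aE (n - k - c) (3 + 2 * C₁) * ρ := by
    have h1 := H.few9 H.dep (hv1.trans hx) hM (fun u : ↥(abF gam n) => (u : ℕ)) (fun u => by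
      have := mem_abF.1 u.2
      exact ⟨this.1, this.2.1.le⟩)
    rw [hUX', hcb, ← hρ, ← hZa] at h1
    refine le_trans (CH_mono_cond h0 fun ω ω' hω hω' e => ?_) h1
    rw [hZ] at e
    exact (Prod.ext_iff.mp e).2
  -- the sum
  have c1 : 1 ≤ c := by
    have := n₀.2
    omega
  have n1 : ((n - 1 : ℕ) : ℝ) = k + (c - 1) + ((n - k - c : ℕ) : ℝ) := by
    have : n - 1 = k + (c - 1) + (n - k - c) := by omega
    rw [this]
    push_cast [Nat.cast_sub c1]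
    congr 2
  rw [n1] at m8
  have l2 : 0 ≤ Real.log 2 := Real.log_nonneg (by norm_num)
  have c1' : (1 : ℝ) ≤ c := by exact_mod_cast c1
  have hUz : ((U * z : ℕ) : ℝ) = X - v * z := by
    rw [← hUX']
    rw [Nat.cast_sub (hv1.trans hx)]
    push_cast
    ring
  have hxx : (X : ℝ) - x ≤ ((U * z : ℕ) : ℝ) := by
    rw [hUz]
    have : ((v * z : ℕ) : ℝ) ≤ x := by exact_mod_cast hv1
    push_cast at this
    linarith
  have m20 : ((c : ℝ) - 1) * (((X : ℝ) - x) * Real.log 2) ≤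
      ((c : ℝ) - 1) * (((U * z : ℕ) : ℝ) * Real.log 2) :=
    mul_le_mul_of_nonneg_left (mul_le_mul_of_nonneg_right hxx l2) (by linarith)
  obtain ⟨b, hb⟩ : ∃ b : ℝ, b = ((n - k - c : ℕ) : ℝ) := ⟨_, rfl⟩
  rw [← hb] at m8 m13
  have m21 : (k + ((c : ℝ) - 1) + b) * (U * z) * Real.log 2 =
      k * ((U * z : ℕ) * Real.log 2) + ((c : ℝ) - 1) * (((U * z : ℕ) : ℝ) * Real.log 2) +
        b * (((U * z : ℕ) : ℝ) * Real.log 2) := by
    push_cast
    ring
  rw [m21] at m8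
  have goal1 : ((c : ℝ) - 1) * (((X : ℝ) - x) * Real.log 2) -
      (C * z + Real.log 2 + (aE c (5 + (C + 2 * C₁) + A₀) + aE k (3 + (C + 2 * C₁) + A₀) +
        aE (n - k - c) (3 + 2 * C₁) +
        aE (n - 1) (2 + 2 * C₁ + C + kA c C Cd)) * ρ) ≤
      CH q N' (fun ω => (F ω, (Y ω, Sv ω))) := by
    linarith
  rw [hN', hF] at goal1
  exact goal1

/-- **The target does not know the coordinates above**, given the closed context, the exact time,
and the others. -/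
theorem nab (hA : 0 ≤ A₀) {n₀ : Fin c} (hn : gs n₀ = n) :
    MI q (fun ω => N ω n₀) (D.vd n i j X)
      (fun ω => (((fun u : {u : Fin c // u ≠ n₀} => N ω u), Y ω),
        (D.c (i - 1) (j - r) ω, (D.c i j ω, D.T ω)))) ≤
      κ * z + ((aE k (9 + 4 * c + Cd + A₀) + aE c (9 + 4 * c + Cd + A₀)) +
        aE (n - 1) (3 + 2 * C + kT c Cd)) * (z + X * Pb q (fun ω => ¬ E ω)) := by
  have hq := H.ok.isLaw
  have h0 := hq.nonneg
  obtain ⟨W, hW⟩ : ∃ W : D.Ω → D.Γ × ℕ, W = fun ω => (D.c i j ω, D.T ω) := ⟨_, rfl⟩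
  obtain ⟨β, hβ⟩ : ∃ β : D.Ω → D.Γ, β = D.c (i - 1) (j - r) := ⟨_, rfl⟩
  obtain ⟨L, hL⟩ : ∃ L, L = D.lft i j (r + r') r 1 := ⟨_, rfl⟩
  obtain ⟨R, hR⟩ : ∃ R, R = D.rgt i j (r + r') r 1 := ⟨_, rfl⟩
  obtain ⟨Gv, hG⟩ : ∃ Gv : D.Ω → ({u : Fin c // u ≠ n₀} → ℤ) × (Fin k → ℤ), Gv = fun ω =>
    ((fun u : {u : Fin c // u ≠ n₀} => N ω u), Y ω) := ⟨_, rfl⟩
  have i1 := H.i1
  have i2 := H.i2
  have j1 := H.j1
  have j2 := H.j2
  have r2 := H.r2
  have eL : ∀ ω ω', 0 < q ω → 0 < q ω' → L ω = L ω' →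
      D.c (i + (r + r')) (j - r) ω = D.c (i + (r + r')) (j - r) ω' := by
    intro ω ω' _ _ e
    rw [hL] at e
    have e1 := congrFun e (1 : Fin 2)
    simp only [NDat2.lft, Fin.val_one, one_mul] at e1
    exact e1
  have eR : ∀ ω ω', 0 < q ω → 0 < q ω' → R ω = R ω' →
      D.c (i - (r + r')) (j + r) ω = D.c (i - (r + r')) (j + r) ω' := by
    intro ω ω' _ _ e
    rw [hR] at e
    have e1 := congrFun e (1 : Fin 2)
    simp only [NDat2.rgt, Fin.val_one, one_mul] at e1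
    exact e1
  have dL : Det q L β := by
    intro ω ω' hω hω' e
    rw [hβ]
    exact c_up1 H.ok (by omega) i (r + r') (by omega) ω ω' hω hω' (eL ω ω' hω hω' e)
  have hMI : MI q L R W ≤ κ * z := by
    have := H.dma.lr (i := i) (j := j) (a := r + r') (b := r) (s := 1) (s' := 1) (by omega)
      (by omega) (by omega) (by omega)
    unfold MI
    rw [hL, hR, hW]
    linarith
  have k1 := few_L H T V hCd hA L eL
  have k2 := few_R H G T V hCd hn R eR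
  have k1' : CH q (fun ω => (Gv ω, N ω n₀)) (fun ω => (L ω, (β ω, W ω))) ≤
      (aE k (9 + 4 * c + Cd + A₀) + aE c (9 + 4 * c + Cd + A₀)) *
        (z + X * Pb q (fun ω => ¬ E ω)) := by
    rw [hβ, hW]
    refine le_trans (CH_mono_left h0 fun ω ω' _ _ e => ?_) k1
    have e1 := Prod.ext_iff.mp (Prod.ext_iff.mp e).1
    have e2 : Y ω = Y ω' := e1.1
    have e3 : N ω = N ω' := e1.2
    rw [hG]
    refine Prod.ext (Prod.ext ?_ e2) ?_
    · funext u
      exact congrFun e3 u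
    · exact congrFun e3 n₀
  have k2' : CH q (D.vd n i j X) (fun ω => (R ω, (Gv ω, (β ω, W ω)))) ≤
      aE (n - 1) (3 + 2 * C + kT c Cd) * (z + X * Pb q (fun ω => ¬ E ω)) := by
    rw [hG, hβ, hW]
    exact k2
  have k3 := sides2 h0 (fun ω => N ω n₀) (D.vd n i j X) Gv L R W β dL hMI k1' k2'
  rw [hG, hβ, hW] at k3
  refine k3.trans (le_of_eq ?_)
  ring

end

/-- **(NF), visible.** The target is not full, given the rest of the visible near point and the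
visible record. -/
theorem nf_vis {D : NDat2} {n K K' J a₀ w₀ z M w i j r r' r'' y U B : ℕ} {lam gt gam : ℕ → ℝ}
    {κ C₁ C h ϖ Δ : ℝ} {q : D.Ω → ℝ} {E : D.Ω → Prop} {P : D.Γ × D.Γ → ℕ → PN}
    {S : D.Ω → ℕ → ℕ → ℝ} {c k : ℕ} {ys : Fin k → ℕ} {gs : Fin c → ℕ}
    {Sg σ : Type} {s : D.Ω → Sg} {zd : D.Ω → ℕ → ℝ} {Cd A₀ : ℝ}
    {N : D.Ω → Fin c → ℤ} {Y : D.Ω → Fin k → ℤ} {Sv : D.Ω → σ}
    {Mx : D.Γ × D.Γ → Sg → Matrix (Fin c) (Fin c) ℝ}
    (H : Hyp D n K K' J a₀ w₀ z M w i j r r' r'' y (B * U * z) lam gt gam κ C₁ C q E P S ys gs)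
    (G : DchX D n z i j r (B * U * z) Cd q E P s zd)
    (T : Cht D z i j r (B * U * z) Cd E P s zd ys gs Mx)
    (V : VisD D z (B * U * z) Cd A₀ q E ys gs s zd N Y Sv)
    (hCd : 0 ≤ Cd) (hA : 0 ≤ A₀) (hNF : D.NF n z M B gt h C₁ ϖ q) (hB : 1 ≤ B)
    (hϖ : ϖ ≤ 1) {n₀ : Fin c} (hn : gs n₀ = n) (hU : i + U ≤ M)
    (hU' : (U : ℝ) ≤ gt n * (M - j))
    (hF : CH q (fun ω => (Y ω, N ω)) Sv ≤
      CH q (fun ω => (Y ω, N ω)) (fun ω => (cb D J w i j r ω, Sv ω)) + Δ) :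
    CH q (fun ω => N ω n₀)
      (fun ω => ((fun u : {u : Fin c // u ≠ n₀} => N ω u), (Y ω, Sv ω))) ≤
      (1 - h / B) * (B * U * z : ℕ) * Real.log 2 + Δ + (κ * z + C₁ * z + 3 +
        ((aE k (9 + 4 * c + Cd + A₀) + aE c (9 + 4 * c + Cd + A₀)) +
        aE (n - 1) (3 + 2 * C + kT c Cd) +
        aE 1 (2 + A₀)) * (z + (B * U * z : ℕ) * Pb q (fun ω => ¬ E ω))) := by
  classical
  obtain ⟨X, hX⟩ : ∃ X, X = B * U * z := ⟨_, rfl⟩
  rw [← hX] at H G T V ⊢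
  have hp := H.ok.isLaw
  have h0 := hp.nonneg
  have hl0 : 0 < Real.log 2 := Real.log_pos (by norm_num)
  have hl : Real.log 2 < 0.6931471808 := Real.log_two_lt_d9
  have hiM : i ≤ M := by have := H.i2; omega
  have hjM : j ≤ M := by have := H.j2; omega
  have hUX : U * z ≤ X := by
    rw [hX]
    calc U * z = 1 * (U * z) := (one_mul _).symm
      _ ≤ B * (U * z) := Nat.mul_le_mul_right _ hB
      _ = B * U * z := (mul_assoc _ _ _).symm
  obtain ⟨N', hN'⟩ : ∃ N' : D.Ω → {u : Fin c // u ≠ n₀} → ℤ, N' =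
    fun ω (u : {u : Fin c // u ≠ n₀}) => N ω u := ⟨_, rfl⟩
  obtain ⟨W, hW⟩ : ∃ W : D.Ω → ({u : Fin c // u ≠ n₀} → ℤ) × ((Fin k → ℤ) × σ), W = fun ω =>
      (N' ω, (Y ω, Sv ω)) := ⟨_, rfl⟩
  obtain ⟨VX, hVX⟩ : ∃ VX, VX = D.vd n i j X := ⟨_, rfl⟩
  obtain ⟨NN, hNN⟩ : ∃ NN : D.Ω → ℤ, NN = fun ω => N ω n₀ := ⟨_, rfl⟩
  obtain ⟨cbv, hcb⟩ : ∃ cbv : D.Ω → (D.Γ × D.Γ) × ℕ, cbv = cb D J w i j r := ⟨_, rfl⟩
  -- the target given everything
  have a1 := CH_le_add h0 NN (D.nd n i j X) (fun ω => (VX ω, W ω))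
  have a3 : CH q (D.nd n i j X) (fun ω => (VX ω, W ω)) ≤
      CH q (D.nd n i j X) (fun ω => (D.vd n i j X ω, (D.s i j ω, D.T ω))) := by
    refine CH_mono_cond h0 ?_
    intro ω ω' g1 g2 e
    have e1 : VX ω = VX ω' := (Prod.ext_iff.mp e).1
    have e2 : W ω = W ω' := (Prod.ext_iff.mp e).2
    rw [hW] at e2
    rw [hVX] at e1
    have e3 : Sv ω = Sv ω' := (Prod.ext_iff.mp (Prod.ext_iff.mp e2).2).2
    obtain ⟨t1, t2⟩ := G.sT ω ω' g1 g2 (V.dS ω ω' g1 g2 e3)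
    exact Prod.ext e1 (Prod.ext t2 t1)
  have a4 := CH_le_add h0 (D.nd n i j X) (D.nd n i j (U * z))
    (fun ω => (D.vd n i j X ω, (D.s i j ω, D.T ω)))
  have a5 : CH q (D.nd n i j X) (fun ω => (D.nd n i j (U * z) ω,
      (D.vd n i j X ω, (D.s i j ω, D.T ω)))) ≤ ((X - U * z : ℕ) : ℝ) * Real.log 2 := by
    have e1 := CH_one_low hp (D.nd n i j X) (X - U * z)
      (fun ω => (D.vd n i j X ω, (D.s i j ω, D.T ω)))
    have e2 : (fun ω => (D.nd n i j X ω / 2 ^ (X - U * z),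
        (D.vd n i j X ω, (D.s i j ω, D.T ω)))) = (fun ω => (D.nd n i j (U * z) ω,
        (D.vd n i j X ω, (D.s i j ω, D.T ω)))) := by
      funext ω
      have e3 := nd_div D n i j (U * z) (X - U * z) ω
      rw [Nat.add_sub_cancel' hUX] at e3
      rw [e3]
    rw [e2] at e1
    exact e1
  have a6 := CH_le_add h0 (D.nd n i j (U * z)) (D.nd n i j 0)
    (fun ω => (D.vd n i j X ω, (D.s i j ω, D.T ω)))
  have a7 : CH q (D.nd n i j (U * z)) (fun ω => (D.nd n i j 0 ω,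
      (D.vd n i j X ω, (D.s i j ω, D.T ω)))) ≤ (1 - h) * (U * z) * Real.log 2 + C₁ * z := by
    have e1 := hNF i hiM j hjM 0 U (by omega) (by push_cast; linarith) (fun _ => True) (by
      have : Pb q (fun _ : D.Ω => True) = 1 := by
        unfold Pb
        simp only [if_true]
        exact hp.sum_one
      rw [this]
      exact hϖ)
    rw [P4N.cond_true hp] at e1
    simp only [zero_add, zero_mul] at e1
    have e2 : B * (U * z) = X := by rw [hX, mul_assoc]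
    rw [e2] at e1
    exact e1
  have a8 : CH q (D.nd n i j 0) (fun ω => (D.vd n i j X ω, (D.s i j ω, D.T ω))) ≤ 2 := by
    have e1 := CH_le_card h0 hp.sum_one (D.nd n i j 0)
      (fun ω => (D.vd n i j X ω, (D.s i j ω, D.T ω))) (fun _ => Finset.Icc (-1 : ℤ) 1)
      (fun ω hω => by
        have e2 := sh_bd (H.ok.pos i hiM j hjM ω hω n H.n1 le_rfl) 0
        unfold NDat2.nd
        rw [pow_zero] at e2
        have e3 := abs_le.1 e2
        rw [Finset.mem_Icc]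
        constructor
        · exact_mod_cast e3.1
        · exact_mod_cast e3.2)
    refine e1.trans ?_
    rw [Ex_const hp.sum_one]
    have e4 : (Finset.Icc (-1 : ℤ) 1).card = 3 := by decide
    rw [e4]
    have e5 : Real.log ((3 : ℕ) : ℝ) ≤ Real.log (2 ^ 2) :=
      Real.log_le_log (by norm_num) (by norm_num)
    rw [Real.log_pow] at e5
    push_cast at e5 ⊢
    linarith
  have b2 : CH q NN (fun ω => (D.nd n i j X ω, (VX ω, W ω))) ≤
      aE 1 (2 + A₀) * (z + X * Pb q (fun ω => ¬ E ω)) := by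
    have e1 := few_nuD H G V hCd hA hn (fun ω => (N' ω, Y ω))
    rw [← hNN, ← hVX] at e1
    refine le_trans (CH_mono_cond h0 fun ω ω' _ _ e => ?_) e1
    have e2 := Prod.ext_iff.mp e
    have e3 := Prod.ext_iff.mp e2.2
    have e4 : W ω = W ω' := e3.2
    rw [hW] at e4
    have e5 := Prod.ext_iff.mp e4
    have e6 := Prod.ext_iff.mp e5.2
    exact Prod.ext e2.1 (Prod.ext e3.1 (Prod.ext (Prod.ext e5.1 e6.1) e6.2))
  -- the information of the target on the coordinates above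
  have c1 : MI q NN VX W ≤ MI q NN (fun ω => (cbv ω, VX ω)) W :=
    MI_le_right h0 fun ω ω' _ _ e => (Prod.ext_iff.mp (Prod.ext_iff.mp e).1).2
  have c2 := MI_chain h0 NN cbv VX W
  have c3 : MI q NN cbv W ≤ Δ := by
    have d1 : MI q (fun ω => ((N' ω, Y ω), NN ω)) cbv Sv ≤ MI q (fun ω => (Y ω, N ω)) cbv Sv := by
      refine MI_le_left h0 fun ω ω' _ _ e => ?_
      have e1 := Prod.ext_iff.mp (Prod.ext_iff.mp e).1
      have e2 : Y ω = Y ω' := e1.1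
      have e3 : N ω = N ω' := e1.2
      rw [hN', hNN]
      refine Prod.ext (Prod.ext ?_ e2) ?_
      · funext u
        exact congrFun e3 u
      · exact congrFun e3 n₀
    have d2 := MI_chain_left h0 (fun ω => (N' ω, Y ω)) NN cbv Sv
    have d3 := MI_nonneg h0 (fun ω => (N' ω, Y ω)) cbv Sv
    have d4 : MI q NN cbv W = MI q NN cbv (fun ω => ((N' ω, Y ω), Sv ω)) := by
      have e1 : CH q NN W = CH q NN (fun ω => ((N' ω, Y ω), Sv ω)) := by
        refine CH_congr h0 (fun _ _ _ _ h => (Prod.ext_iff.mp h).1)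
          (fun _ _ _ _ h => (Prod.ext_iff.mp h).1) ?_ ?_
        · intro ω ω' _ _ e
          rw [hW] at e
          have e1 := Prod.ext_iff.mp e
          have e2 := Prod.ext_iff.mp e1.2
          exact Prod.ext (Prod.ext e1.1 e2.1) e2.2
        · intro ω ω' _ _ e
          rw [hW]
          have e1 := Prod.ext_iff.mp e
          have e2 := Prod.ext_iff.mp e1.1
          exact Prod.ext e2.1 (Prod.ext e2.2 e1.2)
      have e2 : CH q NN (fun ω => (cbv ω, W ω)) =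
          CH q NN (fun ω => (cbv ω, ((N' ω, Y ω), Sv ω))) := by
        refine CH_congr h0 (fun _ _ _ _ h => (Prod.ext_iff.mp h).1)
          (fun _ _ _ _ h => (Prod.ext_iff.mp h).1) ?_ ?_
        · intro ω ω' _ _ e
          have e0 := Prod.ext_iff.mp e
          have e3 : W ω = W ω' := e0.2
          rw [hW] at e3
          have e1 := Prod.ext_iff.mp e3
          have e2 := Prod.ext_iff.mp e1.2
          exact Prod.ext e0.1 (Prod.ext (Prod.ext e1.1 e2.1) e2.2)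
        · intro ω ω' _ _ e
          have e0 := Prod.ext_iff.mp e
          have e1 := Prod.ext_iff.mp e0.2
          have e2 := Prod.ext_iff.mp e1.1
          rw [hW]
          exact Prod.ext e0.1 (Prod.ext e2.1 (Prod.ext e2.2 e1.2))
      unfold MI
      rw [e1, e2]
    have d5 : MI q (fun ω => (Y ω, N ω)) cbv Sv ≤ Δ := by
      unfold MI
      rw [hcb]
      linarith
    linarith
  have c4 : MI q NN VX (fun ω => (cbv ω, W ω)) ≤ Real.log 2 + (κ * z +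
      ((aE k (9 + 4 * c + Cd + A₀) + aE c (9 + 4 * c + Cd + A₀)) +
        aE (n - 1) (3 + 2 * C + kT c Cd)) * (z + X * Pb q (fun ω => ¬ E ω))) := by
    have d1 := nab H G T V hCd hA hn
    rw [← hNN, ← hVX] at d1
    obtain ⟨Z, hZ⟩ : ∃ Z : D.Ω → (({u : Fin c // u ≠ n₀} → ℤ) × (Fin k → ℤ)) ×
      (D.Γ × (D.Γ × ℕ)), Z = fun ω =>
      (((fun u : {u : Fin c // u ≠ n₀} => N ω u), Y ω),
        (D.c (i - 1) (j - r) ω, (D.c i j ω, D.T ω))) := ⟨_, rfl⟩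
    rw [← hZ] at d1
    have d2 : CH q NN (fun ω => (cbv ω, W ω)) ≤ CH q NN Z := by
      refine CH_mono_cond h0 fun ω ω' g1 g2 e => ?_
      have e0 := Prod.ext_iff.mp e
      have e3 : W ω = W ω' := e0.2
      have e4 : cbv ω = cbv ω' := e0.1
      rw [hW] at e3
      rw [hcb] at e4
      have e1 := Prod.ext_iff.mp e3
      have e2 := Prod.ext_iff.mp e1.2
      have e5 : Sv ω = Sv ω' := e2.2
      have e6 : N' ω = N' ω' := e1.1
      rw [hN'] at e6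
      have e7 : bb D i j r ω = bb D i j r ω' := (Prod.ext_iff.mp e4).1
      have e8 := Prod.ext_iff.mp e7
      obtain ⟨t1, t2⟩ := G.sT ω ω' g1 g2 (V.dS ω ω' g1 g2 e5)
      rw [hZ]
      exact Prod.ext (Prod.ext e6 e2.1) (Prod.ext e8.2 (Prod.ext e8.1 t1))
    have d3 : CH q NN (fun ω => (E ω, (VX ω, Z ω))) ≤
        CH q NN (fun ω => (VX ω, (cbv ω, W ω))) := by
      refine CH_mono_cond h0 fun ω ω' g1 g2 e => ?_
      have e0 := Prod.ext_iff.mp e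
      have e1 := Prod.ext_iff.mp e0.2
      have e2 : Z ω = Z ω' := e1.2
      rw [hZ] at e2
      have e3 := Prod.ext_iff.mp e2
      have e4 := Prod.ext_iff.mp e3.1
      have e5 := Prod.ext_iff.mp e3.2
      have e6 := Prod.ext_iff.mp e5.2
      have e7 : bb D i j r ω = bb D i j r ω' := Prod.ext e6.1 e5.1
      have e8 : D.T ω = D.T ω' := e6.2
      have e9 : Sv ω = Sv ω' := V.Sd ω ω' g1 g2 (Prod.ext e0.1 (G.bs ω ω' g1 g2 e7 e8))
      refine Prod.ext e1.1 (Prod.ext ?_ ?_)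
      · rw [hcb]
        refine Prod.ext e7 ?_
        change D.T ω / 2 ^ (J - w) = D.T ω' / 2 ^ (J - w)
        rw [e8]
      · rw [hW, hN']
        exact Prod.ext e4.1 (Prod.ext e4.2 e9)
    have d4 := CH_le_add h0 NN E (fun ω => (VX ω, Z ω))
    have d5 := CH_prop_le h0 hp.sum_one E (fun ω => (VX ω, Z ω))
    unfold MI at d1 ⊢
    linarith
  have c5 : MI q NN VX W = CH q NN W - CH q NN (fun ω => (VX ω, W ω)) := rfl
  have hsub : ((X - U * z : ℕ) : ℝ) = X - U * z := by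
    rw [Nat.cast_sub hUX]
    push_cast
    ring
  rw [hsub] at a5
  have hBr : (1 : ℝ) ≤ B := by exact_mod_cast hB
  have hXr : (X : ℝ) = B * (U * z) := by
    rw [hX]
    push_cast
    ring
  have hmain : (1 - h) * (U * z) * Real.log 2 + ((X : ℝ) - U * z) * Real.log 2 =
      (1 - h / B) * (X : ℝ) * Real.log 2 := by
    rw [hXr]
    field_simp
    ring
  have goal : CH q NN W ≤ (1 - h / B) * (X : ℝ) * Real.log 2 + Δ + (κ * z + C₁ * z + 3 +
        ((aE k (9 + 4 * c + Cd + A₀) + aE c (9 + 4 * c + Cd + A₀)) +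
        aE (n - 1) (3 + 2 * C + kT c Cd) +
        aE 1 (2 + A₀)) * (z + X * Pb q (fun ω => ¬ E ω))) := by
    linarith
  rw [hNN, hW, hN'] at goal
  exact goal

end Pool.P4J.V

namespace Pool.P4J

open Finset Real
open Pool.Agent.H49.Ent Pool.Agent.H32.Dense Pool.STK Pool.STAT Pool.MIC Pool.P4 Pool.P4N
open Pool.MIC.Frm
open Pool.POT
open Pool.P4J.V
open Pool.QC (nfb)
open Pool.BFL (Pb)

/-- **(NFv)** The field `nf` of the visible chart. `Δ` is the loss of `hf_vis`. -/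
theorem nfv (n K K' c k B B' : ℕ) (C₁ C Cd A₀ : ℝ) (hB : 1 ≤ B) (hB' : 0 < B') (hCd : 0 ≤ Cd)
    (hA : 0 ≤ A₀) : ∃ A : ℝ, 0 ≤ A ∧
    ∀ (D : NDat2) (J a₀ w₀ z M w i j r r' r'' y U : ℕ) (lam gt gam : ℕ → ℝ) (κ h ϖ Δ : ℝ)
      (q : D.Ω → ℝ) (E : D.Ω → Prop) (P : D.Γ × D.Γ → ℕ → PN) (S : D.Ω → ℕ → ℕ → ℝ)
      (ys : Fin k → ℕ) (gs : Fin c → ℕ) (n₀ : Fin c) {Sg σ : Type} (s : D.Ω → Sg)
      (zd : D.Ω → ℕ → ℝ) (Mx : D.Γ × D.Γ → Sg → Matrix (Fin c) (Fin c) ℝ)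
      (N : D.Ω → Fin c → ℤ) (Y : D.Ω → Fin k → ℤ) (Sv : D.Ω → σ),
      Hyp D n K K' J a₀ w₀ z M w i j r r' r'' y (B * U * z) lam gt gam κ C₁ C q E P S ys gs →
      DchX D n z i j r (B * U * z) Cd q E P s zd →
      Cht D z i j r (B * U * z) Cd E P s zd ys gs Mx →
      VisD D z (B * U * z) Cd A₀ q E ys gs s zd N Y Sv →
      D.NF n z M B gt h C₁ ϖ q → ϖ ≤ 1 → gs n₀ = n → i + U ≤ M →
      (U : ℝ) ≤ gt n * (M - j) →
      CH q (fun ω => (Y ω, N ω)) Sv ≤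
        CH q (fun ω => (Y ω, N ω)) (fun ω => (cb D J w i j r ω, Sv ω)) + Δ →
      nfb q N (fun ω => (Y ω, Sv ω)) n₀ (B * U * z) B' ≤
        (1 - h / B) * (B * U * z : ℕ) * Real.log 2 + Δ +
          err A κ z (B * U * z) (Pb q (fun ω => ¬ E ω)) := by
  obtain ⟨A1, hA1⟩ : ∃ A, A = aE c (5 + (|C| + 2 * |C₁|) + A₀) +
    aE k (3 + (|C| + 2 * |C₁|) + A₀) + aE (n - k - c) (3 + 2 * |C₁|) +
    aE (n - 1) (2 + 2 * |C₁| + |C| + kA c |C| Cd) := ⟨_, rfl⟩
  obtain ⟨A2, hA2⟩ : ∃ A, A = (aE k (9 + 4 * c + Cd + A₀) + aE c (9 + 4 * c + Cd + A₀)) +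
    aE (n - 1) (3 + 2 * |C| + kT c Cd) + aE 1 (2 + A₀) := ⟨_, rfl⟩
  have b1 : 0 ≤ A1 := by
    rw [hA1]
    have h1 := aE_nonneg c (A := 5 + (|C| + 2 * |C₁|) + A₀) (by positivity)
    have h2 := aE_nonneg k (A := 3 + (|C| + 2 * |C₁|) + A₀) (by positivity)
    have h3 := aE_nonneg (n - k - c) (A := 3 + 2 * |C₁|) (by positivity)
    have h4 := kA_nonneg c (abs_nonneg C) hCd
    have h5 := aE_nonneg (n - 1) (A := 2 + 2 * |C₁| + |C| + kA c |C| Cd) (by positivity)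
    linarith
  have b2 : 0 ≤ A2 := by
    rw [hA2]
    have h0 := kT_nonneg c hCd
    have h1 := aE_nonneg k (A := 9 + 4 * c + Cd + A₀) (by positivity)
    have h2 := aE_nonneg c (A := 9 + 4 * c + Cd + A₀) (by positivity)
    have h3 := aE_nonneg (n - 1) (A := 3 + 2 * |C| + kT c Cd) (by positivity)
    have h4 := aE_nonneg 1 (A := 2 + A₀) (by positivity)
    linarith
  refine ⟨|C₁| + 4 + A2 + B' * (|C| + 1 + A1), by positivity, ?_⟩
  intro D J a₀ w₀ z M w i j r r' r'' y U lam gt gam κ h ϖ Δ q E P S ys gs n₀ Sg σ s zd Mx N Y Sv H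
    G T V hNF hϖ hn hU hU' hF
  have a1 := nf_vis H G T V hCd hA hNF hB hϖ hn hU hU' hF
  obtain ⟨X, hX⟩ : ∃ X, X = B * U * z := ⟨_, rfl⟩
  rw [← hX] at H G T V a1 ⊢
  have C0 : 0 ≤ C := by linarith [H.Cg]
  have C10 : 0 ≤ C₁ := by linarith [H.C1]
  rw [abs_of_nonneg C0, abs_of_nonneg C10] at hA1
  rw [abs_of_nonneg C0] at hA2
  rw [abs_of_nonneg C10, abs_of_nonneg C0]
  have a2 := Pool.QC98.nfb_of_hs H.ok.isLaw N (fun ω => (Y ω, Sv ω)) n₀ (X := X) (B := B') hB'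
    (fun d hd => hs_vis H G T V hCd hA hn hd)
  rw [← hA1] at a2
  rw [← hA2] at a1
  obtain ⟨b, hb⟩ : ∃ b, b = Pb q (fun ω => ¬ E ω) := ⟨_, rfl⟩
  have hb0 : 0 ≤ b := by
    rw [hb]
    exact H.b0
  rw [← hb] at a1 a2 ⊢
  have z1 : (1 : ℝ) ≤ z := by exact_mod_cast H.z1
  have κ0 := H.κ0
  have x0 : (0 : ℝ) ≤ X := Nat.cast_nonneg X
  have xb : 0 ≤ (X : ℝ) * b := mul_nonneg x0 hb0
  have κz : 0 ≤ κ * z := mul_nonneg κ0 (by linarith)
  have B0 : (0 : ℝ) ≤ B' := Nat.cast_nonneg B'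
  have hl : Real.log 2 < 0.6931471808 := Real.log_two_lt_d9
  unfold err
  have c1 : C * z + Real.log 2 + A1 * (z + X * b) ≤ (C + 1 + A1) * ((1 + κ) * z + X * b) := by
    have h1 : 0 ≤ A1 * (κ * z) := mul_nonneg b1 κz
    have h2 : 0 ≤ C * (κ * z) := mul_nonneg C0 κz
    have h3 : 0 ≤ C * (X * b) := mul_nonneg C0 xb
    nlinarith only [h1, h2, h3, κz, xb, z1, hl]
  have c2 := mul_le_mul_of_nonneg_left c1 B0
  have c3 : κ * z + C₁ * z + 3 + A2 * (z + X * b) ≤ (C₁ + 4 + A2) * ((1 + κ) * z + X * b) := by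
    have h1 : 0 ≤ A2 * (κ * z) := mul_nonneg b2 κz
    have h2 : 0 ≤ C₁ * (κ * z) := mul_nonneg C10 κz
    have h3 : 0 ≤ C₁ * (X * b) := mul_nonneg C10 xb
    nlinarith only [h1, h2, h3, κz, xb, z1]
  linarith

end Pool.P4J
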