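import Pool.Agent.H35.P4J.NFvA
import Pool.Agent.H35.P4J.Hs

/-!
# P4I, the visible digits: few values
-/

set_option autoImplicit false

namespace Pool.P4J.V

open Finset Real
open Pool.Agent.H49.Ent Pool.Agent.H32.Dense Pool.STK Pool.STAT Pool.MIC Pool.P4 Pool.P4N
open Pool.MIC.Frm
open Pool.BFL (Pb)

section

variable {D : NDat2} {n K K' J a₀ w₀ z M w i j r r' r'' y X : ℕ} {lam gt gam : ℕ → ℝ}
  {κ C₁ C : ℝ} {q : D.Ω → ℝ} {E : D.Ω → Prop} {P : D.Γ × D.Γ → ℕ → PN}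
  {S : D.Ω → ℕ → ℕ → ℝ} {c k : ℕ} {ys : Fin k → ℕ} {gs : Fin c → ℕ}
  {Sg σ : Type} {s : D.Ω → Sg} {zd : D.Ω → ℕ → ℝ} {Cd A₀ : ℝ}
  {N : D.Ω → Fin c → ℤ} {Y : D.Ω → Fin k → ℤ} {Sv : D.Ω → σ}
  {Mx : D.Γ × D.Γ → Sg → Matrix (Fin c) (Fin c) ℝ}
  (H : Hyp D n K K' J a₀ w₀ z M w i j r r' r'' y X lam gt gam κ C₁ C q E P S ys gs)
  (G : DchX D n z i j r X Cd q E P s zd) (T : Cht D z i j r X Cd E P s zd ys gs Mx)
  (V : VisD D z X Cd A₀ q E ys gs s zd N Y Sv) (hCd : 0 ≤ Cd)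

include H G V hCd

/-- **(few, 1v)** The first digits of the group, given the deeper context. -/
theorem few1v (hA : 0 ≤ A₀) {x v : ℕ} (hx : x ≤ X) (hv : v * z ≤ x) (hv' : x < v * z + z)
    (hM : i + v + r'' < M) {S' : Type} (B : D.Ω → S') :
    CH q (fun ω (u : Fin c) => N ω u / 2 ^ (X - x))
      (fun ω => (B ω, (D.c (i - 1) (j - r) ω, (D.c (i + v) j ω, D.T ω)))) ≤
      aE c (5 + (C + 2 * C₁) + A₀) * (z + X * Pb q (fun ω => ¬ E ω)) := by
  have hz := H.z1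
  have z1 : (1 : ℝ) ≤ z := by exact_mod_cast hz
  have x0 : (0 : ℝ) ≤ X := Nat.cast_nonneg X
  have C0 : 0 ≤ C + 2 * C₁ := by linarith [H.Cg, H.C1]
  have key := few_exp0 H.ok.isLaw
    (fun ω (u : Fin c) => N ω u / 2 ^ (X - x))
    (fun ω => (B ω, (D.c (i - 1) (j - r) ω, (D.c (i + v) j ω, D.T ω)))) E (A := 5 + (C + 2 * C₁) + A₀) (X := X)
    (by positivity) hz ?_ ?_
  · rwa [Fintype.card_fin] at key
  · intro ω ω' hω hω' hE hE' e u
    obtain ⟨hRy, hRg1, hRg0, hRg⟩ := ry_rg hCd z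
    have e1 := (Prod.ext_iff.mp e).2
    have hu := H.gs_n u
    have h1 := zd_ctx H G (hv.trans hx) hM hω hω' hE hE' e1 hu.1 hu.2
    have h2 := dgR (X := X) (z := z) (C := Cd) (zd ω (gs u)) (zd ω' (gs u))
    have h3 : 2 ^ X / Rg z Cd * |zd ω (gs u) - zd ω' (gs u)| ≤
        2 * exp ((C + 2 * C₁) * z) * 2 ^ (X - v * z) := by
      have h4 : (2 : ℝ) ^ X = 2 ^ (X - v * z) * 2 ^ (v * z) := by
        rw [← pow_add]
        congr 1
        omega
      have h5 : Ry z Cd / Rg z Cd ≤ 1 / 2 := by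
        rw [div_le_iff₀ hRg0]
        linarith
      calc _ ≤ 2 ^ X / Rg z Cd * (Ry z Cd * (4 * (exp ((C + 2 * C₁) * z) / 2 ^ (v * z)))) :=
            mul_le_mul_of_nonneg_left h1 (by positivity)
        _ = (Ry z Cd / Rg z Cd) * (4 * exp ((C + 2 * C₁) * z) * (2 ^ X / 2 ^ (v * z))) := by ring
        _ ≤ (1 / 2) * (4 * exp ((C + 2 * C₁) * z) * (2 ^ X / 2 ^ (v * z))) :=
            mul_le_mul_of_nonneg_right h5 (by positivity)
        _ = 2 * exp ((C + 2 * C₁) * z) * 2 ^ (X - v * z) := by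
            rw [h4, mul_div_assoc, div_self (by positivity)]
            ring
    have h4 := div_lipR (m := X - x) (h2.trans (add_le_add_left h3 1))
    rw [V.nN ω hω hE, V.nN ω' hω' hE']
    unfold nuD
    refine h4.trans ?_
    have h5 : (2 : ℝ) ^ (X - v * z) / 2 ^ (X - x) ≤ 2 ^ z := by
      rw [div_le_iff₀ (by positivity), ← pow_add]
      exact pow_le_pow_right₀ (by norm_num) (by omega)
    have h6 : (1 : ℝ) / 2 ^ (X - x) ≤ 1 := by
      rw [div_le_one (by positivity)]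
      exact one_le_pow₀ (by norm_num)
    have h7 := two_pow_exp z
    have h8 := mul_expz (a := 4) (b := (C + 2 * C₁) + 1) (by norm_num) hz
    have h9 : exp ((C + 2 * C₁ + 1) * z) = exp ((C + 2 * C₁) * z) * exp z := by
      rw [← Real.exp_add]
      congr 1
      ring
    have h10 : (1 : ℝ) ≤ exp z := Real.one_le_exp (by linarith)
    have h11 : 1 ≤ exp ((C + 2 * C₁) * z) := Real.one_le_exp (by positivity)
    have h12 : (1 : ℝ) ≤ exp ((C + 2 * C₁) * z) * exp z := by nlinarith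
    have h13 : exp ((4 + (C + 2 * C₁ + 1)) * z) ≤ exp ((5 + (C + 2 * C₁) + A₀) * z) :=
      Real.exp_le_exp.mpr (by nlinarith)
    have h14 : 2 * exp ((C + 2 * C₁) * z) * 2 ^ (X - v * z) / 2 ^ (X - x) ≤ 2 * (exp ((C + 2 * C₁) * z) * exp z) := by
      calc 2 * exp ((C + 2 * C₁) * z) * 2 ^ (X - v * z) / 2 ^ (X - x) =
          2 * exp ((C + 2 * C₁) * z) * ((2 : ℝ) ^ (X - v * z) / 2 ^ (X - x)) := by ring
        _ ≤ 2 * exp ((C + 2 * C₁) * z) * exp z :=
            mul_le_mul_of_nonneg_left (h5.trans h7) (by positivity)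
        _ = _ := by ring
    rw [h9] at h8
    rw [add_div]
    linarith
  · intro ω hω u
    have h0 : (1 : ℝ) ≤ exp (A₀ * (z + X)) := Real.one_le_exp (by positivity)
    have h1 := div_absR (m := X - x) h0 (V.nB ω hω u)
    have h3 : (2 : ℝ) * exp (A₀ * (z + X)) ≤ exp ((5 + (C + 2 * C₁) + A₀) * (z + X)) := by
      have h4 : (2 : ℝ) ≤ exp 1 := by
        have := Real.add_one_le_exp (1 : ℝ)
        linarith
      calc (2 : ℝ) * exp (A₀ * (z + X)) ≤ exp 1 * exp (A₀ * (z + X)) :=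
            mul_le_mul_of_nonneg_right h4 (Real.exp_pos _).le
        _ = exp (1 + A₀ * (z + X)) := (Real.exp_add _ _).symm
        _ ≤ _ := Real.exp_le_exp.mpr (by nlinarith)
    exact h1.trans h3

/-- **(few, 8v)** The entropy of the slow coordinates, given the deeper context. -/
theorem few8v (hA : 0 ≤ A₀) {v : ℕ} (hx : v * z ≤ X) (hM : i + v + r'' < M) {S' : Type}
    (B : D.Ω → S') :
    CH q Y (fun ω => (B ω, (D.c (i - 1) (j - r) ω, (D.c (i + v) j ω, D.T ω)))) ≤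
      k * (((X - v * z : ℕ) : ℝ) * Real.log 2) +
        aE k (3 + (C + 2 * C₁) + A₀) * (z + X * Pb q (fun ω => ¬ E ω)) := by
  have hz := H.z1
  have z1 : (1 : ℝ) ≤ z := by exact_mod_cast hz
  have x0 : (0 : ℝ) ≤ X := Nat.cast_nonneg X
  have C0 : 0 ≤ C + 2 * C₁ := by linarith [H.Cg, H.C1]
  have key := few_exp H.ok.isLaw Y
    (fun ω => (B ω, (D.c (i - 1) (j - r) ω, (D.c (i + v) j ω, D.T ω)))) E (A := 3 + (C + 2 * C₁) + A₀) (X := X)
    (by positivity) (X - v * z) hz ?_ ?_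
  · rwa [Fintype.card_fin] at key
  · intro ω ω' hω hω' hE hE' e a
    obtain ⟨hRy, hRg1, hRg0, hRg⟩ := ry_rg hCd z
    have e1 := (Prod.ext_iff.mp e).2
    have ha := H.ys_n a
    have h1 := zd_ctx H G hx hM hω hω' hE hE' e1 ha.1 ha.2
    have hR2 : 0 < 2 * Ry z Cd := by linarith
    have h2 := P4N.dgp_lipR (X := X) ((zd ω (ys a) + Ry z Cd) / (2 * Ry z Cd))
      ((zd ω' (ys a) + Ry z Cd) / (2 * Ry z Cd))
    have h2' : (zd ω (ys a) + Ry z Cd) / (2 * Ry z Cd) - (zd ω' (ys a) + Ry z Cd) / (2 * Ry z Cd)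
        = (zd ω (ys a) - zd ω' (ys a)) / (2 * Ry z Cd) := by
      rw [← sub_div]
      congr 1
      ring
    rw [h2', abs_div, abs_of_pos hR2] at h2
    have h3 : (2 : ℝ) ^ X * (|zd ω (ys a) - zd ω' (ys a)| / (2 * Ry z Cd)) ≤
        2 * exp ((C + 2 * C₁) * z) * 2 ^ (X - v * z) := by
      have h4 : (2 : ℝ) ^ X = 2 ^ (X - v * z) * 2 ^ (v * z) := by
        rw [← pow_add]
        congr 1
        omega
      calc _ ≤ 2 ^ X * ((Ry z Cd * (4 * (exp ((C + 2 * C₁) * z) / 2 ^ (v * z)))) / (2 * Ry z Cd)) :=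
            mul_le_mul_of_nonneg_left (div_le_div_of_nonneg_right h1 hR2.le) (by positivity)
        _ = (Ry z Cd / Ry z Cd) * (2 * exp ((C + 2 * C₁) * z) * (2 ^ X / 2 ^ (v * z))) := by ring
        _ = 2 * exp ((C + 2 * C₁) * z) * 2 ^ (X - v * z) := by
            rw [div_self (by positivity), one_mul, h4, mul_div_assoc, div_self (by positivity)]
            ring
    rw [V.yY ω hω hE, V.yY ω' hω' hE']
    unfold yD
    refine h2.trans ?_
    have h5 : (1 : ℝ) ≤ 2 ^ (X - v * z) := one_le_pow₀ (by norm_num)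
    have h11 : 1 ≤ exp ((C + 2 * C₁) * z) := Real.one_le_exp (by positivity)
    have h6 := mul_expz (a := 3) (b := C + 2 * C₁) (by norm_num) hz
    have h7 : exp ((3 + (C + 2 * C₁)) * z) ≤ exp ((3 + (C + 2 * C₁) + A₀) * z) :=
      Real.exp_le_exp.mpr (by nlinarith)
    have h8 : (1 : ℝ) ≤ exp ((C + 2 * C₁) * z) * 2 ^ (X - v * z) := by nlinarith
    have h9 : 3 * exp ((C + 2 * C₁) * z) * 2 ^ (X - v * z) ≤ exp ((3 + (C + 2 * C₁) + A₀) * z) * 2 ^ (X - v * z) :=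
      mul_le_mul_of_nonneg_right (h6.trans h7) (by positivity)
    linarith
  · intro ω hω a
    refine (V.yB ω hω a).trans (Real.exp_le_exp.mpr ?_)
    have : (0 : ℝ) ≤ (3 + (C + 2 * C₁)) * (z + X) := by positivity
    nlinarith

include T

/-- **(few, 6v)** The digits over the visible labels of the deeper place, from the visible
digits and the digits of the coordinates above. -/
theorem few6v {v U : ℕ} (hx : (v + U) * z = X) (hM : i + v + r'' < M) {n₀ : Fin c}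
    (hn : gs n₀ = n) {ι : Type} {g : ι → ℕ} (hg : ∀ l, ab gam n l → ∃ u, g u = l)
    {S' : Type} (B : D.Ω → S') :
    CH q (D.vd n (i + v) j (U * z)) (fun ω => (Y ω, ((fun u : {u : Fin c // u ≠ n₀} => N ω u),
        (zg D z i j r X C P g ω,
        (B ω, (D.c (i - 1) (j - r) ω, (D.c (i + v) j ω, D.T ω))))))) ≤
      aE (n - 1) (2 + 2 * C₁ + C + kA c C Cd) * (z + X * Pb q (fun ω => ¬ E ω)) := by
  have hz := H.z1
  have z1 : (1 : ℝ) ≤ z := by exact_mod_cast hz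
  have x0 : (0 : ℝ) ≤ X := Nat.cast_nonneg X
  have C0 : 0 ≤ C := by linarith [H.Cg]
  have C10 : 0 ≤ C₁ := by linarith [H.C1]
  have hkA := kA_nonneg c C0 hCd
  have key := few_exp0 H.ok.isLaw (D.vd n (i + v) j (U * z))
    (fun ω => (Y ω, ((fun u : {u : Fin c // u ≠ n₀} => N ω u),
        (zg D z i j r X C P g ω,
        (B ω, (D.c (i - 1) (j - r) ω, (D.c (i + v) j ω, D.T ω))))))) E
    (A := 2 + 2 * C₁ + C + kA c C Cd) (X := X) (by positivity) hz ?_ ?_
  · rwa [Fintype.card_fin] at key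
  · intro ω ω' hω hω' hE hE' e l
    have e1 : Y ω = Y ω' := (Prod.ext_iff.mp e).1
    have e2 := (Prod.ext_iff.mp e).2
    have e3 : ∀ u, u ≠ n₀ → N ω u = N ω' u := fun u hu =>
      congrFun (Prod.ext_iff.mp e2).1 ⟨u, hu⟩
    have e5 := (Prod.ext_iff.mp e2).2
    have e6 : zg D z i j r X C P g ω = zg D z i j r X C P g ω' := (Prod.ext_iff.mp e5).1
    have e4 := (Prod.ext_iff.mp (Prod.ext_iff.mp e5).2).2
    obtain ⟨f1, f2, f3⟩ := H.up (i' := i + v) (by omega) hM hω hω' e4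
    have hl : (l : ℕ) + 1 < n := by
      have := l.2
      omega
    have h1 := H.dep.toV (i + v) (by omega) (by omega) ω ω' hω hω' hE hE' f1 f2 f3 (l + 1)
      (by omega) hl.le (exp (kA c C Cd * z) * ((2 : ℝ) ^ X)⁻¹) (by positivity)
      fun k' hk1 hk2 => ze_lowA H G T V hCd hω hω' hE hE' f1 f3 hn e3 e1 hg e6 hk1 (by omega)
    rw [← mul_sub, abs_mul, abs_of_pos (by positivity : (0 : ℝ) < 2 ^ D.g i j (l + 1))] at h1
    obtain ⟨d, hd⟩ : ∃ d, d = |D.sh (i + v) j ω (l + 1) - D.sh (i + v) j ω' (l + 1)| := ⟨_, rfl⟩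
    rw [← hd] at h1
    have hh1 := H.ok.hom (i + v) (by omega) j (by have := H.j2; omega) (l + 1) (by omega) hl.le
    have hh2 := H.ok.hom i (by omega) j (by have := H.j2; omega) (l + 1) (by omega) hl.le
    rw [H.lam1 _ (by omega) hl.le] at hh1 hh2
    have hgg : ((D.g (i + v) j (l + 1) + U * z : ℕ) : ℝ) ≤
        D.g i j (l + 1) + X + 2 * C₁ * z := by
      have hX' : (X : ℝ) = (v + U) * z := by
        rw [← hx]
        push_cast
        ring
      rw [abs_le] at hh1 hh2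
      push_cast at hh1 hh2 ⊢
      rw [hX']
      linarith [hh1.1, hh1.2, hh2.1, hh2.2]
    have h2 : (2 : ℝ) ^ (D.g (i + v) j (l + 1) + U * z) ≤
        2 ^ D.g i j (l + 1) * 2 ^ X * exp (2 * C₁ * z) := by
      have l2 : 0 ≤ Real.log 2 := Real.log_nonneg (by norm_num)
      have l1 : Real.log 2 ≤ 1 := by
        have := Real.log_le_sub_one_of_pos (by norm_num : (0 : ℝ) < 2)
        linarith
      have g0 : 0 ≤ 2 * C₁ * z := by positivity
      have m1 := mul_le_mul_of_nonneg_right hgg l2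
      have e0 : ∀ m : ℕ, (2 : ℝ) ^ m = exp (m * Real.log 2) := by
        intro m
        rw [← Real.log_pow, Real.exp_log (by positivity)]
      rw [e0, e0 (D.g i j (l + 1)), e0 X, ← Real.exp_add, ← Real.exp_add]
      refine Real.exp_le_exp.mpr (m1.trans ?_)
      nlinarith
    have h3 : (2 : ℝ) ^ (D.g (i + v) j (l + 1) + U * z) * d ≤
        exp ((2 * C₁ + C + kA c C Cd) * z) := by
      have d0 : 0 ≤ d := by
        rw [hd]
        exact abs_nonneg _
      calc _ ≤ 2 ^ D.g i j (l + 1) * 2 ^ X * exp (2 * C₁ * z) * d :=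
            mul_le_mul_of_nonneg_right h2 d0
        _ = 2 ^ X * exp (2 * C₁ * z) * (2 ^ D.g i j (l + 1) * d) := by ring
        _ ≤ 2 ^ X * exp (2 * C₁ * z) *
            (exp (C * z) * (exp (kA c C Cd * z) * ((2 : ℝ) ^ X)⁻¹)) :=
            mul_le_mul_of_nonneg_left h1 (by positivity)
        _ = exp (2 * C₁ * z) * exp (C * z) * exp (kA c C Cd * z) := by
            field_simp
        _ = exp ((2 * C₁ + C + kA c C Cd) * z) := by
            rw [add_mul, add_mul, Real.exp_add, Real.exp_add]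
    have h4 : |(2 : ℝ) ^ (D.g (i + v) j (l + 1) + U * z) * D.sh (i + v) j ω (l + 1) -
        2 ^ (D.g (i + v) j (l + 1) + U * z) * D.sh (i + v) j ω' (l + 1)| ≤
        exp ((2 * C₁ + C + kA c C Cd) * z) := by
      rw [← mul_sub, abs_mul, abs_of_pos (by positivity), ← hd]
      exact h3
    have h5 := floor_near h4
    push_cast at h5
    unfold NDat2.vd
    have h6 : (1 : ℝ) ≤ exp ((2 * C₁ + C + kA c C Cd) * z) := Real.one_le_exp (by positivity)
    have h7 := mul_expz (a := 2) (b := 2 * C₁ + C + kA c C Cd) (by norm_num) hz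
    rw [show 2 + 2 * C₁ + C + kA c C Cd = 2 + (2 * C₁ + C + kA c C Cd) by ring]
    linarith
  · intro ω hω l
    have hl : (l : ℕ) + 1 < n := by
      have := l.2
      omega
    have h1 := sh_bd (H.ok.pos (i + v) (by omega) j (by have := H.j2; omega) ω hω (l + 1)
      (by omega) hl.le) (U * z)
    unfold NDat2.vd
    refine h1.trans ?_
    have h4 : (2 : ℝ) ^ (U * z) ≤ 2 ^ X := by
      refine pow_le_pow_right₀ (by norm_num) ?_
      rw [← hx]
      exact Nat.mul_le_mul_right _ (by omega)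
    refine h4.trans ((Pool.P4.two_pow_exp X).trans (Real.exp_le_exp.mpr ?_))
    have h7 : 0 ≤ 1 + 2 * C₁ + C + kA c C Cd := by positivity
    have h8 : (0 : ℝ) ≤ z + X := by positivity
    have h9 : 0 ≤ (1 + 2 * C₁ + C + kA c C Cd) * ((z : ℝ) + X) := mul_nonneg h7 h8
    linarith

/-- **(few, R)** The digits of the base over the visible labels, from the visible digits and the
label at `R₃`. -/
theorem few_R {n₀ : Fin c} (hn : gs n₀ = n) {S' : Type} (R : D.Ω → S')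
    (hR : ∀ ω ω', 0 < q ω → 0 < q ω' → R ω = R ω' →
      D.c (i - (r + r')) (j + r) ω = D.c (i - (r + r')) (j + r) ω') :
    CH q (D.vd n i j X) (fun ω => (R ω, (((fun u : {u : Fin c // u ≠ n₀} => N ω u), Y ω),
      (D.c (i - 1) (j - r) ω, (D.c i j ω, D.T ω))))) ≤
      aE (n - 1) (3 + 2 * C + kT c Cd) * (z + X * Pb q (fun ω => ¬ E ω)) := by
  have hz := H.z1
  have z1 : (1 : ℝ) ≤ z := by exact_mod_cast hz
  have x0 : (0 : ℝ) ≤ X := Nat.cast_nonneg X
  have C0 : 0 ≤ C := by linarith [H.Cg]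
  have hkT := kT_nonneg c hCd
  have i1 := H.i1
  have i2 := H.i2
  have j2 := H.j2
  have r2 := H.r2
  have key := few_exp0 H.ok.isLaw (D.vd n i j X)
    (fun ω => (R ω, (((fun u : {u : Fin c // u ≠ n₀} => N ω u), Y ω),
      (D.c (i - 1) (j - r) ω, (D.c i j ω, D.T ω))))) E
    (A := 3 + 2 * C + kT c Cd) (X := X) (by positivity) hz ?_ ?_
  · rwa [Fintype.card_fin] at key
  · intro ω ω' hω hω' hE hE' e l
    have e0 := (Prod.ext_iff.mp e).2
    have e1 : ∀ u, u ≠ n₀ → N ω u = N ω' u := fun u hu =>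
      congrFun (Prod.ext_iff.mp (Prod.ext_iff.mp e0).1).1 ⟨u, hu⟩
    have e2 : Y ω = Y ω' := (Prod.ext_iff.mp (Prod.ext_iff.mp e0).1).2
    have e3 := (Prod.ext_iff.mp e0).2
    have f3 : D.T ω = D.T ω' := (Prod.ext_iff.mp (Prod.ext_iff.mp e3).2).2
    have f1 : bb D i j r ω = bb D i j r ω' :=
      Prod.ext (Prod.ext_iff.mp (Prod.ext_iff.mp e3).2).1 (Prod.ext_iff.mp e3).1
    have e4 := hR ω ω' hω hω' (Prod.ext_iff.mp e).1
    have e5 : D.s (i - (r + r')) (j + r) ω = D.s (i - (r + r')) (j + r) ω' :=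
      H.ok.s_c (i - (r + r')) (by omega) (j + r) (by omega) ω ω' hω hω' (Prod.ext e4 f3)
    have hl : (l : ℕ) + 1 < n := by
      have := l.2
      omega
    have hpX : (0 : ℝ) < 2 ^ X := by positivity
    have hE1 := H.e1
    have ekT : 1 ≤ exp (kT c Cd * z) := Real.one_le_exp (by positivity)
    have low : ∀ l, 1 ≤ l → l < n → ¬ ab gam n l → |ze D i j r P ω l - ze D i j r P ω' l| ≤
        exp (kT c Cd * z) * ((2 : ℝ) ^ X)⁻¹ := fun l h1 h2 h3 =>
      ze_low H G T V hCd hω hω' hE hE' f1 f3 hn e1 e2 h1 h2 h3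
    have hab := H.geo.right3 ω ω' hω hω' hE hE' f1 f3 e5 (exp (kT c Cd * z) * ((2 : ℝ) ^ X)⁻¹)
      (by positivity) low
    have ht := H.tau
    obtain ⟨τ, hτ⟩ : ∃ τ, τ = exp (C * z) / 2 ^ (y * z) := ⟨_, rfl⟩
    rw [← hτ] at ht hab
    have hτ1 : τ ≤ ((2 : ℝ) ^ X)⁻¹ := by
      rw [← one_div, le_div_iff₀ hpX]
      linarith
    have all : ∀ l, 1 ≤ l → l < n → |ze D i j r P ω l - ze D i j r P ω' l| ≤
        2 * (exp (C * z) * exp (kT c Cd * z)) * ((2 : ℝ) ^ X)⁻¹ := by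
      intro l h1 h2
      have hi : (0 : ℝ) < ((2 : ℝ) ^ X)⁻¹ := by positivity
      by_cases h3 : ab gam n l
      · refine (hab l h3).trans ?_
        have g1 : exp (kT c Cd * z) * ((2 : ℝ) ^ X)⁻¹ + τ ≤
            2 * exp (kT c Cd * z) * ((2 : ℝ) ^ X)⁻¹ := by nlinarith
        calc _ ≤ exp (C * z) * (2 * exp (kT c Cd * z) * ((2 : ℝ) ^ X)⁻¹) :=
              mul_le_mul_of_nonneg_left g1 (exp_pos _).le
          _ = _ := by ring
      · refine (low l h1 h2 h3).trans (mul_le_mul_of_nonneg_right ?_ hi.le)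
        nlinarith [mul_nonneg (show 0 ≤ exp (C * z) - 1 by linarith)
          (show 0 ≤ exp (kT c Cd * z) by positivity)]
    have h1 := H.geo.toV ω ω' hω hω' hE hE' f1 f3 (l + 1) (by omega) hl.le
      (2 * (exp (C * z) * exp (kT c Cd * z)) * ((2 : ℝ) ^ X)⁻¹) (by positivity)
      fun k' hk1 hk2 => all k' hk1 (by omega)
    unfold NDat2.vd
    have h2 := fl_sub (2 ^ (D.g i j (l + 1) + X) * D.sh i j ω (l + 1))
      (2 ^ (D.g i j (l + 1) + X) * D.sh i j ω' (l + 1))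
    have h3 : (2 : ℝ) ^ (D.g i j (l + 1) + X) * D.sh i j ω (l + 1) -
        2 ^ (D.g i j (l + 1) + X) * D.sh i j ω' (l + 1) =
        2 ^ X * (2 ^ D.g i j (l + 1) * D.sh i j ω (l + 1) -
          2 ^ D.g i j (l + 1) * D.sh i j ω' (l + 1)) := by
      rw [pow_add]
      ring
    rw [h3, abs_mul, abs_of_pos hpX] at h2
    push_cast at h2
    have h4 := mul_le_mul_of_nonneg_left h1 hpX.le
    have h5 : (2 : ℝ) ^ X * (exp (C * z) * (2 * (exp (C * z) * exp (kT c Cd * z)) *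
        ((2 : ℝ) ^ X)⁻¹)) = 2 * exp ((2 * C + kT c Cd) * z) := by
      have e6 : exp ((2 * C + kT c Cd) * z) = exp (C * z) * (exp (C * z) * exp (kT c Cd * z)) := by
        rw [← Real.exp_add, ← Real.exp_add]
        congr 1
        ring
      rw [e6]
      field_simp
    rw [h5] at h4
    have h7 := mul_expz (a := 3) (b := 2 * C + kT c Cd) (by norm_num) hz
    have h8 : (1 : ℝ) ≤ exp ((2 * C + kT c Cd) * z) := Real.one_le_exp (by positivity)
    rw [show 3 + 2 * C + kT c Cd = 3 + (2 * C + kT c Cd) by ring]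
    linarith
  · intro ω hω l
    have hl : (l : ℕ) + 1 < n := by
      have := l.2
      omega
    have h1 := sh_bd (H.ok.pos i (by omega) j (by omega) ω hω (l + 1) (by omega) hl.le) X
    unfold NDat2.vd
    refine h1.trans ((Pool.P4.two_pow_exp X).trans (Real.exp_le_exp.mpr ?_))
    have h8 : (0 : ℝ) ≤ z + X := by positivity
    have h9 : 0 ≤ (2 + 2 * C + kT c Cd) * ((z : ℝ) + X) := mul_nonneg (by positivity) h8
    linarith

omit G in
/-- **(few, L)** The visible digits, from the closed context at `L₃`. -/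
theorem few_L (hA : 0 ≤ A₀) {S' : Type} (L : D.Ω → S')
    (hL : ∀ ω ω', 0 < q ω → 0 < q ω' → L ω = L ω' →
      D.c (i + (r + r')) (j - r) ω = D.c (i + (r + r')) (j - r) ω') :
    CH q (fun ω => (Y ω, N ω)) (fun ω => (L ω,
      (D.c (i - 1) (j - r) ω, (D.c i j ω, D.T ω)))) ≤
      (aE k (9 + 4 * c + Cd + A₀) + aE c (9 + 4 * c + Cd + A₀)) *
        (z + X * Pb q (fun ω => ¬ E ω)) := by
  have hz := H.z1
  have z1 : (1 : ℝ) ≤ z := by exact_mod_cast hz
  have x0 : (0 : ℝ) ≤ X := Nat.cast_nonneg X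
  have h0 := H.ok.isLaw.nonneg
  have c0 : (0 : ℝ) ≤ c := Nat.cast_nonneg c
  have hpX : (0 : ℝ) < 2 ^ X := by positivity
  have hpi : (2 : ℝ) ^ X * ((2 : ℝ) ^ X)⁻¹ = 1 := mul_inv_cancel₀ hpX.ne'
  obtain ⟨hRy, hRg1, hRg0, hRg⟩ := ry_rg hCd z
  have bd : exp (A₀ * (z + X)) ≤ exp ((9 + 4 * c + Cd + A₀) * (z + X)) := by
    refine Real.exp_le_exp.mpr ?_
    have : 0 ≤ (9 + 4 * c + Cd) * ((z : ℝ) + X) := by positivity
    linarith
  have near : ∀ ω ω', 0 < q ω → 0 < q ω' → E ω → E ω' →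
      (L ω, (D.c (i - 1) (j - r) ω, (D.c i j ω, D.T ω))) =
        (L ω', (D.c (i - 1) (j - r) ω', (D.c i j ω', D.T ω'))) →
      (∀ a, |zd ω (ys a) - zd ω' (ys a)| ≤ (8 + 4 * c) * Ry z Cd * ((2 : ℝ) ^ X)⁻¹) ∧
      ∀ u, |zd ω (gs u) - zd ω' (gs u)| ≤ (8 + 4 * c) * Ry z Cd * ((2 : ℝ) ^ X)⁻¹ := by
    intro ω ω' hω hω' hE hE' e
    have e3 := (Prod.ext_iff.mp e).2
    have f3 : D.T ω = D.T ω' := (Prod.ext_iff.mp (Prod.ext_iff.mp e3).2).2
    have f1 : bb D i j r ω = bb D i j r ω' :=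
      Prod.ext (Prod.ext_iff.mp (Prod.ext_iff.mp e3).2).1 (Prod.ext_iff.mp e3).1
    have e4 := hL ω ω' hω hω' (Prod.ext_iff.mp e).1
    have h1 := zd_of H T hE hE' f1 f3 (δ := 4 * ((2 : ℝ) ^ X)⁻¹) (by
      have : (0 : ℝ) < ((2 : ℝ) ^ X)⁻¹ := by positivity
      linarith) fun l hl1 hl2 hl3 => ze_left3 H hω hω' hE hE' f1 e4 f3 hl1 hl2 hl3
    have e5 : ((c : ℝ) + 2) * (Ry z Cd * (4 * ((2 : ℝ) ^ X)⁻¹)) =
        (8 + 4 * c) * Ry z Cd * ((2 : ℝ) ^ X)⁻¹ := by ring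
    rw [e5] at h1
    exact h1
  have big : (8 + 4 * c) * Ry z Cd + 1 ≤ exp ((9 + 4 * c + Cd + A₀) * z) := by
    have e1 := mul_expz (a := 9 + 4 * c) (b := Cd) (by positivity) hz
    have e2 : exp ((9 + 4 * c + Cd) * z) ≤ exp ((9 + 4 * c + Cd + A₀) * z) :=
      Real.exp_le_exp.mpr (by nlinarith)
    have e3 : Ry z Cd = exp (Cd * z) := rfl
    rw [e3] at hRy ⊢
    linarith
  have k1 := few_exp0 H.ok.isLaw Y
    (fun ω => (N ω, (L ω, (D.c (i - 1) (j - r) ω, (D.c i j ω, D.T ω))))) E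
    (A := 9 + 4 * c + Cd + A₀) (X := X) (by positivity) hz (by
      intro ω ω' hω hω' hE hE' e a
      have g1 := (near ω ω' hω hω' hE hE' (Prod.ext_iff.mp e).2).1 a
      have hR2 : 0 < 2 * Ry z Cd := by linarith
      rw [V.yY ω hω hE, V.yY ω' hω' hE']
      unfold yD
      have g2 := P4N.dgp_lipR (X := X) ((zd ω (ys a) + Ry z Cd) / (2 * Ry z Cd))
        ((zd ω' (ys a) + Ry z Cd) / (2 * Ry z Cd))
      have g3 : (zd ω (ys a) + Ry z Cd) / (2 * Ry z Cd) -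
          (zd ω' (ys a) + Ry z Cd) / (2 * Ry z Cd)
          = (zd ω (ys a) - zd ω' (ys a)) / (2 * Ry z Cd) := by
        rw [← sub_div]
        congr 1
        ring
      rw [g3, abs_div, abs_of_pos hR2] at g2
      have g4 : (2 : ℝ) ^ X * (|zd ω (ys a) - zd ω' (ys a)| / (2 * Ry z Cd)) ≤
          (8 + 4 * c) * Ry z Cd := by
        rw [← mul_div_assoc, div_le_iff₀ hR2]
        calc (2 : ℝ) ^ X * |zd ω (ys a) - zd ω' (ys a)| ≤
            2 ^ X * ((8 + 4 * c) * Ry z Cd * ((2 : ℝ) ^ X)⁻¹) :=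
              mul_le_mul_of_nonneg_left g1 hpX.le
          _ = (2 ^ X * ((2 : ℝ) ^ X)⁻¹) * ((8 + 4 * c) * Ry z Cd) := by ring
          _ = (8 + 4 * c) * Ry z Cd * 1 := by rw [hpi]; ring
          _ ≤ (8 + 4 * c) * Ry z Cd * (2 * Ry z Cd) :=
            mul_le_mul_of_nonneg_left (by linarith) (by positivity)
      linarith) (by
      intro ω hω a
      exact (V.yB ω hω a).trans bd)
  have k2 := few_exp0 H.ok.isLaw N
    (fun ω => (L ω, (D.c (i - 1) (j - r) ω, (D.c i j ω, D.T ω)))) E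
    (A := 9 + 4 * c + Cd + A₀) (X := X) (by positivity) hz (by
      intro ω ω' hω hω' hE hE' e u
      have g1 := (near ω ω' hω hω' hE hE' e).2 u
      rw [V.nN ω hω hE, V.nN ω' hω' hE']
      unfold nuD
      have g2 := dgR (X := X) (z := z) (C := Cd) (zd ω (gs u)) (zd ω' (gs u))
      have g4 : (2 : ℝ) ^ X / Rg z Cd * |zd ω (gs u) - zd ω' (gs u)| ≤
          (8 + 4 * c) * Ry z Cd := by
        rw [div_mul_eq_mul_div, div_le_iff₀ hRg0]
        calc (2 : ℝ) ^ X * |zd ω (gs u) - zd ω' (gs u)| ≤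
            2 ^ X * ((8 + 4 * c) * Ry z Cd * ((2 : ℝ) ^ X)⁻¹) :=
              mul_le_mul_of_nonneg_left g1 hpX.le
          _ = (2 ^ X * ((2 : ℝ) ^ X)⁻¹) * ((8 + 4 * c) * Ry z Cd) := by ring
          _ = (8 + 4 * c) * Ry z Cd * 1 := by rw [hpi]; ring
          _ ≤ (8 + 4 * c) * Ry z Cd * Rg z Cd :=
            mul_le_mul_of_nonneg_left (by linarith) (by positivity)
      linarith) (by
      intro ω hω u
      exact (V.nB ω hω u).trans bd)
  rw [Fintype.card_fin] at k1 k2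
  have k3 := CH_chain h0 Y N (fun ω => (L ω, (D.c (i - 1) (j - r) ω, (D.c i j ω, D.T ω))))
  linarith

omit T hCd in
/-- Equal digits of the heights over the visible labels. -/
theorem zd_of_dig {ω ω' : D.Ω} (h1 : 0 < q ω) (h2 : 0 < q ω') (hE : E ω) (hE' : E ω')
    (hS : Sv ω = Sv ω') (hv : D.vd n i j X ω = D.vd n i j X ω')
    (hn : D.nd n i j X ω = D.nd n i j X ω') {l : ℕ} (hl1 : 1 ≤ l) (hln : l ≤ n) :
    |zd ω l - zd ω' l| ≤ Ry z Cd * ((2 : ℝ) ^ X)⁻¹ := by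
  have hp : (0 : ℝ) < 2 ^ X := by positivity
  refine G.ofS ω ω' h1 h2 hE hE' (V.dS ω ω' h1 h2 hS) l hl1 hln _ le_rfl fun k' hk1 hkl => ?_
  have e1 : |(2 : ℝ) ^ (D.g i j k' + X) * D.sh i j ω k' -
      2 ^ (D.g i j k' + X) * D.sh i j ω' k'| ≤ 1 := by
    rcases lt_or_eq_of_le (hkl.trans hln) with hk | hk
    · have h3 := congrFun hv ⟨k' - 1, by omega⟩
      unfold NDat2.vd at h3
      simp only at h3
      rw [show k' - 1 + 1 = k' by omega] at h3
      exact fl_eq h3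
    · subst hk
      unfold NDat2.nd at hn
      exact fl_eq hn
  rw [pow_add] at e1
  have e2 : (2 : ℝ) ^ D.g i j k' * 2 ^ X * D.sh i j ω k' -
      2 ^ D.g i j k' * 2 ^ X * D.sh i j ω' k' =
      2 ^ X * (2 ^ D.g i j k' * D.sh i j ω k' - 2 ^ D.g i j k' * D.sh i j ω' k') := by ring
  rw [e2, abs_mul, abs_of_pos hp] at e1
  rw [← one_div, le_div_iff₀ hp]
  linarith

omit T in
/-- **(few, n)** The target, given all the heights over the visible labels. -/
theorem few_nuD (hA : 0 ≤ A₀) {n₀ : Fin c} (hn : gs n₀ = n) {S' : Type} (B : D.Ω → S') :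
    CH q (fun ω => N ω n₀) (fun ω => (D.nd n i j X ω, (D.vd n i j X ω, (B ω, Sv ω)))) ≤
      aE 1 (2 + A₀) * (z + X * Pb q (fun ω => ¬ E ω)) := by
  have hz := H.z1
  have z1 : (1 : ℝ) ≤ z := by exact_mod_cast hz
  have x0 : (0 : ℝ) ≤ X := Nat.cast_nonneg X
  have h0 := H.ok.isLaw.nonneg
  have hpX : (0 : ℝ) < 2 ^ X := by positivity
  have hpi : (2 : ℝ) ^ X * ((2 : ℝ) ^ X)⁻¹ = 1 := mul_inv_cancel₀ hpX.ne'
  obtain ⟨hRy, hRg1, hRg0, hRg⟩ := ry_rg hCd z
  have e0 : CH q (fun ω => N ω n₀) (fun ω => (D.nd n i j X ω,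
      (D.vd n i j X ω, (B ω, Sv ω)))) ≤
      CH q (fun ω (_ : Fin 1) => N ω n₀) (fun ω => (D.nd n i j X ω,
      (D.vd n i j X ω, (B ω, Sv ω)))) := by
    refine CH_mono_left h0 ?_
    intro ω ω' _ _ e
    simp only [Prod.mk.injEq] at e
    exact congrFun e.1 0
  have key := few_exp0 H.ok.isLaw (fun ω (_ : Fin 1) => N ω n₀)
    (fun ω => (D.nd n i j X ω, (D.vd n i j X ω, (B ω, Sv ω)))) E
    (A := 2 + A₀) (X := X) (by positivity) hz ?_ ?_
  · rw [Fintype.card_fin] at key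
    exact e0.trans key
  · intro ω ω' hω hω' hE hE' e _
    have e1 := (Prod.ext_iff.mp e).2
    have e2 : D.vd n i j X ω = D.vd n i j X ω' := (Prod.ext_iff.mp e1).1
    have e3 : Sv ω = Sv ω' := (Prod.ext_iff.mp (Prod.ext_iff.mp e1).2).2
    have g1 := zd_of_dig H G V hω hω' hE hE' e3 e2 (Prod.ext_iff.mp e).1 H.n1 le_rfl
    rw [V.nN ω hω hE, V.nN ω' hω' hE']
    unfold nuD
    rw [hn]
    have g2 := dgR (X := X) (z := z) (C := Cd) (zd ω n) (zd ω' n)
    have g4 : (2 : ℝ) ^ X / Rg z Cd * |zd ω n - zd ω' n| ≤ 1 := by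
      rw [div_mul_eq_mul_div, div_le_one hRg0]
      calc (2 : ℝ) ^ X * |zd ω n - zd ω' n| ≤
          2 ^ X * (Ry z Cd * ((2 : ℝ) ^ X)⁻¹) := mul_le_mul_of_nonneg_left g1 hpX.le
        _ = (2 ^ X * ((2 : ℝ) ^ X)⁻¹) * Ry z Cd := by ring
        _ ≤ Rg z Cd := by rw [hpi]; linarith
    have e2 : (2 : ℝ) ≤ exp ((2 + A₀) * z) := by
      have h1 := le_expz (a := 2) (by norm_num) hz
      exact h1.trans (Real.exp_le_exp.mpr (by nlinarith))
    linarith
  · intro ω hω _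
    refine (V.nB ω hω n₀).trans (Real.exp_le_exp.mpr ?_)
    have h8 : (0 : ℝ) ≤ z + X := by positivity
    linarith

end

/-! ### Information -/

open Pool.POT

/-- Functions of the two sides of a place, with more digits of the left side in the context. -/
theorem sides2 {Ω : Type} [Fintype Ω] {p : Ω → ℝ} (hp : ∀ ω, 0 ≤ p ω)
    {SX SY SG SL SR SW SB : Type} (X : Ω → SX)
    (Y : Ω → SY) (G : Ω → SG) (L : Ω → SL) (R : Ω → SR) (W : Ω → SW) (β : Ω → SB)
    (hβ : Det p L β) {e e₁ e₂ : ℝ} (h : MI p L R W ≤ e)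
    (hX : CH p (fun ω => (G ω, X ω)) (fun ω => (L ω, (β ω, W ω))) ≤ e₁)
    (hY : CH p Y (fun ω => (R ω, (G ω, (β ω, W ω)))) ≤ e₂) :
    MI p X Y (fun ω => (G ω, (β ω, W ω))) ≤ e + e₁ + e₂ := by
  have a0 : MI p R L (fun ω => (β ω, W ω)) ≤ MI p R L W := MI_cond_right hp
    fun w w' a b h' => hβ w w' a b (Prod.ext_iff.mp h').1
  have a0' : MI p R L W = MI p L R W := MI_symm hp _ _ _
  -- Y
  have a1 : MI p X Y (fun ω => (G ω, (β ω, W ω))) ≤
      MI p X (fun ω => (R ω, Y ω)) (fun ω => (G ω, (β ω, W ω))) :=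
    MI_le_right hp fun w w' _ _ h' => (Prod.ext_iff.mp (Prod.ext_iff.mp h').1).2
  have a2 := MI_chain hp X R Y (fun ω => (G ω, (β ω, W ω)))
  have a3 : MI p X Y (fun ω => (R ω, (G ω, (β ω, W ω)))) ≤ e₂ := by
    rw [MI_symm hp]
    exact (MI_le_CH hp _ _ _).trans hY
  -- G
  have a4 := Pool.P4.MI_inner hp X G R (fun ω => (β ω, W ω))
  have a5 : MI p (fun ω => (G ω, X ω)) R (fun ω => (β ω, W ω)) ≤
      MI p (fun ω => (L ω, (G ω, X ω))) R (fun ω => (β ω, W ω)) :=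
    MI_le_left hp fun w w' _ _ h' => (Prod.ext_iff.mp (Prod.ext_iff.mp h').1).2
  have a6 := MI_chain_left hp L (fun ω => (G ω, X ω)) R (fun ω => (β ω, W ω))
  have a7 := MI_le_CH hp (fun ω => (G ω, X ω)) R (fun ω => (L ω, (β ω, W ω)))
  have a8 : MI p L R (fun ω => (β ω, W ω)) = MI p R L (fun ω => (β ω, W ω)) := MI_symm hp _ _ _
  linarith

end Pool.P4J.V
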