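import Pool.Agent.H35.P4J.Stm
import Pool.Agent.H66.P4.Num

/-!
# P4J: the kinds and the steps of the cell
-/

set_option autoImplicit false

namespace Pool.P4J

open Finset Real
open Pool.P4 (thd sl gr)

/-- The kinds, for the threshold `th`. -/
noncomputable def kf (gt : ℕ → ℝ) (th : ℝ) (l : ℕ) : ℝ :=
  if th ≤ gt l then gt l - (th - 1) else min (gt l) (1 / 2)

theorem kf_ge {gt : ℕ → ℝ} {th : ℝ} {l : ℕ} (h : th ≤ gt l) : kf gt th l = gt l - (th - 1) := by
  unfold kf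
  rw [if_pos h]

theorem kf_lt {gt : ℕ → ℝ} {th : ℝ} {l : ℕ} (h : gt l < th) : kf gt th l = min (gt l) (1 / 2) := by
  unfold kf
  rw [if_neg (not_le.2 h)]

theorem thd_kf {gt : ℕ → ℝ} {th : ℝ} {n : ℕ} (h : th ≤ gt n) : thd (kf gt th) n = 1 := by
  unfold thd
  rw [kf_ge h]
  exact min_eq_right (by linarith)

/-- **The kinds.** -/
theorem kd_kf {n : ℕ} {gt : ℕ → ℝ} {th : ℝ} (g0 : ∀ l, 0 ≤ gt l) (t1 : 1 ≤ th)
    (t2 : gt n - 1 < th) (t3 : th ≤ gt n) (hs : ∀ l, 1 ≤ l → l < n → gt l < 1 ∨ th ≤ gt l) :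
    Kd n gt (kf gt th) th where
  th1 := t1
  gt0 := g0
  gam0 l := by
    rcases le_or_gt th (gt l) with h | h
    · rw [kf_ge h]
      linarith
    · rw [kf_lt h]
      exact le_min (g0 l) (by norm_num)
  gn0 := by
    rw [kf_ge t3]
    linarith
  gn := by
    rw [thd_kf t3, kf_ge t3]
    linarith
  sl_lt l hl := by
    rcases hs l hl.1 hl.2.1 with h | h
    · exact h
    · exfalso
      have h1 := hl.2.2
      rw [thd_kf t3, kf_ge h] at h1
      linarith
  gr_ge l hl := by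
    by_contra h
    push Not at h
    have h1 := hl.2.2
    rw [thd_kf t3, kf_lt h] at h1
    have := min_le_right (gt l) (1 / 2)
    linarith
  gp_lt l hl := by
    have h0 : th ≤ gt l := by
      by_contra h
      push Not at h
      have h1 := hl.1.2.2
      rw [thd_kf t3, kf_lt h] at h1
      have := min_le_right (gt l) (1 / 2)
      linarith
    have h1 := hl.2
    rw [thd_kf t3, kf_ge h0] at h1
    linarith
  ab_ge l hl := by
    have h1 := hl.2.2
    rw [thd_kf t3] at h1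
    by_contra h
    push Not at h
    rcases le_or_gt th (gt l) with h2 | h2
    · rw [kf_ge h2] at h1
      linarith
    · rw [kf_lt h2] at h1
      have := min_le_right (gt l) (1 / 2)
      linarith

/-- The coordinates which are not above are smaller than `1 + th`. -/
theorem Kd.lt {n : ℕ} {gt gam : ℕ → ℝ} {th : ℝ} (h : Kd n gt gam th) {l : ℕ} (h1 : 1 ≤ l)
    (h2 : l ≤ n) (h3 : ¬ ab gam n l) : gt l < 1 + th := by
  rcases kinds h.gn h1 h2 with h4 | h4 | h4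
  · have := h.sl_lt l h4
    have := h.th1
    linarith
  · exact h.gp_lt l h4
  · exact absurd h4 h3

/-- A number between finitely many numbers and a bound. -/
theorem mid_ex {n : ℕ} {p : ℕ → Prop} {f : ℕ → ℝ} {b : ℝ} (hb : 0 < b)
    (h : ∀ l, p l → l ≤ n → f l < b) : ∃ ρ : ℝ, 0 ≤ ρ ∧ ρ < b ∧ ∀ l, p l → l ≤ n → f l ≤ ρ := by
  classical
  obtain ⟨g, hg⟩ : ∃ g : ℕ → ℝ, g = fun l => if p l then f l else 0 := ⟨_, rfl⟩
  have hlt : ∀ l ≤ n, g l < b := by
    intro l hl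
    rw [hg]
    beta_reduce
    split_ifs with h1
    · exact h l h1 hl
    · exact hb
  obtain ⟨l₀, hl₀', hl₀⟩ := Finset.exists_max_image (range (n + 1)) g ⟨0, by simp⟩
  refine ⟨max 0 (g l₀), le_max_left _ _, max_lt hb (hlt l₀ (by
    have := mem_range.1 hl₀'
    omega)), fun l hl hln => ?_⟩
  have h1 := hl₀ l (mem_range.2 (by omega))
  have h2 : g l = f l := by
    rw [hg]
    exact if_pos hl
  rw [h2] at h1
  exact h1.trans (le_max_right _ _)

/-- **The steps exist.** -/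
theorem stp_ex {n : ℕ} {gt gam : ℕ → ℝ} {th : ℝ} (h : Kd n gt gam th) (y : ℕ) :
    ∃ r r' r'' : ℕ, Stp n gt gam y r r' r'' y := by
  have ht := h.th1
  obtain ⟨ρ, r0, r1, r2⟩ := mid_ex (n := n) (p := sl gam n) (f := gt) (b := 1) one_pos
    fun l hl _ => h.sl_lt l hl
  obtain ⟨σ, s0, s1, s2⟩ := mid_ex (n := n) (p := gp gam n) (f := fun l => gt l - 1) (b := th)
    (by linarith) fun l hl _ => by
      have := h.gp_lt l hl
      beta_reduce
      linarith
  obtain ⟨τ, hτ⟩ : ∃ τ : ℝ, τ = max ρ σ := ⟨_, rfl⟩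
  have t0 : 0 ≤ τ := by rw [hτ]; exact r0.trans (le_max_left _ _)
  have t1 : τ < th := by rw [hτ]; exact max_lt (by linarith) s1
  have t2 : ρ ≤ τ := by rw [hτ]; exact le_max_left _ _
  have t3 : σ ≤ τ := by rw [hτ]; exact le_max_right _ _
  obtain ⟨G, hG⟩ : ∃ G : ℝ, ∀ l ≤ n, gt l ≤ G := by
    refine ⟨∑ l ∈ range (n + 1), gt l, fun l hl => ?_⟩
    exact Finset.single_le_sum (f := gt) (fun k _ => h.gt0 k) (mem_range.2 (by omega))
  obtain ⟨ra, hra⟩ := exists_nat_ge ((2 * y + 2) / (th - τ))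
  obtain ⟨rb, hrb⟩ := exists_nat_ge (y / (1 - ρ))
  have hd : 0 < th - τ := by linarith
  have hd' : 0 < 1 - ρ := by linarith
  rw [div_le_iff₀ hd] at hra
  rw [div_le_iff₀ hd'] at hrb
  obtain ⟨r, hr⟩ : ∃ r : ℕ, r = ra + rb + y := ⟨_, rfl⟩
  have hra' : (ra : ℝ) ≤ r := by
    rw [hr]
    exact_mod_cast (by omega : ra ≤ ra + rb + y)
  have hrb' : (rb : ℝ) ≤ r := by
    rw [hr]
    exact_mod_cast (by omega : rb ≤ ra + rb + y)
  have k0 : 2 * (y : ℝ) + 2 ≤ r * (th - τ) :=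
    hra.trans (mul_le_mul_of_nonneg_right hra' hd.le)
  have k0' : (y : ℝ) ≤ r * (1 - ρ) := hrb.trans (mul_le_mul_of_nonneg_right hrb' hd'.le)
  have hrr : (0 : ℝ) ≤ r := Nat.cast_nonneg r
  have hρr : 0 ≤ τ * r := by positivity
  have e1 := Nat.le_ceil (τ * r)
  have e2 := Nat.ceil_lt_add_one hρr
  obtain ⟨r', hr'⟩ : ∃ r' : ℕ, r' = ⌈τ * r⌉₊ + y := ⟨_, rfl⟩
  have e3 : (r' : ℝ) = ⌈τ * r⌉₊ + y := by rw [hr']; push_cast; ring
  have k1 : τ * r + y ≤ r' := by rw [e3]; linarith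
  have k2 : (r' : ℝ) + y ≤ th * r := by
    rw [e3]
    nlinarith
  obtain ⟨r'', hr''⟩ : ∃ r'' : ℕ, r'' = ⌈2 * G * r⌉₊ + y + r' + r := ⟨_, rfl⟩
  have e4 := Nat.le_ceil (2 * G * r)
  have e5 : (r'' : ℝ) = ⌈2 * G * r⌉₊ + y + r' + r := by rw [hr'']; push_cast; ring
  have hr'0 : (0 : ℝ) ≤ r' := Nat.cast_nonneg r'
  refine ⟨r, r', r'', ⟨?_, ?_, ?_, ?_, ?_, ?_, le_rfl, ?_, ?_, ?_⟩⟩
  · intro l hl
    have := mul_le_mul_of_nonneg_right ((r2 l hl hl.2.1.le).trans t2) hrr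
    linarith
  · intro l hl
    have := mul_le_mul_of_nonneg_right (r2 l hl hl.2.1.le) hrr
    linarith
  · intro l hl
    have := mul_le_mul_of_nonneg_right (h.gr_ge l hl) hrr
    linarith
  · intro l hl
    have := mul_le_mul_of_nonneg_right ((s2 l hl hl.1.2.1).trans t3) hrr
    linarith
  · intro l _ hl
    have := mul_le_mul_of_nonneg_right (hG l hl) hrr
    rw [e5]
    linarith
  · rw [hr'']
    omega
  · rw [hr'']
    omega
  · rw [hr]
    omega
  · intro l hl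
    have := mul_le_mul_of_nonneg_right (h.ab_ge l hl) hrr
    push_cast
    linarith

end Pool.P4J
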