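import Pool.Agent.H35.P4J.EndB
import Pool.Agent.H35.P4J.VCell2
import Pool.Agent.H14.P4J.Red

/-!
# P4J: the theorem
-/

set_option autoImplicit false

namespace Pool.P4J

/-- **P4J with two closed contexts.** -/
theorem p4jx : P4JX := p4jx_of vcellS_thm

/-- **P4J**: the local theorem over affine frames, coordinates at the threshold or more are fast. -/
theorem p4j : Pool.STAT.P4JStmt1 := p4j_of redJ p4jx

end Pool.P4J
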