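import Pool.Agent.H35.P4J.Stm
import Pool.Agent.H16.P4.Few
import Pool.Agent.H35.TMU.Tmu

/-!
# P4, the hypotheses (H0), (H2): preparations

The information between the two sides given the picture context, and the digits of the line, of the
slopes, given one side.
-/

set_option autoImplicit false

namespace Pool.P4J.E

open Pool.P4E

open Finset Real
open Pool.Agent.H49.Ent Pool.Agent.H32.Dense Pool.STK Pool.MIC Pool.STAT Pool.P4
open Pool.BFL (Pb)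
open Pool.MIC.Frm Pool.MIC7 Pool.FRM Pool.GSD

/-! ### Digits -/

theorem cl1_sub (x y : ℝ) : |cl1 x - cl1 y| ≤ |x - y| := by
  unfold cl1
  have h1 : |max (-1) (min 1 x) - max (-1) (min 1 y)| ≤ |min 1 x - min 1 y| := by
    rw [max_comm (-1 : ℝ), max_comm (-1 : ℝ)]
    exact abs_max_sub_max_le_abs _ _ _
  have h2 : |min 1 x - min 1 y| ≤ |x - y| := by
    have := abs_min_sub_min_le_max 1 x 1 y
    simpa using this
  exact h1.trans h2

theorem cl1_abs (x : ℝ) : |cl1 x| ≤ 1 := by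
  unfold cl1
  rw [abs_le]
  refine ⟨le_max_left _ _, ?_⟩
  exact max_le (by norm_num) (min_le_left _ _)

theorem cl1_id {x : ℝ} (h : |x| ≤ 1) : cl1 x = x := by
  rw [abs_le] at h
  unfold cl1
  rw [min_eq_right h.2, max_eq_right h.1]

theorem dg_near (X : ℕ) (x : ℝ) : |(dg X x : ℝ) - 2 ^ X * cl1 x| ≤ 1 := by
  unfold dg
  have h1 := Int.floor_le ((2 : ℝ) ^ X * cl1 x)
  have h2 := Int.lt_floor_add_one ((2 : ℝ) ^ X * cl1 x)
  rw [abs_le]
  constructor <;> linarith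

theorem dg_abs (X : ℕ) (x : ℝ) : |(dg X x : ℝ)| ≤ 2 ^ X := by
  have hX : (0 : ℝ) < 2 ^ X := by positivity
  have h := cl1_abs x
  rw [abs_le] at h
  have h1 : (2 : ℝ) ^ X * cl1 x ≤ 2 ^ X := by
    have := mul_le_mul_of_nonneg_left h.2 hX.le
    linarith
  have h2 : -(2 : ℝ) ^ X ≤ 2 ^ X * cl1 x := by
    have := mul_le_mul_of_nonneg_left h.1 hX.le
    linarith
  unfold dg
  rw [abs_le]
  constructor
  · have : (-(2 ^ X : ℤ)) ≤ ⌊(2 : ℝ) ^ X * cl1 x⌋ := by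
      rw [Int.le_floor]
      push_cast
      exact h2
    exact_mod_cast this
  · exact (Int.floor_le _).trans h1

/-- Near numbers have near digits. -/
theorem dg_sub {X : ℕ} {x y m : ℝ} (h : 2 ^ X * |x - y| ≤ m) :
    |((dg X x - dg X y : ℤ) : ℝ)| ≤ m + 2 := by
  have h1 := dg_near X x
  have h2 := dg_near X y
  have h3 : |2 ^ X * cl1 x - 2 ^ X * cl1 y| ≤ m := by
    rw [← mul_sub, abs_mul, abs_of_pos (by positivity : (0 : ℝ) < 2 ^ X)]
    exact (mul_le_mul_of_nonneg_left (cl1_sub x y) (by positivity)).trans h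
  push_cast
  rw [abs_le] at h1 h2 h3 ⊢
  constructor <;> linarith [h1.1, h1.2, h2.1, h2.2, h3.1, h3.2]

theorem dgp_range (X : ℕ) (x : ℝ) : 0 ≤ dgp X x ∧ dgp X x ≤ 2 ^ X - 1 := by
  unfold dgp
  have h : (1 : ℤ) ≤ 2 ^ X := one_le_pow₀ (by norm_num)
  constructor
  · exact le_max_left _ _
  · exact max_le (by linarith) (min_le_left _ _)

theorem dgp_abs (X : ℕ) (x : ℝ) : |(dgp X x : ℝ)| ≤ 2 ^ X := by
  obtain ⟨h1, h2⟩ := dgp_range X x
  have h3 : (0 : ℝ) ≤ dgp X x := by exact_mod_cast h1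
  have h4 : (dgp X x : ℝ) ≤ 2 ^ X - 1 := by exact_mod_cast h2
  rw [abs_of_nonneg h3]
  linarith

theorem dgp_sub {X : ℕ} {x y m : ℝ} (h : 2 ^ X * |x - y| ≤ m) :
    |((dgp X x - dgp X y : ℤ) : ℝ)| ≤ m + 2 := by
  have h1 : |((⌊(2 : ℝ) ^ X * x⌋ - ⌊(2 : ℝ) ^ X * y⌋ : ℤ) : ℝ)| ≤ m + 2 := by
    have a1 := Int.floor_le ((2 : ℝ) ^ X * x)
    have a2 := Int.lt_floor_add_one ((2 : ℝ) ^ X * x)
    have a3 := Int.floor_le ((2 : ℝ) ^ X * y)
    have a4 := Int.lt_floor_add_one ((2 : ℝ) ^ X * y)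
    have a5 : |2 ^ X * x - 2 ^ X * y| ≤ m := by
      rw [← mul_sub, abs_mul, abs_of_pos (by positivity : (0 : ℝ) < 2 ^ X)]
      exact h
    push_cast
    rw [abs_le] at a5 ⊢
    constructor <;> linarith [a5.1, a5.2]
  have h2 : |dgp X x - dgp X y| ≤ |⌊(2 : ℝ) ^ X * x⌋ - ⌊(2 : ℝ) ^ X * y⌋| := by
    unfold dgp
    have b1 : |max 0 (min (2 ^ X - 1) ⌊(2 : ℝ) ^ X * x⌋) -
        max 0 (min (2 ^ X - 1) ⌊(2 : ℝ) ^ X * y⌋)| ≤
        |min (2 ^ X - 1) ⌊(2 : ℝ) ^ X * x⌋ - min (2 ^ X - 1) ⌊(2 : ℝ) ^ X * y⌋| := by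
      rw [max_comm (0 : ℤ), max_comm (0 : ℤ)]
      exact abs_max_sub_max_le_abs _ _ _
    have b2 : |min (2 ^ X - 1) ⌊(2 : ℝ) ^ X * x⌋ - min (2 ^ X - 1) ⌊(2 : ℝ) ^ X * y⌋| ≤
        |⌊(2 : ℝ) ^ X * x⌋ - ⌊(2 : ℝ) ^ X * y⌋| := by
      have := abs_min_sub_min_le_max (2 ^ X - 1 : ℤ) ⌊(2 : ℝ) ^ X * x⌋ (2 ^ X - 1)
        ⌊(2 : ℝ) ^ X * y⌋
      simpa using this
    exact b1.trans b2
  have h3 : |((dgp X x - dgp X y : ℤ) : ℝ)| ≤
      |((⌊(2 : ℝ) ^ X * x⌋ - ⌊(2 : ℝ) ^ X * y⌋ : ℤ) : ℝ)| := by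
    exact_mod_cast h2
  exact h3.trans h1

/-- In the range the digits are near to the number. -/
theorem dgp_near {X : ℕ} {x : ℝ} (h0 : 0 ≤ x) (h1 : x ≤ 1) :
    |(dgp X x : ℝ) - 2 ^ X * x| ≤ 1 := by
  have hX : (0 : ℝ) < 2 ^ X := by positivity
  have a1 := Int.floor_le ((2 : ℝ) ^ X * x)
  have a2 := Int.lt_floor_add_one ((2 : ℝ) ^ X * x)
  have a3 : (0 : ℤ) ≤ ⌊(2 : ℝ) ^ X * x⌋ := Int.floor_nonneg.2 (by positivity)
  have a4 : (2 : ℝ) ^ X * x ≤ 2 ^ X := by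
    have := mul_le_mul_of_nonneg_left h1 hX.le
    linarith
  have hX1 : (1 : ℤ) ≤ 2 ^ X := one_le_pow₀ (by norm_num)
  unfold dgp
  rcases le_total (2 ^ X - 1 : ℤ) ⌊(2 : ℝ) ^ X * x⌋ with h2 | h2
  · rw [min_eq_left h2, max_eq_right (by linarith)]
    have h3 : ((2 ^ X - 1 : ℤ) : ℝ) ≤ ⌊(2 : ℝ) ^ X * x⌋ := by exact_mod_cast h2
    push_cast at h3 ⊢
    rw [abs_le]
    constructor <;> linarith
  · rw [min_eq_right h2, max_eq_right a3, abs_le]
    constructor <;> linarith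

/-! ### The context -/

section hyp

variable {D : NDat2} {n K K' J a₀ w₀ z M w i j r r' r'' y X : ℕ} {lam gt gam : ℕ → ℝ}
  {κ C₁ C : ℝ} {q : D.Ω → ℝ} {E : D.Ω → Prop} {P : D.Γ × D.Γ → ℕ → PN}
  {S : D.Ω → ℕ → ℕ → ℝ} {c k : ℕ} {ys : Fin k → ℕ} {gs : Fin c → ℕ}

theorem wX_le (H : Hyp D n K K' J a₀ w₀ z M w i j r r' r'' y X lam gt gam κ C₁ C q E P S ys gs) :
    w + X ≤ J := by
  obtain ⟨x, hx1, hx2⟩ := H.Xz
  have h1 := H.ok.thin
  have h2 := H.ok.top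
  have h3 := H.w2
  have h4 := H.j2
  have h5 : (j + 1) * z ≤ M * z := Nat.mul_le_mul_right _ (by omega)
  have h6 : x * z ≤ M * z := Nat.mul_le_mul_right _ (by omega)
  have h7 : (M + 1) * z = M * z + z := by ring
  omega

theorem c_rad (H : Hyp D n K K' J a₀ w₀ z M w i j r r' r'' y X lam gt gam κ C₁ C q E P S ys gs)
    {i' j' s : ℕ} (h1 : i' + s ≤ M) (h2 : j' ≤ M) : Det q (D.c (i' + s) j') (D.c i' j') := by
  induction s with
  | zero => exact fun _ _ _ _ h => h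
  | succ s ih =>
    intro ω ω' a b h
    exact ih (by omega) ω ω' a b (H.ok.c_i (i' + s) (by omega) j' h2 ω ω' a b h)

/-- The context of the radius `i' - 1`. -/
theorem c_rad1 (H : Hyp D n K K' J a₀ w₀ z M w i j r r' r'' y X lam gt gam κ C₁ C q E P S ys gs)
    {i' j' s : ℕ} (h1 : i' + s ≤ M) (h2 : j' ≤ M) : Det q (D.c (i' + s) j') (D.c (i' - 1) j') := by
  have h3 := c_rad H (i' := i' - 1) (j' := j') (s := s + (i' - (i' - 1))) (by omega) h2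
  rwa [show i' - 1 + (s + (i' - (i' - 1))) = i' + s by omega] at h3

/-- A short window determines the longer windows. -/
theorem wn_coarse (D : NDat2) (q : D.Ω → ℝ) {J w w' : ℕ} (h : w' ≤ w) (hJ : w ≤ J) :
    Det q (D.wn J w) (D.wn J w') := by
  intro ω ω' _ _ e
  have e1 := Prod.ext_iff.1 e
  refine Prod.ext e1.1 ?_
  show D.T ω / 2 ^ (J - w') = D.T ω' / 2 ^ (J - w')
  rw [Pool.TMU.win_div (D.T ω) h hJ, Pool.TMU.win_div (D.T ω') h hJ]
  have : D.T ω / 2 ^ (J - w) = D.T ω' / 2 ^ (J - w) := e1.2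
  rw [this]

theorem bb_wn (H : Hyp D n K K' J a₀ w₀ z M w i j r r' r'' y X lam gt gam κ C₁ C q E P S ys gs) :
    Det q (D.wn J w) (bb D i j r) := by
  intro ω ω' a b e
  have hX := wX_le H
  have hw := H.w1
  have h4 := H.j2
  have h5 := H.i2
  have h6 : w₀ + (j - r) * z ≤ w₀ + j * z := by
    have : (j - r) * z ≤ j * z := Nat.mul_le_mul_right _ (Nat.sub_le _ _)
    omega
  have e1 := wn_coarse D q hw (by omega) ω ω' a b e
  have e2 := wn_coarse D q (h6.trans hw) (by omega) ω ω' a b e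
  exact Prod.ext (H.ok.c_wn i (by omega) j (by omega) ω ω' a b e1)
    (H.ok.c_wn (i - 1) (by omega) (j - r) (by omega) ω ω' a b e2)

/-- **The information between the two sides**, in the picture context. -/
theorem mi_cb (H : Hyp D n K K' J a₀ w₀ z M w i j r r' r'' y X lam gt gam κ C₁ C q E P S ys gs)
    {r₁ : ℕ} (h1 : r₁ ≤ i) (h2 : i + r₁ < M) :
    CH q (D.rgt i j r₁ r 1) (fun ω => (D.T ω, cb D J w i j r ω)) ≤
      CH q (D.rgt i j r₁ r 1) (fun ω => (D.lft i j r₁ r 1 ω, (D.T ω, cb D J w i j r ω))) +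
        κ * z := by
  have hq := H.ok.isLaw.nonneg
  have h3 := H.j1
  have h4 := H.j2
  have a1 := H.dma.rl hq (i := i) (j := j) (a := r₁) (b := r) (s := 1) (s' := 1) (by omega)
    (by omega) (by omega) (by omega)
  have a2 : CH q (D.rgt i j r₁ r 1) (fun ω => (D.T ω, cb D J w i j r ω)) ≤
      CH q (D.rgt i j r₁ r 1) (fun ω => (D.c i j ω, D.T ω)) :=
    CH_mono_cond hq fun ω ω' _ _ e => by
      have e1 := Prod.ext_iff.1 e
      have e2 := Prod.ext_iff.1 e1.2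
      have e3 : D.c i j ω = D.c i j ω' := (Prod.ext_iff.1 e2.1).1
      exact Prod.ext e3 e1.1
  have a3 : CH q (D.rgt i j r₁ r 1) (fun ω => (D.lft i j r₁ r 1 ω, (D.c i j ω, D.T ω))) ≤
      CH q (D.rgt i j r₁ r 1) (fun ω => (D.lft i j r₁ r 1 ω, (D.T ω, cb D J w i j r ω))) :=
    CH_mono_cond hq fun ω ω' a b e => by
      have e1 := Prod.ext_iff.1 e
      have e2 := Prod.ext_iff.1 e1.2
      have e3 := congrFun e1.1 (1 : Fin 2)
      have e4 : D.c (i + r₁) (j - r) ω = D.c (i + r₁) (j - r) ω' := by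
        have e5 : D.c (i + ((1 : Fin 2) : ℕ) * r₁) (j - ((1 : Fin 2) : ℕ) * r) ω =
          D.c (i + ((1 : Fin 2) : ℕ) * r₁) (j - ((1 : Fin 2) : ℕ) * r) ω' := e3
        simpa using e5
      have e6 := c_rad1 H (i' := i) (j' := j - r) (s := r₁) (by omega) (by omega) ω ω' a b e4
      refine Prod.ext e1.1 (Prod.ext e2.2 (Prod.ext (Prod.ext e2.1 e6) ?_))
      show D.T ω / 2 ^ (J - w) = D.T ω' / 2 ^ (J - w)
      have : D.T ω = D.T ω' := e2.2
      rw [this]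
  linarith

/-- The left context. -/
theorem lft_one {D : NDat2} {i j r₁ r : ℕ} {ω ω' : D.Ω}
    (h : D.lft i j r₁ r 1 ω = D.lft i j r₁ r 1 ω') :
    D.c (i + r₁) (j - r) ω = D.c (i + r₁) (j - r) ω' := by
  have e3 := congrFun h (1 : Fin 2)
  have e5 : D.c (i + ((1 : Fin 2) : ℕ) * r₁) (j - ((1 : Fin 2) : ℕ) * r) ω =
    D.c (i + ((1 : Fin 2) : ℕ) * r₁) (j - ((1 : Fin 2) : ℕ) * r) ω' := e3
  simpa using e5

/-- The right label. -/
theorem rgt_one (H : Hyp D n K K' J a₀ w₀ z M w i j r r' r'' y X lam gt gam κ C₁ C q E P S ys gs)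
    {r₁ : ℕ} {ω ω' : D.Ω} (a : 0 < q ω) (b : 0 < q ω')
    (h : D.rgt i j r₁ r 1 ω = D.rgt i j r₁ r 1 ω') (hT : D.T ω = D.T ω') :
    D.s (i - r₁) (j + r) ω = D.s (i - r₁) (j + r) ω' := by
  have e3 := congrFun h (1 : Fin 2)
  have e5 : D.c (i - ((1 : Fin 2) : ℕ) * r₁) (j + ((1 : Fin 2) : ℕ) * r) ω =
    D.c (i - ((1 : Fin 2) : ℕ) * r₁) (j + ((1 : Fin 2) : ℕ) * r) ω' := e3
  have e6 : D.c (i - r₁) (j + r) ω = D.c (i - r₁) (j + r) ω' := by simpa using e5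
  have h4 := H.j2
  have h5 := H.i2
  exact H.ok.s_c (i - r₁) (by omega) (j + r) (by omega) ω ω' a b (Prod.ext e6 hT)

/-! ### Numbers -/

theorem Ry_one (H : Hyp D n K K' J a₀ w₀ z M w i j r r' r'' y X lam gt gam κ C₁ C q E P S ys gs) :
    1 ≤ Ry z C := by
  unfold Ry
  have h1 := H.Cg
  exact Real.one_le_exp (by positivity)

theorem Rg_eq (z : ℕ) (C : ℝ) : Rg z C = 2 * Ry z C ^ 2 := by
  unfold Rg Ry
  rw [← Real.exp_nat_mul]
  congr 2
  push_cast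
  ring

theorem tau_le (H : Hyp D n K K' J a₀ w₀ z M w i j r r' r'' y X lam gt gam κ C₁ C q E P S ys gs) :
    2 ^ X * (exp (C * z) / 2 ^ (y * z)) ≤ 1 := by
  have h := H.yX
  have hy : (0 : ℝ) < 2 ^ (y * z) := by positivity
  rw [← mul_div_assoc, div_le_one hy]
  linarith

theorem tau_nn (C : ℝ) (z y : ℕ) : 0 ≤ exp (C * z) / 2 ^ (y * z) := by positivity

/-- The logarithms. -/
theorem log_le (X : ℕ) {a : ℝ} (ha : 0 < a) : Real.log (4 * (a * 2 ^ X) + 1) ≤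
    Real.log (4 * a + 1) + X := by
  have h1 : (1 : ℝ) ≤ 2 ^ X := one_le_pow₀ (by norm_num)
  have h2 : 4 * (a * 2 ^ X) + 1 ≤ (4 * a + 1) * 2 ^ X := by nlinarith
  have h3 : Real.log ((4 * a + 1) * 2 ^ X) = Real.log (4 * a + 1) + X * Real.log 2 := by
    rw [Real.log_mul (by positivity) (by positivity), Real.log_pow]
  have h4 : Real.log 2 ≤ 1 := by
    have := Real.log_two_lt_d9
    linarith
  have h5 : (X : ℝ) * Real.log 2 ≤ X * 1 :=
    mul_le_mul_of_nonneg_left h4 (Nat.cast_nonneg _)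
  have h6 := Real.log_le_log (by positivity) h2
  linarith

end hyp

end Pool.P4J.E
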