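import Pool.Agent.H35.P4J.CellF
import Pool.Agent.H35.P4J.EndS
import Pool.Agent.H35.P4J.Cma
import Pool.Agent.H35.P4J.V6
import Pool.Agent.H35.P4J.V7
import Pool.Agent.H35.P4J.HF
import Pool.Agent.H35.P4J.NFv
import Pool.Agent.H14.P4.VCell
import Pool.Agent.H66.P4.CellF

/-!
# P4J: the cell with its visible chart

`vcellE_of`: in every cell there is a place with a visible chart (`VCellE`), over a given event.
-/

set_option autoImplicit false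

namespace Pool.P4J

open Finset Real MvPolynomial
open Pool.Agent.H49.Ent Pool.Agent.H32.Dense Pool.STK Pool.STAT Pool.MIC.Frm Pool.MIC7 Pool.FRM
open Pool.GSD Pool.POT
open Pool.P4N hiding hf_vis nfv
open Pool.BFL (Pb)
open Pool.QC (nfb)
open Pool.P4 hiding Stp Plc Geo LinStmt OwnStmt DepStmt GeoStmt Hyp EntOf H0Stmt H2Stmt YFStmt
  TFStmt NFStmt HsStmt CellStmt CellFStmt enum_ex VOutD VCellS GfS P4XT dig_cell p4x_of lab_cell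
  vcellS_of cht_hat vch

/-- **(VCELLE)** In every cell there is a place with a visible chart, over every event `E` of good
samples with affine frames. -/
def VCellE : Prop :=
  ∀ (n K K' B : ℕ) (gt gam : ℕ → ℝ) (th C₁ CL Cf h : ℝ) (c k : ℕ) (ys : Fin k → ℕ)
    (gs : Fin c → ℕ) (n₀ : Fin c), 1 ≤ n → 1 ≤ B → 1 ≤ K' → Kd n gt gam th → 1 ≤ C₁ → 0 ≤ Cf →
    0 < h → h ≤ 1 →
    (∀ a, sl gam n (ys a)) → Function.Injective ys → (∀ l, sl gam n l → ∃ a, ys a = l) →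
    (∀ u, gp gam n (gs u)) → StrictMono gs → (∀ l, gp gam n l → ∃ u, gs u = l) →
    gs n₀ = n → ∀ F : ℝ → ℝ,
    ∃ (C₀ C : ℝ), 1 ≤ C₀ ∧ C₀ ≤ C ∧ F C₀ ≤ C ∧ ∀ η : ℝ, 0 < η → ∃ s : ℝ, 0 < s ∧
    ∀ (B' U₀ y₀ : ℕ) (io δ : ℝ), 1 ≤ B' → 0 < io → 0 < δ → 4 * δ ≤ io → 8 * B * δ ≤ h →
    ∃ e₀ : ℝ, 0 < e₀ ∧
    ∃ U y r r' r'' a i j : ℕ, 1 ≤ U ∧ U₀ ≤ U ∧ y₀ ≤ y ∧ ∀ M₀ : ℕ, ∃ M : ℕ, M₀ ≤ M ∧
    ∃ (κ : ℝ) (z₀ : ℕ), 0 < κ ∧
    ∀ (lam : ℕ → ℝ) (J a₀ w₀ z : ℕ) (D : NDat2) (q : D.Ω → ℝ) (ϖ : ℝ) (E : D.Ω → Prop),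
      (∀ l, 1 ≤ l → l ≤ n → lam l = 1) → z₀ ≤ z → ϖ ≤ 1 →
      D.Ok2 n K J a₀ w₀ z M lam gt κ C₁ q → D.DMA z M κ q → LLC D n z M CL q →
      D.TmU J w₀ z κ q → D.NF n z M B gt h C₁ ϖ q → NFc D n z M B gt (h + δ) C₁ q → D.Strt →
      (∀ ω, E ω → 0 < q ω ∧ GoodS D n K' w₀ z M Cf ω ∧ FraC D n 1 M z Cf ω) →
      Pb q (fun ω => ¬ E ω) ≤ e₀ →
      ∃ (w : ℕ) (P : D.Γ × D.Γ → ℕ → PN) (S : D.Ω → ℕ → ℕ → ℝ),
        VOutD D n K K' J a₀ w₀ z M w i j r r' r'' a y (B * U * z) lam gt gam κ C₁ C₀ C q E P S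
          ys gs n₀ B' (h / (4 * B)) io s η

/-! ### Numbers -/

theorem vc_n4I {h B B' X l δ δ₁ e1 e2 e3 : ℝ} (hX : 0 ≤ X) (hB : 0 < B) (hB' : 0 ≤ B')
    (hh : 0 ≤ h) (hl : 0 ≤ l) (hδ : 8 * B * δ ≤ h)
    (h1 : δ₁ ≤ h / (4 * B) * l / (1 + B')) (hδ₁ : 0 ≤ δ₁) (he1 : e1 ≤ δ₁ * X)
    (he2 : e2 ≤ δ₁ * X) (he3 : e3 ≤ δ₁ * X) :
    (1 - h / B) * X * l + ((h + δ - h) * X * l + e1) + e2 + B' * e3 ≤
      (1 - h / (4 * B)) * X * l := by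
  have k1 : (0 : ℝ) < 1 + B' := by linarith
  rw [le_div_iff₀ k1] at h1
  have k2 := mul_le_mul_of_nonneg_left he3 hB'
  have k3 := mul_le_mul_of_nonneg_right h1 hX
  have k5 : δ ≤ h / (8 * B) := by
    rw [le_div_iff₀ (by positivity)]
    linarith
  have k6 : δ * (X * l) ≤ h / (8 * B) * (X * l) :=
    mul_le_mul_of_nonneg_right k5 (mul_nonneg hX hl)
  have k7 : 0 ≤ δ₁ * X * B' := mul_nonneg (mul_nonneg hδ₁ hX) hB'
  have k8 : e1 + e2 + B' * e3 ≤ 2 * (h / (4 * B) * l * X) := by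
    calc e1 + e2 + B' * e3 ≤ δ₁ * X + δ₁ * X + B' * (δ₁ * X) := by linarith
      _ ≤ 2 * (δ₁ * (1 + B') * X) := by linarith
      _ ≤ _ := by linarith
  have k9 : 0 ≤ h / (8 * B) * (X * l) := by positivity
  obtain ⟨t, ht⟩ : ∃ t, t = h / (8 * B) := ⟨_, rfl⟩
  have e4 : h / B = 8 * t := by rw [ht]; field_simp
  have e5 : h / (4 * B) = 2 * t := by rw [ht]; field_simp; ring
  rw [e5] at k8
  rw [← ht] at k6 k9
  rw [e4, e5]
  linarith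

/-- **The cell with its visible chart.** -/
theorem vcellE_of (hF : CellFStmt) : VCellE := by
  intro n K K' B gt gam th C₁ CL Cf h c k ys gs n₀ n1 B1 K1 kd C1 hCf hh0 hh1 y1 y2 y3 g1 g2 g3 g4 F
  have gtn : 1 ≤ gt n := kd.th1.trans (kd.gr_ge n ⟨n1, le_rfl, min_le_left _ _⟩)
  have gamn : 0 < gt n := lt_of_lt_of_le one_pos gtn
  have hC₁0 : 0 ≤ C₁ := by linarith
  choose T1 hT1p hT1 using fun (C₀ : ℝ) =>
    cht_hat n K K' c |C₀| C₁ (abs_nonneg C₀) hC₁0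
  choose T2 hT2a hT2b hT2 using fun (C₀ : ℝ) =>
    dch n (max K K') |C₀| (abs_nonneg C₀)
  obtain ⟨C₀, C, hC₀, hCC, hCF, HF⟩ := hF n K K' B (fun _ => 1) gt gam th C₁ Cf h c k ys gs n₀ n1 B1
    K1 (fun _ _ _ => rfl) kd C1 hCf hh0 hh1 y1 y2 y3 g1 g2 g3 g4 CL
    (fun C₀ => max (max (F C₀) CL) (3 + 2 * (T1 C₀ + T2 C₀)))
  have hC0 : 0 ≤ C₀ := by linarith
  have hC1 : 1 ≤ C := hC₀.trans hCC
  have hCn : 0 ≤ C := by linarith
  have H1 := hT1 C₀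
  have H2 := hT2 C₀
  have hT1' := hT1p C₀
  have hT2' := hT2a C₀
  obtain ⟨t1, ht1⟩ : ∃ t, t = T1 C₀ := ⟨_, rfl⟩
  obtain ⟨t2, ht2⟩ : ∃ t, t = T2 C₀ := ⟨_, rfl⟩
  simp only [← ht1, ← ht2] at H1 H2 hT1' hT2' hCF
  rw [abs_of_nonneg hC0] at H1 H2
  have hFC : F C₀ ≤ C := (le_max_left _ _).trans ((le_max_left _ _).trans hCF)
  have hCL : CL ≤ C := (le_max_right _ _).trans ((le_max_left _ _).trans hCF)
  have hTC : 3 + 2 * (t1 + t2) ≤ C := (le_max_right _ _).trans hCF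
  refine ⟨C₀, C, hC₀, hCC, hFC, fun η hη => ?_⟩
  obtain ⟨s, hs, HF⟩ := HF η hη
  refine ⟨s, hs, fun B' U₀ y₀ io δ hB' hio hδ0 hδ hδh => ?_⟩
  obtain ⟨A1, a1, HH⟩ := hf_vis n K K' c k B C₁ C C 1 B1 hCn zero_le_one
  obtain ⟨A2, a2, HN⟩ := nfv n K K' c k B B' C₁ C C 1 B1 (by omega) hCn zero_le_one
  obtain ⟨A3, a3, HV⟩ := vch n K K' c k C₁ C
  obtain ⟨A, hA⟩ : ∃ A : ℝ, A = A1 + A2 + A3 := ⟨_, rfl⟩
  have hA0 : 0 ≤ A := by rw [hA]; linarith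
  have l1 : A1 ≤ A := by rw [hA]; linarith
  have l2 : A2 ≤ A := by rw [hA]; linarith
  have l3 : A3 ≤ A := by rw [hA]; linarith
  have hBr : (1 : ℝ) ≤ B := by exact_mod_cast B1
  have hB0 : (0 : ℝ) < B := by linarith
  have hlog : 0 < Real.log 2 := Real.log_pos (by norm_num)
  have hlog1 : Real.log 2 ≤ 1 := by
    have := Real.log_two_lt_d9
    linarith
  obtain ⟨δ₁, hδ₁⟩ : ∃ δ₁ : ℝ, δ₁ = min (io / 4) (h / (4 * B) * Real.log 2 / (1 + B')) :=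
    ⟨_, rfl⟩
  have hδ₁0 : 0 < δ₁ := by rw [hδ₁]; exact lt_min (by positivity) (by positivity)
  have hδa : δ₁ ≤ io / 4 := by rw [hδ₁]; exact min_le_left _ _
  have hδb : δ₁ ≤ h / (4 * B) * Real.log 2 / (1 + B') := by rw [hδ₁]; exact min_le_right _ _
  obtain ⟨u1, hu1⟩ := exists_nat_ge (4 * A / δ₁)
  obtain ⟨u2, hu2⟩ := exists_nat_ge (A / (io * Real.log 2))
  obtain ⟨u3, hu3⟩ := exists_nat_ge (2 / io)
  obtain ⟨e, he, U, y, r, r', r'', a, i, j, hU1, hU0, hy0, HM⟩ := HF B' (U₀ + u1 + u2 + u3) y₀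
    (io / 2) hB' (by positivity)
  obtain ⟨e₂, he₂⟩ : ∃ e₂ : ℝ, e₂ = min e (δ₁ / (2 * (A + 1))) := ⟨_, rfl⟩
  have he₂0 : 0 < e₂ := by
    rw [he₂]
    exact lt_min he (by positivity)
  refine ⟨e₂, he₂0, U, y, r, r', r'', a, i, j, hU1, by omega, hy0, fun M₀ => ?_⟩
  obtain ⟨m1, hm1⟩ := exists_nat_ge (((B * U : ℕ) : ℝ) / gt n)
  obtain ⟨M, hM, hP, κ, z₁, c4, c3, HZ⟩ :=
    HM (M₀ + i + j + B * (B * U) + B * (B * U) * r + B * U + U + m1 + 1)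
  refine ⟨M, by omega, κ, max z₁ 1, c4, ?_⟩
  intro lam J a₀ w₀ z D q ϖ E lam1 hz hϖ hO hDM hLLC hTm hNF hNFc hSt hEd hE
  have z1 : z₁ ≤ z := (le_max_left _ _).trans hz
  have z3 : 1 ≤ z := (le_max_right _ _).trans hz
  obtain ⟨w, P, S, hHyp₁, hGeo, hgd, hdep, hOk, hTM⟩ := HZ J a₀ w₀ z D q ϖ E z1 hϖ
    (vc_ok2 hO lam1) hDM hLLC hTm hNF hSt hEd (hE.trans (by rw [he₂]; exact min_le_left _ _))
  have hHyp : Hyp D n K K' J a₀ w₀ z M w i j r r' r'' y (B * U * z) lam gt gam κ C₁ C q E P S ys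
      gs := { hHyp₁ with
    ok := hO
    lam1 := lam1 }
  have hFx := hHyp.fxI hP hGeo hgd
  have hzr : (1 : ℝ) ≤ z := by exact_mod_cast z3
  have hi : i ≤ M := by
    have := hHyp.i2
    omega
  have hj : j ≤ M := by
    have := hHyp.j2
    omega
  have hi1 : 1 ≤ i := hP.y1.trans (hP.stp.s6.trans hP.a1)
  have hq := hO.isLaw
  -- the chart
  obtain ⟨hnear, hcht⟩ := H1 D J a₀ w₀ z M w i j r r' r'' y (B * U * z) a k lam gt gam κ C q E P S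
    ys gs hHyp hFx hP.stp (by linarith)
  have hDch := H2 D K K' J a₀ w₀ z M i j r a (B * U * z) lam gt κ C₁ q E P hO (le_max_left _ _)
    (le_max_right _ _) z3 hi hj (fun ω hω => ⟨(hgd ω hω).1, (hgd ω hω).2.2⟩)
  have hX1 := dch_mono (dch_x hDch) (show t2 ≤ t1 + t2 by linarith)
  have hX2 := dch_near (zh := zh D i j r a E P) hX1 (by linarith) z3
    (fun ω _ hω l l1 l2 => (hnear ω hω l l1 l2).trans
      (mul_le_mul_of_nonneg_right (vc_exp (by linarith)) (by positivity)))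
  have hX3 := dch_mono hX2 hTC
  -- numbers
  have hBU1 : 1 ≤ B * U := Nat.one_le_iff_ne_zero.2 (by positivity)
  have hXU : U * z ≤ B * U * z := Nat.mul_le_mul_right z (Nat.le_mul_of_pos_left U B1)
  have hXr : (U : ℝ) * z ≤ ((B * U * z : ℕ) : ℝ) := by exact_mod_cast hXU
  have hX0 : (0 : ℝ) ≤ ((B * U * z : ℕ) : ℝ) := Nat.cast_nonneg _
  have hUr : (U₀ : ℝ) + u1 + u2 + u3 ≤ U := by exact_mod_cast hU0
  have hu0 : (0 : ℝ) ≤ U₀ := Nat.cast_nonneg _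
  have hu1' : (0 : ℝ) ≤ u1 := Nat.cast_nonneg _
  have hu2' : (0 : ℝ) ≤ u2 := Nat.cast_nonneg _
  have hu3' : (0 : ℝ) ≤ u3 := Nat.cast_nonneg _
  have hb0 : 0 ≤ Pb q (fun ω => ¬ E ω) := Pool.MIC.Pb_nonneg hq.nonneg _
  have hb1 : Pb q (fun ω => ¬ E ω) ≤ δ₁ / (2 * (A + 1)) :=
    hE.trans (by rw [he₂]; exact min_le_right _ _)
  have herr : ∀ A' : ℝ, A' ≤ A →
      err A' κ z (B * U * z) (Pb q (fun ω => ¬ E ω)) ≤ δ₁ * (B * U * z : ℕ) := fun A' hA' =>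
    (err_mono hA' c4.le hb0).trans (err_le hA0 hδ₁0 c3 (by linarith) hXU hb1)
  have hM1 : ((B * U : ℕ) : ℝ) ≤ gt n * (M - j) := vc_n6 gamn hm1 (by omega)
  have hM2 : (U : ℝ) ≤ gt n * (M - j) := by
    refine le_trans ?_ hM1
    exact_mod_cast Nat.le_mul_of_pos_left U B1
  -- the fields of the visible chart
  have lo1 := hLLC i j r (B * (B * U)) hi1 hHyp.j1 (by omega) (by omega)
  have lo2 := hNFc i hi1 hi j hj r hHyp.j1 (B * U) (by omega) hM1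
  have hf := HH D J a₀ w₀ z M w i j r r' r'' y (B * U) lam gt gam κ h (h + δ) ϖ q E P S ys gs
    (rcd D i j r a) (zh D i j r a E P) _ _ (rcd D i j r a)
    (fun ω => (D.c (i - 1) (j - r) ω, (D.c i j ω, D.T ω))) hHyp hX3 visD_hat hNF hϖ (by omega) hM1
    (by
      intro ω ω' _ _ h1
      simp only [Pool.P4.bb, Prod.mk.injEq] at h1 ⊢
      exact ⟨⟨h1.2.1, h1.1⟩, h1.2.2⟩)
    (by
      have e1 : B * (B * U * z) = B * (B * U) * z := by ring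
      rw [e1]
      exact vc_n5 hCL lo1)
    lo2
  have hn := HN D J a₀ w₀ z M w i j r r' r'' y U lam gt gam κ h ϖ _ q E P S ys gs n₀ (rcd D i j r a)
    (zh D i j r a E P) (cMx D J a₀ z i j r a E P gs) _ _ (rcd D i j r a) hHyp hX3 hcht visD_hat
    hNF hϖ g4 (by omega) hM2 hf
  have hRcv : Rcv D n z i j r C q E (rcd D i j r a) (zh D i j r a E P) :=
    ⟨hX3.bs, fun ω ω' h1 h2 h3 => (hX3.sT ω ω' h1 h2 h3).1, hX3.bd⟩
  have hv := HV D J a₀ w₀ z M w i j r r' r'' y (B * U * z) lam gt gam κ q E P S ys gs hHyp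
    (rcd D i j r a) (zh D i j r a E P) (cMx D J a₀ z i j r a E P gs) hRcv hcht n₀ B' _ _
    (h / (4 * B)) hf hn (vc_n4I hX0 hB0 (Nat.cast_nonneg B') hh0.le hlog.le hδh hδb hδ₁0.le
      (herr _ l1) (herr _ l2) (herr _ l3))
  -- sizes
  have hUX : (U : ℝ) ≤ ((B * U * z : ℕ) : ℝ) := by
    refine le_trans ?_ hXr
    have := mul_le_mul_of_nonneg_left hzr (Nat.cast_nonneg (α := ℝ) U)
    linarith
  have s1 : Real.log 2 ≤ io / 2 * ((B * U * z : ℕ) : ℝ) := by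
    have e1 : 2 / io ≤ ((B * U * z : ℕ) : ℝ) := by linarith
    rw [div_le_iff₀ hio] at e1
    linarith
  have s2 : exp (A3 * z) ≤ (2 : ℝ) ^ (io * ((B * U * z : ℕ) : ℝ)) := by
    rw [Real.rpow_def_of_pos (by norm_num)]
    refine Real.exp_le_exp.2 ?_
    have e1 : A / (io * Real.log 2) ≤ U := by linarith
    rw [div_le_iff₀ (by positivity)] at e1
    exact vc_n3 (Nat.cast_nonneg z) hlog.le hio.le e1 l3 hXr
  have s3 : err A3 κ z (B * U * z) (Pb q (fun ω => ¬ E ω)) ≤ io * ((B * U * z : ℕ) : ℝ) :=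
    vc_n1 hX0 hio.le hδa (herr _ l3)
  have s4 : (h + δ - h) * ((B * U * z : ℕ) : ℝ) * Real.log 2 +
      err A1 κ z (B * U * z) (Pb q (fun ω => ¬ E ω)) +
      err A3 κ z (B * U * z) (Pb q (fun ω => ¬ E ω)) ≤ io * ((B * U * z : ℕ) : ℝ) :=
    vc_n2 hX0 hio.le hδa hδ0.le hδ hlog1 (herr _ l1) (herr _ l3)
  refine ⟨w, P, S, ?_⟩
  exact
    { hyp := hHyp
      plc := hP
      geo := hGeo
      gd := hgd
      okn := (hOk.toOkNS.flag E).mono le_rfl (by linarith)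
      tm := hTM
      vch := vch_mono' hv s3 (by linarith [s4]) s2 }

end Pool.P4J
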